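import Pool.Agent.Lib.MP_8d5788_an.Build

set_option autoImplicit false
open MeasureTheory

namespace Pool.Agent.Lib.MP_8d5788_an

/-- see the docstring of `S_choose` for the proof -/
theorem pf_choose  : S_choose := by
  intro K h N a hyp
  set C : ℕ := 16 * (h + 2) + ∑ m ∈ Finset.range K, 2 ^ h * a m with hC
  set e : ℕ := C * (h + 1) with he
  have hCe : C ≤ e := by rw [he]; exact Nat.le_mul_of_pos_right _ (Nat.succ_pos h)
  refine ⟨C, fun m => 2 ^ h * (2 * e / (2 ^ h * a m) + 1), by omega, ?_, ?_⟩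
  · calc 16 * (h + 2) ≤ C := by rw [hC]; exact Nat.le_add_right _ _
      _ ≤ C * (h + 1) := hCe
  · intro m hm
    obtain ⟨hN, hNa⟩ := hyp m hm
    have ha : 0 < a m := by
      rcases Nat.eq_zero_or_pos (a m) with h0 | h0
      · exfalso
        rw [h0, Nat.mul_zero] at hNa
        have : 0 < N m * 2 ^ N m := Nat.mul_pos hN (by positivity)
        omega
      · exact h0
    set D : ℕ := 2 ^ h * a m with hD
    have hDpos : 0 < D := Nat.mul_pos (by positivity) ha
    have hDC : D ≤ C := by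
      have h1 : 2 ^ h * a m ≤ ∑ m ∈ Finset.range K, 2 ^ h * a m :=
        Finset.single_le_sum (f := fun m => 2 ^ h * a m) (fun i _ => Nat.zero_le _) (Finset.mem_range.mpr hm)
      rw [hC]; omega
    have h1 : 2 * e < D * (2 * e / D + 1) := Nat.lt_mul_div_succ _ hDpos
    have h2 : D * (2 * e / D) ≤ 2 * e := Nat.mul_div_le _ _
    have hb : 2 ^ h * (2 * e / D + 1) * a m = D * (2 * e / D + 1) := by rw [hD]; ring
    have h3 : D * (2 * e / D + 1) ≤ 4 * e := by
      calc D * (2 * e / D + 1) = D * (2 * e / D) + D := by ring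
        _ ≤ 4 * e := by omega
    refine ⟨dvd_mul_right _ _, by positivity, ?_, ?_⟩
    · show 2 * e ≤ 2 ^ h * (2 * e / D + 1) * a m
      rw [hb]; exact h1.le
    · show 2 ^ h * (2 * e / D + 1) * (N m * 2 ^ N m) ≤ 2 ^ (m + 6) * e
      calc 2 ^ h * (2 * e / D + 1) * (N m * 2 ^ N m) ≤ 2 ^ h * (2 * e / D + 1) * (2 ^ (m + 4) * a m) :=
            Nat.mul_le_mul_left _ hNa
        _ = 2 ^ (m + 4) * (2 ^ h * (2 * e / D + 1) * a m) := by ring
        _ = 2 ^ (m + 4) * (D * (2 * e / D + 1)) := by rw [hb]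
        _ ≤ 2 ^ (m + 4) * (4 * e) := Nat.mul_le_mul_left _ h3
        _ = 2 ^ (m + 6) * e := by ring

end Pool.Agent.Lib.MP_8d5788_an
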