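import Pool.Agent.Lib.MP_8d5788_an.Build

set_option autoImplicit false
open MeasureTheory

namespace Pool.Agent.Lib.MP_8d5788_an

/-- words with prescribed values on a set of positions -/
noncomputable def countE (N : ℕ) (S : Finset ℕ) (v : ℕ → Bool) : Finset (Fin N → Bool) :=
  Finset.univ.filter (fun γ => ∀ x ∈ S, ext γ ((x : ℕ) : ℤ) = v x)

theorem count_ext {N : ℕ} (γ : Fin N → Bool) (x : ℕ) (hx : x < N) :
    ext γ ((x : ℕ) : ℤ) = γ ⟨x, hx⟩ := by
  unfold ext
  have : (0 : ℤ) ≤ (x : ℤ) ∧ (x : ℤ) < N := ⟨by positivity, by exact_mod_cast hx⟩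
  rw [dif_pos this]
  congr 1

theorem count_block {N : ℕ} (A : Finset (Fin N)) (v : Fin N → Bool) :
    ((Finset.univ.filter (fun γ : Fin N → Bool => ∀ x ∈ A, γ x = v x)).card : ℝ) =
      2 ^ N * (1/2 : ℝ) ^ A.card := by
  classical
  have h1 : (Finset.univ.filter (fun γ : Fin N → Bool => ∀ x ∈ A, γ x = v x)) =
      Fintype.piFinset (fun x => if x ∈ A then ({v x} : Finset Bool) else Finset.univ) := by
    ext γ
    simp only [Finset.mem_filter, Finset.mem_univ, true_and, Fintype.mem_piFinset]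
    constructor
    · intro h x
      by_cases hx : x ∈ A
      · simp [hx, h x hx]
      · simp [hx]
    · intro h x hx
      have := h x
      simpa [hx] using this
  have h2 : ∀ x : Fin N, (if x ∈ A then ({v x} : Finset Bool) else Finset.univ).card =
      if x ∈ A then 1 else 2 := by
    intro x
    split_ifs <;> simp
  have h3 : (Finset.univ.filter (fun γ : Fin N → Bool => ∀ x ∈ A, γ x = v x)).card * 2 ^ A.card
      = 2 ^ N := by
    rw [h1, Fintype.card_piFinset, Finset.prod_congr rfl (fun x _ => h2 x)]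
    have h4 : (2 : ℕ) ^ A.card = ∏ x : Fin N, if x ∈ A then 2 else 1 := by
      rw [Finset.prod_ite_mem, Finset.univ_inter, Finset.prod_const]
    rw [h4, ← Finset.prod_mul_distrib]
    have h5 : ∀ x : Fin N, (if x ∈ A then 1 else 2) * (if x ∈ A then 2 else 1) = 2 := by
      intro x; split_ifs <;> rfl
    rw [Finset.prod_congr rfl (fun x _ => h5 x)]
    simp
  have h6 : ((Finset.univ.filter (fun γ : Fin N → Bool => ∀ x ∈ A, γ x = v x)).card : ℝ) * 2 ^ A.card
      = 2 ^ N := by exact_mod_cast h3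
  rw [← h6, mul_assoc, ← mul_pow]
  norm_num

theorem countE_card {N : ℕ} (S : Finset ℕ) (v : ℕ → Bool) (hS : ∀ x ∈ S, x < N) :
    ((countE N S v).card : ℝ) = 2 ^ N * (1/2 : ℝ) ^ S.card := by
  have h := count_block (S.attachFin hS) (fun x => v x)
  rw [Finset.card_attachFin] at h
  rw [← h]
  unfold countE
  congr 2
  ext γ
  simp only [Finset.mem_filter, Finset.mem_univ, true_and, Finset.mem_attachFin]
  constructor
  · intro h1 x hx
    have := h1 x hx
    rwa [count_ext γ x x.2] at this
  · intro h1 x hx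
    rw [count_ext γ x (hS x hx)]
    exact h1 ⟨x, hS x hx⟩ hx

theorem count_biUnion {α β : Type*} [DecidableEq β] (s : Finset α) (t : α → Finset β) :
    ((s.biUnion t).card : ℝ) ≤ ∑ a ∈ s, ((t a).card : ℝ) := by
  exact_mod_cast Finset.card_biUnion_le

theorem count_geom (a b : ℕ) : ∑ l ∈ Finset.Ico a b, (1/2 : ℝ) ^ l ≤ 2 * (1/2 : ℝ) ^ a := by
  have := geom_sum_Ico_le_of_lt_one (x := (1/2 : ℝ)) (m := a) (n := b) (by norm_num) (by norm_num)
  calc _ ≤ (1/2 : ℝ) ^ a / (1 - 1/2) := this
    _ = 2 * (1/2 : ℝ) ^ a := by ring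

theorem count_range (a j : ℕ) : ∑ i ∈ Finset.range j, (1/2 : ℝ) ^ (i + a) ≤ 2 * (1/2 : ℝ) ^ a := by
  have h := count_geom 0 j
  rw [← Finset.range_eq_Ico] at h
  simp only [pow_add, ← Finset.sum_mul]
  have : (0:ℝ) < (1/2 : ℝ) ^ a := by positivity
  simp only [pow_zero, mul_one] at h
  nlinarith

/-- the numerical bound for occurrences covering `y` -/
theorem count_num1 (len h i m : ℕ) (h1 : i + 10 ≤ h) (h2 : 2 * h + i + 20 ≤ len) (h3 : m ≤ h + 1) :
    (len : ℝ) * (1/2 : ℝ) ^ len ≤ (1/2 : ℝ) ^ (i + (m + 6)) := by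
  have e1 : len / 3 + 3 + (i + (m + 6)) ≤ len := by omega
  have e2 : len ≤ 2 ^ (len / 3 + 3) := by
    have := @Nat.lt_two_pow_self (len / 3)
    have h4 : 2 ^ (len / 3 + 3) = 8 * 2 ^ (len / 3) := by rw [pow_add]; ring
    omega
  have e3 : (len : ℝ) ≤ 2 ^ (len / 3 + 3) := by exact_mod_cast e2
  have e4 : (1/2 : ℝ) ^ len ≤ (1/2 : ℝ) ^ (len / 3 + 3 + (i + (m + 6))) :=
    pow_le_pow_of_le_one (by norm_num) (by norm_num) e1
  calc (len : ℝ) * (1/2 : ℝ) ^ len ≤ 2 ^ (len / 3 + 3) * (1/2 : ℝ) ^ (len / 3 + 3 + (i + (m + 6))) := by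
        apply mul_le_mul e3 e4 (by positivity) (by positivity)
    _ = (2 * (1/2 : ℝ)) ^ (len / 3 + 3) * (1/2 : ℝ) ^ (i + (m + 6)) := by
        rw [pow_add, mul_pow]; ring
    _ = (1/2 : ℝ) ^ (i + (m + 6)) := by norm_num

theorem count_num2 (m N : ℕ) (hN : 4 * m + 100 ≤ N) :
    (N : ℝ) * (2 * (1/2 : ℝ) ^ (N / 2 + 1)) ≤ (1/2 : ℝ) ^ (m + 6) := by
  have e1 : N / 4 + 3 + (m + 6) ≤ N / 2 := by omega
  have e2 : N ≤ 2 ^ (N / 4 + 3) := by
    have := @Nat.lt_two_pow_self (N / 4)
    have h4 : 2 ^ (N / 4 + 3) = 8 * 2 ^ (N / 4) := by rw [pow_add]; ring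
    omega
  have e3 : (N : ℝ) ≤ 2 ^ (N / 4 + 3) := by exact_mod_cast e2
  have e4 : 2 * (1/2 : ℝ) ^ (N / 2 + 1) ≤ (1/2 : ℝ) ^ (N / 4 + 3 + (m + 6)) := by
    have : 2 * (1/2 : ℝ) ^ (N / 2 + 1) = (1/2 : ℝ) ^ (N / 2) := by rw [pow_succ]; ring
    rw [this]
    exact pow_le_pow_of_le_one (by norm_num) (by norm_num) e1
  calc (N : ℝ) * (2 * (1/2 : ℝ) ^ (N / 2 + 1)) ≤
        2 ^ (N / 4 + 3) * (1/2 : ℝ) ^ (N / 4 + 3 + (m + 6)) := by
        apply mul_le_mul e3 e4 (by positivity) (by positivity)
    _ = (2 * (1/2 : ℝ)) ^ (N / 4 + 3) * (1/2 : ℝ) ^ (m + 6) := by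
        rw [pow_add, mul_pow]; ring
    _ = (1/2 : ℝ) ^ (m + 6) := by norm_num

/-- a word satisfying the base event and no bad event is clean and `y` is available -/
theorem count_cover (f : ℕ → Lvl) (j m N y : ℕ) (hB : ∀ i < j, Basic i (f i))
    (hm : m ≤ y) (hyN : y < N) (γ : Fin N → Bool)
    (hA : ∀ x, y - m ≤ x → x < y → ext γ ((x : ℕ) : ℤ) = true)
    (hlast : ext γ ((N - 1 : ℕ) : ℤ) = false)
    (h1 : ∀ i < j, m ≤ (f i).h + 1 → ∀ b, b ≤ y → y < b + (f i).len → b + (f i).len ≤ N →
       ¬ (∀ u < (f i).len, ext γ ((b + u : ℕ) : ℤ) = (f i).V u))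
    (h2 : ∀ i < j, ∀ l, (f i).h + 2 ≤ l → l ≤ N →
       ¬ (∀ u < l, ext γ ((N - l + u : ℕ) : ℤ) = (f i).V u)) :
    γ ∈ cleanW f j N ∧ (⟨y, hyN⟩ : Fin N) ∈ avail f j m γ := by
  classical
  constructor
  · unfold cleanW
    rw [Finset.mem_filter]
    refine ⟨Finset.mem_univ _, hlast, ?_⟩
    intro i hi b hb hstart hcut
    by_contra hno
    push Not at hno
    have hl : N - (N - b) = b := by omega
    have hval : ∀ u < N - b, ext γ ((N - (N - b) + u : ℕ) : ℤ) = (f i).V u := by
      intro u hu
      rw [hl]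
      exact hno u (by omega)
    refine h2 i hi (N - b) ?_ (by omega) hval
    by_contra hlt
    have hv := hval (N - b - 1) (by omega)
    have e1 : N - (N - b) + (N - b - 1) = N - 1 := by omega
    rw [e1, hlast, (hB i hi).start_ones (N - b - 1) (by omega)] at hv
    exact absurd hv (by simp)
  · unfold avail
    rw [Finset.mem_filter]
    refine ⟨Finset.mem_univ _, hm, ?_, ?_⟩
    · intro u hu
      exact hA (y - 1 - u) (by omega) (by omega)
    · intro i hi b hstart hlen hocc hcov
      obtain ⟨hb1, hb2⟩ := hcov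
      simp only at hb1 hb2
      by_cases hmh : m ≤ (f i).h + 1
      · exact h1 i hi hmh b hb1 hb2 hlen hocc
      · have hlb := (hB i hi).len_big
        by_cases hbm : b ≤ y - m
        · -- the ones lie inside the occurrence
          have hones : ∀ u ≤ (f i).h + 1, (f i).V (y - m - b + u) = true := by
            intro u hu
            rw [← hocc (y - m - b + u) (by omega)]
            have e2 : b + (y - m - b + u) = y - m + u := by omega
            rw [e2]
            exact hA (y - m + u) (by omega) (by omega)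
          by_cases h0 : y - m - b = 0
          · have := hones ((f i).h + 1) le_rfl
            rw [h0, zero_add, (hB i hi).start_zero] at this
            exact absurd this (by simp)
          · obtain ⟨u, hu, hu2⟩ := (hB i hi).norun (y - m - b) (by omega) (by omega)
            rw [hones u (by omega)] at hu2
            exact absurd hu2 (by simp)
        · rcases hstart with h0 | h0
          · omega
          · rw [hA (b - 1) (by omega) (by omega)] at h0
            exact absurd h0 (by simp)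

theorem count_main (f : ℕ → Lvl) (j m N y : ℕ) (hB : ∀ i < j, Basic i (f i))
    (hN : 4 * m + 100 ≤ N) (hm : m ≤ y) (hy : y < N / 2) (hyN : y < N) :
    (2:ℝ) ^ N * (1/2) ^ (m + 2) ≤
      (((cleanW f j N).filter (fun γ => (⟨y, hyN⟩ : Fin N) ∈ avail f j m γ)).card : ℝ) := by
  classical
  set F : Finset (Fin N → Bool) := countE N (insert (N - 1) (Finset.Ico (y - m) y))
    (fun x => decide (x ≠ N - 1)) with hF
  set G : Finset (Fin N → Bool) :=
    (cleanW f j N).filter (fun γ => (⟨y, hyN⟩ : Fin N) ∈ avail f j m γ) with hG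
  set U1 : Finset (Fin N → Bool) := (Finset.range j).biUnion (fun i =>
    if m ≤ (f i).h + 1 then
      ((Finset.Ico (y + 1 - (f i).len) (y + 1)).filter (fun b => b + (f i).len ≤ N)).biUnion
        (fun b => countE N (Finset.Ico b (b + (f i).len)) (fun x => (f i).V (x - b)))
    else ∅) with hU1
  set U2 : Finset (Fin N → Bool) := (Finset.range j).biUnion (fun i =>
    (Finset.Ico ((f i).h + 2) (N / 2 + 1)).biUnion (fun l =>
      countE N (Finset.Ico (y - m) y ∪ Finset.Ico (N - l) N)
        (fun x => if x < y then true else (f i).V (x - (N - l))))) with hU2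
  set U3 : Finset (Fin N → Bool) := (Finset.range (min j N)).biUnion (fun i =>
    (Finset.Ico (N / 2 + 1) (N + 1)).biUnion (fun l =>
      countE N (Finset.Ico (N - l) N) (fun x => (f i).V (x - (N - l))))) with hU3
  have hsub : F ⊆ G ∪ (U1 ∪ (U2 ∪ U3)) := by
    intro γ hγ
    by_contra hno
    simp only [Finset.mem_union, not_or] at hno
    obtain ⟨hnG, hn1, hn2, hn3⟩ := hno
    apply hnG
    rw [hG, Finset.mem_filter]
    rw [hF] at hγ
    unfold countE at hγ
    rw [Finset.mem_filter] at hγ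
    have hγ2 : ∀ x ∈ insert (N - 1) (Finset.Ico (y - m) y),
        ext γ ((x : ℕ) : ℤ) = decide (x ≠ N - 1) := hγ.2
    apply count_cover f j m N y hB hm hyN γ
    · intro x hx1 hx2
      rw [hγ2 x (by simp; omega)]
      simp; omega
    · rw [hγ2 (N - 1) (by simp)]
      simp
    · intro i hi hmh b hb1 hb2 hb3 hocc
      apply hn1
      rw [hU1, Finset.mem_biUnion]
      refine ⟨i, Finset.mem_range.mpr hi, ?_⟩
      rw [if_pos hmh, Finset.mem_biUnion]
      refine ⟨b, ?_, ?_⟩
      · rw [Finset.mem_filter, Finset.mem_Ico]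
        omega
      · unfold countE
        rw [Finset.mem_filter]
        refine ⟨Finset.mem_univ _, ?_⟩
        intro x hx
        rw [Finset.mem_Ico] at hx
        have := hocc (x - b) (by omega)
        rwa [show b + (x - b) = x by omega] at this
    · intro i hi l hl1 hl2 hocc
      by_cases hlN : l ≤ N / 2
      · apply hn2
        rw [hU2, Finset.mem_biUnion]
        refine ⟨i, Finset.mem_range.mpr hi, ?_⟩
        rw [Finset.mem_biUnion]
        refine ⟨l, ?_, ?_⟩
        · rw [Finset.mem_Ico]; omega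
        · unfold countE
          rw [Finset.mem_filter]
          refine ⟨Finset.mem_univ _, ?_⟩
          intro x hx
          rw [Finset.mem_union, Finset.mem_Ico, Finset.mem_Ico] at hx
          beta_reduce
          by_cases hxy : x < y
          · rw [if_pos hxy, hγ2 x (by simp; omega)]
            simp; omega
          · rw [if_neg hxy]
            have := hocc (x - (N - l)) (by omega)
            rwa [show N - l + (x - (N - l)) = x by omega] at this
      · apply hn3
        rw [hU3, Finset.mem_biUnion]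
        have hhi := (hB i hi).h_ge
        refine ⟨i, Finset.mem_range.mpr (by omega), ?_⟩
        rw [Finset.mem_biUnion]
        refine ⟨l, ?_, ?_⟩
        · rw [Finset.mem_Ico]; omega
        · unfold countE
          rw [Finset.mem_filter]
          refine ⟨Finset.mem_univ _, ?_⟩
          intro x hx
          rw [Finset.mem_Ico] at hx
          have := hocc (x - (N - l)) (by omega)
          rwa [show N - l + (x - (N - l)) = x by omega] at this
  have hcF : (F.card : ℝ) = 2 ^ N * (1/2 : ℝ) ^ (m + 1) := by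
    rw [hF, countE_card]
    · rw [Finset.card_insert_of_notMem (by simp; omega), Nat.card_Ico]
      rw [show y - (y - m) + 1 = m + 1 by omega]
    · intro x hx
      rw [Finset.mem_insert, Finset.mem_Ico] at hx
      omega
  have hc1 : (U1.card : ℝ) ≤ 2 ^ N * (2 * (1/2 : ℝ) ^ (m + 6)) := by
    calc (U1.card : ℝ) ≤ ∑ i ∈ Finset.range j, (2:ℝ) ^ N * (1/2 : ℝ) ^ (i + (m + 6)) := by
          rw [hU1]
          refine le_trans (count_biUnion _ _) (Finset.sum_le_sum ?_)
          intro i hi
          rw [Finset.mem_range] at hi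
          split_ifs with hmh
          · refine le_trans (count_biUnion _ _) ?_
            have hb : ∀ b ∈ (Finset.Ico (y + 1 - (f i).len) (y + 1)).filter
                (fun b => b + (f i).len ≤ N),
                ((countE N (Finset.Ico b (b + (f i).len)) (fun x => (f i).V (x - b))).card : ℝ) =
                2 ^ N * (1/2 : ℝ) ^ (f i).len := by
              intro b hb
              rw [Finset.mem_filter] at hb
              rw [countE_card, Nat.card_Ico, show b + (f i).len - b = (f i).len by omega]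
              intro x hx
              rw [Finset.mem_Ico] at hx
              omega
            rw [Finset.sum_congr rfl hb, Finset.sum_const, nsmul_eq_mul]
            have hcard : (((Finset.Ico (y + 1 - (f i).len) (y + 1)).filter
                (fun b => b + (f i).len ≤ N)).card : ℝ) ≤ (f i).len := by
              have : ((Finset.Ico (y + 1 - (f i).len) (y + 1)).filter
                (fun b => b + (f i).len ≤ N)).card ≤ (f i).len := by
                refine le_trans (Finset.card_filter_le _ _) ?_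
                rw [Nat.card_Ico]; omega
              exact_mod_cast this
            have hn := count_num1 (f i).len (f i).h i m (hB i hi).h_ge (hB i hi).len_big hmh
            calc _ ≤ ((f i).len : ℝ) * (2 ^ N * (1/2 : ℝ) ^ (f i).len) :=
                  mul_le_mul_of_nonneg_right hcard (by positivity)
              _ = 2 ^ N * (((f i).len : ℝ) * (1/2 : ℝ) ^ (f i).len) := by ring
              _ ≤ 2 ^ N * (1/2 : ℝ) ^ (i + (m + 6)) := mul_le_mul_of_nonneg_left hn (by positivity)
          · simp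
      _ = 2 ^ N * ∑ i ∈ Finset.range j, (1/2 : ℝ) ^ (i + (m + 6)) := by rw [Finset.mul_sum]
      _ ≤ 2 ^ N * (2 * (1/2 : ℝ) ^ (m + 6)) :=
          mul_le_mul_of_nonneg_left (count_range _ _) (by positivity)
  have hc2 : (U2.card : ℝ) ≤ 2 ^ N * ((1/2 : ℝ) ^ m * (2 * (1/2 : ℝ) ^ 11)) := by
    calc (U2.card : ℝ) ≤ ∑ i ∈ Finset.range j, (2:ℝ) ^ N * ((1/2 : ℝ) ^ m * (1/2 : ℝ) ^ (i + 11)) := by
          rw [hU2]
          refine le_trans (count_biUnion _ _) (Finset.sum_le_sum ?_)
          intro i hi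
          rw [Finset.mem_range] at hi
          refine le_trans (count_biUnion _ _) ?_
          have hb : ∀ l ∈ Finset.Ico ((f i).h + 2) (N / 2 + 1),
              ((countE N (Finset.Ico (y - m) y ∪ Finset.Ico (N - l) N)
                (fun x => if x < y then true else (f i).V (x - (N - l)))).card : ℝ) =
              2 ^ N * ((1/2 : ℝ) ^ m * (1/2 : ℝ) ^ l) := by
            intro l hl
            rw [Finset.mem_Ico] at hl
            rw [countE_card, Finset.card_union_of_disjoint, Nat.card_Ico, Nat.card_Ico,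
              show y - (y - m) + (N - (N - l)) = m + l by omega, pow_add]
            · rw [Finset.disjoint_left]
              intro x hx1 hx2
              rw [Finset.mem_Ico] at hx1 hx2
              omega
            · intro x hx
              rw [Finset.mem_union, Finset.mem_Ico, Finset.mem_Ico] at hx
              omega
          rw [Finset.sum_congr rfl hb, ← Finset.mul_sum, ← Finset.mul_sum]
          apply mul_le_mul_of_nonneg_left _ (by positivity)
          apply mul_le_mul_of_nonneg_left _ (by positivity)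
          refine le_trans (count_geom _ _) ?_
          have hhi := (hB i hi).h_ge
          have : (1/2 : ℝ) ^ ((f i).h + 2) ≤ (1/2 : ℝ) ^ (i + 11 + 1) :=
            pow_le_pow_of_le_one (by norm_num) (by norm_num) (by omega)
          rw [pow_succ (1/2 : ℝ) (i + 11)] at this
          linarith
      _ = 2 ^ N * ((1/2 : ℝ) ^ m * ∑ i ∈ Finset.range j, (1/2 : ℝ) ^ (i + 11)) := by
          rw [Finset.mul_sum, Finset.mul_sum]
      _ ≤ 2 ^ N * ((1/2 : ℝ) ^ m * (2 * (1/2 : ℝ) ^ 11)) := by
          apply mul_le_mul_of_nonneg_left _ (by positivity)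
          exact mul_le_mul_of_nonneg_left (count_range _ _) (by positivity)
  have hc3 : (U3.card : ℝ) ≤ 2 ^ N * (1/2 : ℝ) ^ (m + 6) := by
    calc (U3.card : ℝ) ≤ ∑ i ∈ Finset.range (min j N), (2:ℝ) ^ N * (2 * (1/2 : ℝ) ^ (N / 2 + 1)) := by
          rw [hU3]
          refine le_trans (count_biUnion _ _) (Finset.sum_le_sum ?_)
          intro i hi
          refine le_trans (count_biUnion _ _) ?_
          have hb : ∀ l ∈ Finset.Ico (N / 2 + 1) (N + 1),
              ((countE N (Finset.Ico (N - l) N) (fun x => (f i).V (x - (N - l)))).card : ℝ) =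
              2 ^ N * (1/2 : ℝ) ^ l := by
            intro l hl
            rw [Finset.mem_Ico] at hl
            rw [countE_card, Nat.card_Ico, show N - (N - l) = l by omega]
            intro x hx
            rw [Finset.mem_Ico] at hx
            omega
          rw [Finset.sum_congr rfl hb, ← Finset.mul_sum]
          exact mul_le_mul_of_nonneg_left (count_geom _ _) (by positivity)
      _ = (min j N : ℕ) * (2 ^ N * (2 * (1/2 : ℝ) ^ (N / 2 + 1))) := by
          rw [Finset.sum_const, Finset.card_range, nsmul_eq_mul]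
      _ ≤ (N : ℝ) * (2 ^ N * (2 * (1/2 : ℝ) ^ (N / 2 + 1))) := by
          apply mul_le_mul_of_nonneg_right _ (by positivity)
          exact_mod_cast min_le_right j N
      _ = 2 ^ N * ((N : ℝ) * (2 * (1/2 : ℝ) ^ (N / 2 + 1))) := by ring
      _ ≤ 2 ^ N * (1/2 : ℝ) ^ (m + 6) :=
          mul_le_mul_of_nonneg_left (count_num2 m N hN) (by positivity)
  have hcard : (F.card : ℝ) ≤ G.card + (U1.card + (U2.card + U3.card)) := by
    have h1 := Finset.card_le_card hsub
    have h2 := Finset.card_union_le G (U1 ∪ (U2 ∪ U3))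
    have h3 := Finset.card_union_le U1 (U2 ∪ U3)
    have h4 := Finset.card_union_le U2 U3
    have h5 : F.card ≤ G.card + (U1.card + (U2.card + U3.card)) := by omega
    exact_mod_cast h5
  have hp : (0:ℝ) < 2 ^ N * (1/2 : ℝ) ^ m := by positivity
  have e1 : (2:ℝ) ^ N * (1/2 : ℝ) ^ (m + 1) = (2 ^ N * (1/2 : ℝ) ^ m) * (1/2) := by
    rw [pow_add]; ring
  have e2 : (2:ℝ) ^ N * (1/2) ^ (m + 2) = (2 ^ N * (1/2 : ℝ) ^ m) * (1/4) := by
    rw [pow_add]; ring
  have e3 : (2:ℝ) ^ N * (2 * (1/2 : ℝ) ^ (m + 6)) = (2 ^ N * (1/2 : ℝ) ^ m) * (1/32) := by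
    rw [pow_add]; ring
  have e4 : (2:ℝ) ^ N * ((1/2 : ℝ) ^ m * (2 * (1/2 : ℝ) ^ 11)) = (2 ^ N * (1/2 : ℝ) ^ m) * (1/1024) := by
    ring
  have e5 : (2:ℝ) ^ N * (1/2 : ℝ) ^ (m + 6) = (2 ^ N * (1/2 : ℝ) ^ m) * (1/64) := by
    rw [pow_add]; ring
  rw [e2]
  rw [hcF, e1] at hcard
  rw [e3] at hc1
  rw [e4] at hc2
  rw [e5] at hc3
  linarith

/-- see the docstring of `S_count` for the proof -/
theorem pf_count  : S_count := by
  classical
  refine ⟨fun m => 4 * m + 100, ?_⟩
  intro f j m N hB hN
  simp only at hN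
  have hsum : ∑ γ ∈ cleanW f j N, (avail f j m γ).card =
      ∑ y : Fin N, ((cleanW f j N).filter (fun γ => y ∈ avail f j m γ)).card := by
    simp only [Finset.card_filter]
    rw [Finset.sum_comm]
    apply Finset.sum_congr rfl
    intro γ _
    rw [← Finset.card_filter]
    congr 1
    ext y
    simp
  have hlow : ((N / 2 - m : ℕ) : ℝ) * ((2:ℝ) ^ N * (1/2) ^ (m + 2)) ≤
      ∑ y : Fin N, (((cleanW f j N).filter (fun γ => y ∈ avail f j m γ)).card : ℝ) := by
    have hI : ∀ x ∈ Finset.Ico m (N / 2), x < N := by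
      intro x hx
      rw [Finset.mem_Ico] at hx
      omega
    calc ((N / 2 - m : ℕ) : ℝ) * ((2:ℝ) ^ N * (1/2) ^ (m + 2)) =
        ∑ y ∈ (Finset.Ico m (N / 2)).attachFin hI, ((2:ℝ) ^ N * (1/2) ^ (m + 2)) := by
          rw [Finset.sum_const, Finset.card_attachFin, Nat.card_Ico, nsmul_eq_mul]
      _ ≤ ∑ y ∈ (Finset.Ico m (N / 2)).attachFin hI,
          (((cleanW f j N).filter (fun γ => y ∈ avail f j m γ)).card : ℝ) := by
          apply Finset.sum_le_sum
          intro y hy
          rw [Finset.mem_attachFin, Finset.mem_Ico] at hy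
          exact count_main f j m N y hB hN hy.1 hy.2 y.2
      _ ≤ _ := by
          apply Finset.sum_le_sum_of_subset_of_nonneg (Finset.subset_univ _)
          intro y _ _
          positivity
  have hq : (N : ℝ) ≤ 4 * ((N / 2 - m : ℕ) : ℝ) := by
    have : N ≤ 4 * (N / 2 - m) := by omega
    exact_mod_cast this
  have hfin : ((N * 2 ^ N : ℕ) : ℝ) ≤
      ((2 ^ (m + 4) * ∑ γ ∈ cleanW f j N, (avail f j m γ).card : ℕ) : ℝ) := by
    rw [hsum]
    push_cast
    have h1 : (2:ℝ) ^ (m + 4) * (((N / 2 - m : ℕ) : ℝ) * ((2:ℝ) ^ N * (1/2) ^ (m + 2))) =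
        (4 * ((N / 2 - m : ℕ) : ℝ)) * 2 ^ N := by
      have h2 : (2:ℝ) ^ (m + 4) * (1/2) ^ (m + 2) = 4 := by
        rw [show m + 4 = (m + 2) + 2 by omega, pow_add, mul_right_comm, ← mul_pow]
        norm_num
      calc _ = (((N / 2 - m : ℕ) : ℝ) * 2 ^ N) * ((2:ℝ) ^ (m + 4) * (1/2) ^ (m + 2)) := by ring
        _ = _ := by rw [h2]; ring
    calc (N : ℝ) * 2 ^ N ≤ (4 * ((N / 2 - m : ℕ) : ℝ)) * 2 ^ N :=
          mul_le_mul_of_nonneg_right hq (by positivity)
      _ = (2:ℝ) ^ (m + 4) * (((N / 2 - m : ℕ) : ℝ) * ((2:ℝ) ^ N * (1/2) ^ (m + 2))) := h1.symm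
      _ ≤ _ := mul_le_mul_of_nonneg_left hlow (by positivity)
  exact_mod_cast hfin

end Pool.Agent.Lib.MP_8d5788_an
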