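import Pool.Agent.Lib.MP_8d5788_an.Stmts

set_option autoImplicit false
open MeasureTheory

namespace Pool.Agent.Lib.MP_8d5788_an

/-- see the docstring of `S_det` for the proof -/
theorem pf_det (h1 : S_lam2cyl) (h2 : S_meas) : S_det := by
  intro k n S J X φ hX hφ E K D c hE hc
  obtain ⟨hPhi, -⟩ := h2 k n S J (fun _ => 0) (fun j _ => by have := S.k_ge j; omega)
  set Ψ : (ℤ → Bool) × (ℤ → Bool) → (ℤ → Sym) := fun p => S.Phi J (fun _ => 0) p.1 p.2 with hΨ
  have hmu : S.mu J = Measure.map Ψ (lam.prod lam) := rfl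
  have hφm : AEMeasurable φ (S.mu J) := by
    by_contra hcon
    rw [Measure.map_of_not_aemeasurable hcon] at hφ
    have : (lam2 : Measure (ℤ → Bool × Bool)) Set.univ = 0 := by rw [← hφ]; rfl
    rw [measure_univ] at this
    exact one_ne_zero this
  let C : Set (ℤ → Bool × Bool) := {g | ∀ z ∈ D, g z = c z}
  have hsub : E ⊆ Ψ ⁻¹' Xᶜ ∪ Ψ ⁻¹' (φ ⁻¹' C) := by
    intro p hp
    by_cases hx : Ψ p ∈ X
    · right
      exact hc p hp hx
    · left
      exact hx
  have e1 : (lam.prod lam) (Ψ ⁻¹' Xᶜ) = 0 := by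
    refine le_antisymm ?_ zero_le
    rw [← hX, hmu]
    exact Measure.le_map_apply hPhi.aemeasurable _
  have e2 : (lam.prod lam) (Ψ ⁻¹' (φ ⁻¹' C)) ≤ (4⁻¹ : ENNReal) ^ D.card := by
    rw [← h1 D c, ← hφ]
    refine (Measure.le_map_apply hPhi.aemeasurable _).trans ?_
    rw [← hmu]
    exact Measure.le_map_apply hφm _
  have e3 : (2⁻¹ : ENNReal) ^ K ≤ (4⁻¹ : ENNReal) ^ D.card := by
    refine hE.trans ((measure_mono hsub).trans ((measure_union_le _ _).trans ?_))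
    rw [e1, zero_add]
    exact e2
  have e4 : (4⁻¹ : ENNReal) = (2⁻¹) ^ 2 := by
    rw [← ENNReal.inv_pow]
    norm_num
  rw [e4, ← pow_mul, ← ENNReal.inv_pow, ← ENNReal.inv_pow, ENNReal.inv_le_inv] at e3
  have e5 : 2 ^ (2 * D.card) ≤ 2 ^ K := by
    exact_mod_cast e3
  exact (Nat.pow_le_pow_iff_right (by norm_num)).1 e5

end Pool.Agent.Lib.MP_8d5788_an
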