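import Pool.Agent.Lib.MP_8d5788_an.Build

set_option autoImplicit false
open MeasureTheory

namespace Pool.Agent.Lib.MP_8d5788_an

theorem dist_ext_fin {n : ℕ} (γ : Fin n → Bool) (u : Fin n) : ext γ ((u : ℕ) : ℤ) = γ u := by
  unfold ext
  have h : (0:ℤ) ≤ ((u:ℕ):ℤ) ∧ ((u:ℕ):ℤ) < n := by
    constructor
    · positivity
    · exact_mod_cast u.2
  rw [dif_pos h]
  congr 1

open Classical in
noncomputable def dist_en {α : Type} (s : Finset α) (d : α) (l : ℕ) : α :=
  if hc : 0 < s.card then ((s.equivFin.symm ⟨l % s.card, Nat.mod_lt _ hc⟩ : s) : α) else d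

theorem dist_en_mem {α : Type} (s : Finset α) (d : α) (l : ℕ) (hs : s.Nonempty) :
    dist_en s d l ∈ s := by
  unfold dist_en
  rw [dif_pos hs.card_pos]
  exact Subtype.property _

theorem dist_en_eq {α : Type} (s : Finset α) (d : α) (γ : α) (hγ : γ ∈ s) :
    ∃ idx < s.card, ∀ l, dist_en s d l = γ ↔ l % s.card = idx := by
  have hs : 0 < s.card := Finset.card_pos.mpr ⟨γ, hγ⟩
  refine ⟨(s.equivFin ⟨γ, hγ⟩ : Fin s.card), (s.equivFin ⟨γ, hγ⟩ : Fin s.card).2, ?_⟩
  intro l
  unfold dist_en
  rw [dif_pos hs]
  constructor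
  · intro h
    have h1 : s.equivFin.symm ⟨l % s.card, Nat.mod_lt _ hs⟩ = ⟨γ, hγ⟩ := Subtype.ext h
    rw [Equiv.symm_apply_eq] at h1
    rw [← h1]
  · intro h
    have h1 : (⟨l % s.card, Nat.mod_lt _ hs⟩ : Fin s.card) = s.equivFin ⟨γ, hγ⟩ := Fin.ext h
    rw [h1, Equiv.symm_apply_apply]

/-- see the docstring of `S_dist` for the proof -/
theorem pf_dist  : S_dist := by
  intro h K N b CL hyp
  set A : ℕ → ℕ := fun m => ∑ i ∈ Finset.range m, b i * (CL i).card with hA
  have hA0 : A 0 = 0 := by simp [hA]
  have hAs : ∀ m, A (m + 1) = A m + b m * (CL m).card := by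
    intro m; simp [hA, Finset.sum_range_succ]
  have hAmono : Monotone A := monotone_nat_of_le_succ (fun m => by rw [hAs]; exact Nat.le_add_right _ _)
  set T := A K with hT
  set z : ℕ → ℕ := fun t => Nat.findGreatest (fun m => A m ≤ t) K with hz
  have hz1 : ∀ t, A (z t) ≤ t := by
    intro t
    exact Nat.findGreatest_spec (P := fun m => A m ≤ t) (Nat.zero_le K) (by show A 0 ≤ t; rw [hA0]; exact Nat.zero_le _)
  have hz2 : ∀ t, z t ≤ K := fun t => Nat.findGreatest_le K
  have hz3 : ∀ t < T, z t < K := by
    intro t ht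
    rcases lt_or_eq_of_le (hz2 t) with h1 | h1
    · exact h1
    · exfalso
      have := hz1 t
      rw [h1] at this
      omega
  have hz4 : ∀ t < T, t < A (z t + 1) := by
    intro t ht
    by_contra hcon
    have h1 : z t + 1 ≤ K := hz3 t ht
    have h2 := Nat.findGreatest_is_greatest (P := fun m => A m ≤ t) (n := K) (k := z t + 1)
      (Nat.lt_succ_self _) h1
    exact h2 (not_lt.mp hcon)
  have hz5 : ∀ m < K, ∀ t, A m ≤ t → t < A (m + 1) → t < T ∧ z t = m := by
    intro m hm t h1 h2
    have h3 : t < T := lt_of_lt_of_le h2 (hAmono hm)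
    refine ⟨h3, ?_⟩
    have h4 : m ≤ z t := Nat.le_findGreatest hm.le h1
    by_contra hne
    have h5 : m + 1 ≤ z t := by omega
    have h6 := hAmono h5
    have h7 := hz1 t
    omega
  let W : ℕ → ℕ → ℕ → Bool := fun m t u => ext (dist_en (CL m) (fun _ => false) (t - A m)) (u : ℤ)
  refine ⟨T, A, z, fun t u => W (z t) t u, hA0, rfl, hAs, ?_, ?_, hz5, ?_, ?_⟩
  · intro m hm
    apply Finset.dvd_sum
    intro i hi
    have : i < K := lt_of_lt_of_le (Finset.mem_range.mp hi) hm
    exact Dvd.dvd.mul_right (hyp i this).2.1 _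
  · intro t ht
    exact ⟨hz3 t ht, hz1 t, hz4 t ht⟩
  · intro t ht
    exact ⟨dist_en (CL (z t)) (fun _ => false) (t - A (z t)), dist_en_mem _ _ _ (hyp _ (hz3 t ht)).1, fun u => rfl⟩
  · intro m hm γ hγ
    obtain ⟨idx, hidx, hiff⟩ := dist_en_eq (CL m) (fun _ => false) γ hγ
    have hW : ∀ t, (∀ u : Fin (N m), W m t u = γ u) ↔ (t - A m) % (CL m).card = idx := by
      intro t
      rw [← hiff (t - A m)]
      constructor
      · intro h1
        funext u
        rw [← h1 u]
        exact (dist_ext_fin _ u).symm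
      · intro h1 u
        show ext (dist_en (CL m) (fun _ => false) (t - A m)) _ = _
        rw [h1]
        exact dist_ext_fin _ u
    have hset : (Finset.range T).filter (fun t => z t = m ∧ ∀ u : Fin (N m), W (z t) t u = γ u)
        = (Finset.range (b m)).image (fun i => A m + (i * (CL m).card + idx)) := by
      ext t
      simp only [Finset.mem_filter, Finset.mem_range, Finset.mem_image]
      constructor
      · rintro ⟨ht, hzt, h2⟩
        have h3 : (t - A m) % (CL m).card = idx := by
          apply (hW t).mp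
          intro u
          have := h2 u
          rw [hzt] at this
          exact this
        have h4 := hz1 t
        have h5 := hz4 t ht
        rw [hzt] at h4 h5
        rw [hAs] at h5
        refine ⟨(t - A m) / (CL m).card, ?_, ?_⟩
        · apply Nat.div_lt_of_lt_mul
          rw [mul_comm]
          omega
        · rw [← h3, mul_comm, Nat.div_add_mod]
          omega
      · rintro ⟨i, hi, rfl⟩
        have h1 : i * (CL m).card + idx < b m * (CL m).card := by
          calc i * (CL m).card + idx < i * (CL m).card + (CL m).card := by omega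
            _ = (i + 1) * (CL m).card := by ring
            _ ≤ b m * (CL m).card := Nat.mul_le_mul_right _ hi
        have h2 := hz5 m hm (A m + (i * (CL m).card + idx)) (Nat.le_add_right _ _) (by rw [hAs]; omega)
        refine ⟨h2.1, h2.2, ?_⟩
        rw [h2.2]
        apply (hW _).mpr
        rw [Nat.add_sub_cancel_left, mul_comm, Nat.mul_add_mod]
        exact Nat.mod_eq_of_lt hidx
    show ((Finset.range T).filter (fun t => z t = m ∧ ∀ u : Fin (N m), W (z t) t u = γ u)).card = b m
    rw [hset, Finset.card_image_of_injective, Finset.card_range]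
    intro i j hij
    have hc : 0 < (CL m).card := by omega
    have h1 : i * (CL m).card = j * (CL m).card := by
      have : A m + (i * (CL m).card + idx) = A m + (j * (CL m).card + idx) := hij
      omega
    exact Nat.eq_of_mul_eq_mul_right hc h1

end Pool.Agent.Lib.MP_8d5788_an
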