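import Pool.Agent.Lib.MP_8d5788_an.Stmts

set_option autoImplicit false
open MeasureTheory

namespace Pool.Agent.Lib.MP_8d5788_an

/-- see the docstring of `S_ep` for the proof -/
theorem pf_ep (h1 : S_suniq) : S_ep := by
  intro k n S g M O t y p hO hp
  have hex : ∃ p, S.Slt O y p := ⟨p, hp⟩
  have hch := hex.choose_spec
  have hO1 : S.Occ g p.1 p.2.1 := hO _ hp.1
  have hO2 : S.Occ g hex.choose.1 hex.choose.2.1 := hO _ hch.1
  have heq := h1 k n S g hex.choose.1 p.1 p.2.2 hex.choose.2.2 p.2.1 hex.choose.2.1 hO1 hO2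
    hp.2.1 hch.2.1 (by rw [← hp.2.2, ← hch.2.2])
  unfold Sys.ep
  rw [dif_pos hex]
  have e1 : hex.choose = p := by
    refine Prod.ext heq.1 (Prod.ext heq.2.1 heq.2.2)
  rw [e1]

end Pool.Agent.Lib.MP_8d5788_an
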