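import Pool.Agent.Lib.MP_8d5788_an.Stmts

set_option autoImplicit false
open MeasureTheory

namespace Pool.Agent.Lib.MP_8d5788_an

theorem equi_sum {s N : ℕ} (A : (Fin s → Bool) →+ (Fin N → Bool)) (hA : Function.Surjective A)
    (hN : N ≤ s) (F : (Fin N → Bool) → ℝ) :
    ∑ τ, F (A τ) = 2 ^ (s - N) * ∑ u, F u := by
  classical
  have h1 : ∀ u : Fin N → Bool, (Finset.univ.filter (fun τ => A τ = u)).card =
      (Finset.univ.filter (fun τ => A τ = 0)).card := fun u =>
    AddMonoidHom.card_fiber_eq_of_mem_range A (hA u) (hA 0)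
  have h2 : (Finset.univ : Finset (Fin s → Bool)).card =
      ∑ u : Fin N → Bool, (Finset.univ.filter (fun τ => A τ = u)).card :=
    Finset.card_eq_sum_card_fiberwise (fun _ _ => Finset.mem_coe.2 (Finset.mem_univ _))
  have h3 : (Finset.univ.filter (fun τ => A τ = 0)).card = 2 ^ (s - N) := by
    rw [Finset.sum_congr rfl (fun u _ => h1 u)] at h2
    simp only [Finset.card_univ, Fintype.card_pi, Fintype.card_bool, Finset.prod_const,
      Fintype.card_fin, Finset.sum_const, smul_eq_mul] at h2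
    have h4 : 2 ^ s = 2 ^ N * 2 ^ (s - N) := by rw [← pow_add]; congr 1; omega
    rw [h4] at h2
    exact (Nat.eq_of_mul_eq_mul_left (by positivity) h2).symm
  rw [← Finset.sum_fiberwise Finset.univ A, Finset.mul_sum]
  refine Finset.sum_congr rfl fun u _ => ?_
  rw [Finset.sum_congr rfl (g := fun _ => F u)]
  · rw [Finset.sum_const, h1 u, h3, nsmul_eq_mul]; norm_num
  · intro τ hτ
    rw [(Finset.mem_filter.1 hτ).2]

theorem equi_piece {k : ℕ → ℕ} {n : ℕ → ℕ → ℕ} (S : Sys k n) (j t1 t2 y : ℕ) (h1 : t1 < S.T j)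
    (h2 : t2 < S.T j) (a1 : S.c j t1 ≤ y) (b1 : y < S.c j t1 + n j (S.z j t1))
    (a2 : S.c j t2 ≤ y) (b2 : y < S.c j t2 + n j (S.z j t2)) : t1 = t2 := by
  rcases lt_trichotomy t1 t2 with h | h | h
  · have := S.piece_disj j t1 t2 h h2; omega
  · exact h
  · have := S.piece_disj j t2 t1 h h1; omega

theorem equi_ext_add {N : ℕ} (a b : Fin N → Bool) (y : ℤ) : ext (a + b) y = ext a y + ext b y := by
  unfold ext
  split_ifs
  · rfl
  · rfl

theorem equi_ext {N : ℕ} (a : Fin N → Bool) (y : ℕ) (hy : y < N) : ext a (y : ℤ) = a ⟨y, hy⟩ := by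
  unfold ext
  rw [dif_pos ⟨by positivity, by exact_mod_cast hy⟩]
  congr

/-- the additive map -/
noncomputable def equiMap {k : ℕ → ℕ} {n : ℕ → ℕ → ℕ} (S : Sys k n) (j t' : ℕ) :
    (Fin (S.s j) → Bool) →+ (Fin (n j (S.z j t')) → Bool) where
  toFun τ := fun v => S.lvl j (ext τ) ((S.c j t' : ℤ) + (v : ℕ))
  map_zero' := by
    funext v
    simp only [Sys.lvl]
    have h0 : ∀ y, ext (0 : Fin (S.s j) → Bool) y = 0 := by
      intro y; unfold ext; split_ifs <;> rfl
    split_ifs
    · exact Finset.sum_eq_zero fun m _ => h0 _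
    · exact h0 _
  map_add' a b := by
    funext v
    simp only [Sys.lvl, Pi.add_apply]
    split_ifs
    · rw [← Finset.sum_add_distrib]
      exact Finset.sum_congr rfl fun m _ => equi_ext_add _ _ _
    · exact equi_ext_add _ _ _

theorem equi_surj {k : ℕ → ℕ} {n : ℕ → ℕ → ℕ} (S : Sys k n) (j t' : ℕ) (ht : t' < S.T j) :
    Function.Surjective (equiMap S j t') := by
  classical
  intro u
  set c := S.c j t' with hc
  set U : ℕ → Bool := fun i => if h : i < n j (S.z j t') then u ⟨i, h⟩ else false with hU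
  set T0 : ℕ → Bool := fun y => if c ≤ y ∧ y < c + n j (S.z j t') ∧ ¬ ∃ x, x < 2 * S.e j ∧ y = S.q j 0 x then
    U (y - c) else if h : ∃ x, x < 2 * S.e j ∧ y = S.q j 1 x ∧ c ≤ S.q j 0 x ∧ S.q j 0 x < c + n j (S.z j t') then
      U (S.q j 0 h.choose - c) else false with hT0
  have hk := S.k_ge j
  have hpr := S.piece_right j t' ht
  refine ⟨fun y => T0 y, ?_⟩
  funext v
  have hv := v.2
  change S.lvl j (ext fun y : Fin (S.s j) => T0 y) ((c : ℤ) + (v : ℕ)) = u v
  have hUv : U (c + v - c) = u v := by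
    simp only [hU, Nat.add_sub_cancel_left, hv, dif_pos]
  by_cases hp : ∃ x, x < 2 * S.e j ∧ ((c : ℤ) + (v : ℕ)) = S.q j 0 x
  · rw [Sys.lvl, dif_pos hp]
    obtain ⟨hx1, hx2⟩ := hp.choose_spec
    set x := hp.choose with hx
    have hx3 : c + v = S.q j 0 x := by exact_mod_cast hx2
    -- the piece is in zone 0
    have hz0 : S.z j t' = 0 := by
      obtain ⟨t, htT, htz, h1, h2⟩ := S.q_piece j 0 x (by omega) hx1
      have : t = t' := equi_piece S j t t' (S.q j 0 x) htT ht h1 (by rw [htz]; exact h2)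
        (by omega) (by omega)
      rw [← this]; exact htz
    -- special positions of other zones are outside the piece
    have hout : ∀ m, m < k j → m ≠ 0 → ¬ (c ≤ S.q j m x ∧ S.q j m x < c + n j (S.z j t')) := by
      rintro m hm hm0 ⟨h3, h4⟩
      obtain ⟨t, htT, htz, h1, h2⟩ := S.q_piece j m x hm hx1
      have : t = t' := equi_piece S j t t' (S.q j m x) htT ht h1 (by rw [htz]; exact h2) h3 h4
      rw [this, hz0] at htz
      exact hm0 htz.symm
    have hqs : ∀ m, m < k j → S.q j m x < S.s j := by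
      intro m hm
      obtain ⟨t, htT, htz, h1, h2⟩ := S.q_piece j m x hm hx1
      have := S.piece_right j t htT
      rw [htz] at this; omega
    rw [Finset.sum_eq_single_of_mem 1 (Finset.mem_erase.2 ⟨one_ne_zero, Finset.mem_range.2 (by omega)⟩)]
    · rw [equi_ext _ _ (hqs 1 (by omega))]
      have h1 : ¬ (c ≤ S.q j 1 x ∧ S.q j 1 x < c + n j (S.z j t') ∧
          ¬ ∃ x', x' < 2 * S.e j ∧ S.q j 1 x = S.q j 0 x') := fun h =>
        hout 1 (by omega) one_ne_zero ⟨h.1, h.2.1⟩
      have h2 : ∃ x', x' < 2 * S.e j ∧ S.q j 1 x = S.q j 1 x' ∧ c ≤ S.q j 0 x' ∧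
          S.q j 0 x' < c + n j (S.z j t') := ⟨x, hx1, rfl, by omega, by omega⟩
      have h3 : h2.choose = x :=
        (S.q_inj j 1 x h2.choose (by omega) hx1 h2.choose_spec.1 h2.choose_spec.2.1).symm
      change T0 (S.q j 1 x) = u v
      simp only [hT0]
      rw [if_neg h1, dif_pos h2, h3, ← hx3, hUv]
    · intro m hm hm1
      obtain ⟨hm0, hmk⟩ := Finset.mem_erase.1 hm
      have hmk := Finset.mem_range.1 hmk
      rw [equi_ext _ _ (hqs m hmk)]
      have h1 : ¬ (c ≤ S.q j m x ∧ S.q j m x < c + n j (S.z j t') ∧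
          ¬ ∃ x', x' < 2 * S.e j ∧ S.q j m x = S.q j 0 x') := fun h =>
        hout m hmk hm0 ⟨h.1, h.2.1⟩
      have h2 : ¬ ∃ x', x' < 2 * S.e j ∧ S.q j m x = S.q j 1 x' ∧ c ≤ S.q j 0 x' ∧
          S.q j 0 x' < c + n j (S.z j t') := by
        rintro ⟨x', hx'1, hx'2, -, -⟩
        obtain ⟨t, htT, htz, h1, h2⟩ := S.q_piece j m x hmk hx1
        obtain ⟨t2, htT2, htz2, h12, h22⟩ := S.q_piece j 1 x' (by omega) hx'1
        have : t = t2 := equi_piece S j t t2 (S.q j m x) htT htT2 h1 (by rw [htz]; exact h2)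
          (by rw [hx'2]; exact h12) (by rw [hx'2, htz2]; exact h22)
        rw [← this, htz] at htz2
        exact hm1 htz2
      change T0 (S.q j m x) = 0
      simp only [hT0]
      rw [if_neg h1, dif_neg h2]
      rfl
  · rw [Sys.lvl, dif_neg hp]
    have h0 : ((c : ℤ) + (v : ℕ)) = ((c + v : ℕ) : ℤ) := by push_cast; rfl
    rw [h0, equi_ext _ _ (by omega)]
    change T0 (c + v) = u v
    simp only [hT0]
    rw [if_pos, hUv]
    refine ⟨by omega, by omega, ?_⟩
    rintro ⟨x, hx1, hx2⟩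
    exact hp ⟨x, hx1, by exact_mod_cast hx2⟩

/-- see the docstring of `S_equi` for the proof -/
theorem pf_equi  : S_equi := by
  intro k n S j t' ht F
  have h := equi_sum (equiMap S j t') (equi_surj S j t' ht)
    (by have := S.piece_right j t' ht; omega) F
  exact h

end Pool.Agent.Lib.MP_8d5788_an
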