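import Pool.Agent.Lib.MP_8d5788_an.Stmts

set_option autoImplicit false
open MeasureTheory

namespace Pool.Agent.Lib.MP_8d5788_an

theorem good_ms (v : ℤ) : MeasurableSet {g : ℤ → Bool | g v = false} :=
  (measurable_pi_apply (X := fun _ : ℤ => Bool) v) (measurableSet_singleton false)

theorem good_ms1 (y : ℤ) : MeasurableSet {g : ℤ → Bool | ∃ v < y, g v = false} := by
  have e : {g : ℤ → Bool | ∃ v < y, g v = false} =
      ⋃ v : ℤ, ⋃ _ : v < y, {g : ℤ → Bool | g v = false} := by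
    ext g
    simp
  rw [e]
  exact MeasurableSet.iUnion fun v => MeasurableSet.iUnion fun _ => good_ms v

theorem good_ms2 (y : ℤ) (w : ℕ) : MeasurableSet {g : ℤ → Bool | NoRun g y w} := by
  have e : {g : ℤ → Bool | NoRun g y w} =
      ⋂ v : ℤ, ⋂ _ : y < v, ⋂ _ : v ≤ y + 2 ^ w * (4 * w + 1), ⋃ u : ℕ, ⋃ _ : u < 4 * w,
        {g : ℤ → Bool | g (v + u) = false} := by
    ext g
    simp [NoRun]
  rw [e]
  exact MeasurableSet.iInter fun v => MeasurableSet.iInter fun _ => MeasurableSet.iInter fun _ =>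
    MeasurableSet.iUnion fun u => MeasurableSet.iUnion fun _ => good_ms _

theorem good_meas : MeasurableSet Good := by
  have e : Good = (⋂ y : ℤ, {g : ℤ → Bool | ∃ v < y, g v = false}) ∩
      ⋂ y : ℤ, ⋂ w₀ : ℕ, ⋃ w : ℕ, ⋃ _ : w ≥ w₀, {g : ℤ → Bool | NoRun g y w} := by
    ext g
    simp [Good]
  rw [e]
  exact (MeasurableSet.iInter fun y => good_ms1 y).inter
    (MeasurableSet.iInter fun y => MeasurableSet.iInter fun w₀ => MeasurableSet.iUnion fun w =>
      MeasurableSet.iUnion fun _ => good_ms2 y w)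

theorem good_norun_sh (g : ℤ → Bool) (y : ℤ) (w : ℕ) : NoRun (sh g) y w ↔ NoRun g (y + 1) w := by
  constructor
  · intro h v hv1 hv2
    obtain ⟨u, hu, hg⟩ := h (v - 1) (by omega) (by linarith)
    refine ⟨u, hu, ?_⟩
    have e : v + (u : ℤ) = v - 1 + u + 1 := by ring
    rw [e]
    exact hg
  · intro h v hv1 hv2
    obtain ⟨u, hu, hg⟩ := h (v + 1) (by omega) (by linarith)
    refine ⟨u, hu, ?_⟩
    have e : v + (u : ℤ) + 1 = v + 1 + u := by ring
    show g (v + (u : ℤ) + 1) = false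
    rw [e]
    exact hg

theorem good_sh (g : ℤ → Bool) : g ∈ Good ↔ sh g ∈ Good := by
  constructor
  · rintro ⟨h1, h2⟩
    refine ⟨?_, ?_⟩
    · intro y
      obtain ⟨v, hv, hg⟩ := h1 (y + 1)
      refine ⟨v - 1, by omega, ?_⟩
      show g (v - 1 + 1) = false
      rw [sub_add_cancel]
      exact hg
    · intro y w₀
      obtain ⟨w, hw, hn⟩ := h2 (y + 1) w₀
      exact ⟨w, hw, (good_norun_sh g y w).mpr hn⟩
  · rintro ⟨h1, h2⟩
    refine ⟨?_, ?_⟩
    · intro y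
      obtain ⟨v, hv, hg⟩ := h1 (y - 1)
      exact ⟨v + 1, by omega, hg⟩
    · intro y w₀
      obtain ⟨w, hw, hn⟩ := h2 (y - 1) w₀
      refine ⟨w, hw, ?_⟩
      have := (good_norun_sh g (y - 1) w).mp hn
      rwa [sub_add_cancel] at this

theorem good_run (h1 : S_lamcyl) (v : ℤ) (m : ℕ) :
    lam {g : ℤ → Bool | ∀ u : ℕ, u < m → g (v + u) = true} ≤ (2⁻¹ : ENNReal) ^ m := by
  have h := h1 (Finset.Ico v (v + m)) (fun _ => true)
  have hc : (Finset.Ico v (v + m)).card = m := by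
    rw [Int.card_Ico]; omega
  rw [hc] at h
  rw [← h]
  apply measure_mono
  intro g hg z hz
  rw [Finset.mem_Ico] at hz
  have := hg (z - v).toNat (by omega)
  have e : v + ((z - v).toNat : ℤ) = z := by omega
  rwa [e] at this

theorem good_lim : Filter.Tendsto (fun w : ℕ => (2 : ENNReal) * (2⁻¹ : ENNReal) ^ w) Filter.atTop
    (nhds 0) := by
  have h := ENNReal.tendsto_pow_atTop_nhds_zero_of_lt_one (r := (2⁻¹ : ENNReal))
    (by rw [ENNReal.inv_lt_one]; exact ENNReal.one_lt_two)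
  have h2 := ENNReal.Tendsto.const_mul (a := 2) h (Or.inr (by norm_num))
  rwa [mul_zero] at h2

theorem good_null1 (h1 : S_lamcyl) (y : ℤ) :
    lam {g : ℤ → Bool | ¬ ∃ v < y, g v = false} = 0 := by
  have h : ∀ N : ℕ, lam {g : ℤ → Bool | ¬ ∃ v < y, g v = false} ≤
      (2 : ENNReal) * (2⁻¹ : ENNReal) ^ N := by
    intro N
    calc lam {g : ℤ → Bool | ¬ ∃ v < y, g v = false}
        ≤ lam {g : ℤ → Bool | ∀ u : ℕ, u < N → g (y - N + u) = true} := by
          apply measure_mono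
          intro g hg u hu
          have := fun h => hg ⟨y - N + u, by omega, h⟩
          simpa using this
      _ ≤ (2⁻¹ : ENNReal) ^ N := good_run h1 _ _
      _ ≤ (2 : ENNReal) * (2⁻¹ : ENNReal) ^ N := by
          calc (2⁻¹ : ENNReal) ^ N = 1 * (2⁻¹ : ENNReal) ^ N := (one_mul _).symm
            _ ≤ _ := mul_le_mul_left ENNReal.one_lt_two.le _
  exact le_antisymm (ge_of_tendsto good_lim (Filter.Eventually.of_forall h)) zero_le

theorem good_nat (w : ℕ) : 4 * w + 1 ≤ 2 ^ (2 * w + 1) := by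
  induction w with
  | zero => norm_num
  | succ w ih =>
    have e : 2 ^ (2 * (w + 1) + 1) = 4 * 2 ^ (2 * w + 1) := by
      rw [show 2 * (w + 1) + 1 = (2 * w + 1) + 2 by ring, pow_add]; ring
    rw [e]
    omega

theorem good_null2 (h1 : S_lamcyl) (y : ℤ) (w : ℕ) :
    lam {g : ℤ → Bool | ¬ NoRun g y w} ≤ (2 : ENNReal) * (2⁻¹ : ENNReal) ^ w := by
  have hsub : {g : ℤ → Bool | ¬ NoRun g y w} ⊆
      ⋃ v ∈ Finset.Ioc y (y + 2 ^ w * (4 * w + 1)),
        {g : ℤ → Bool | ∀ u : ℕ, u < 4 * w → g (v + u) = true} := by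
    intro g hg
    simp only [Set.mem_ofPred_eq, NoRun] at hg
    push Not at hg
    obtain ⟨v, hv1, hv2, hv3⟩ := hg
    simp only [Set.mem_iUnion, Finset.mem_Ioc]
    refine ⟨v, ⟨hv1, hv2⟩, ?_⟩
    intro u hu
    have := hv3 u hu
    simpa using this
  have hcard : (Finset.Ioc y (y + 2 ^ w * (4 * w + 1))).card = 2 ^ w * (4 * w + 1) := by
    rw [Int.card_Ioc]
    have : y + 2 ^ w * (4 * (w : ℤ) + 1) - y = ((2 ^ w * (4 * w + 1) : ℕ) : ℤ) := by
      push_cast; ring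
    rw [this, Int.toNat_natCast]
  calc lam {g : ℤ → Bool | ¬ NoRun g y w}
      ≤ lam (⋃ v ∈ Finset.Ioc y (y + 2 ^ w * (4 * w + 1)),
        {g : ℤ → Bool | ∀ u : ℕ, u < 4 * w → g (v + u) = true}) := measure_mono hsub
    _ ≤ ∑ v ∈ Finset.Ioc y (y + 2 ^ w * (4 * w + 1)),
        lam {g : ℤ → Bool | ∀ u : ℕ, u < 4 * w → g (v + u) = true} :=
        measure_biUnion_finset_le _ _
    _ ≤ ∑ v ∈ Finset.Ioc y (y + 2 ^ w * (4 * w + 1)), (2⁻¹ : ENNReal) ^ (4 * w) :=
        Finset.sum_le_sum fun v _ => good_run h1 v _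
    _ = ((2 ^ w * (4 * w + 1) : ℕ) : ENNReal) * (2⁻¹ : ENNReal) ^ (4 * w) := by
        rw [Finset.sum_const, hcard, nsmul_eq_mul]
    _ ≤ ((2 ^ (3 * w) * 2 : ℕ) : ENNReal) * (2⁻¹ : ENNReal) ^ (4 * w) := by
        apply mul_le_mul_left
        have h2 : 2 ^ w * (4 * w + 1) ≤ 2 ^ (3 * w) * 2 := by
          calc 2 ^ w * (4 * w + 1) ≤ 2 ^ w * 2 ^ (2 * w + 1) :=
                Nat.mul_le_mul_left _ (good_nat w)
            _ = 2 ^ (3 * w) * 2 := by
                rw [← pow_add, ← pow_succ]; congr 1; ring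
        exact_mod_cast h2
    _ = (2 : ENNReal) * (2⁻¹ : ENNReal) ^ w := by
        have e1 : (2⁻¹ : ENNReal) ^ (4 * w) = (2⁻¹ : ENNReal) ^ (3 * w) * (2⁻¹ : ENNReal) ^ w := by
          rw [← pow_add]; congr 1; ring
        have e2 : (2 : ENNReal) ^ (3 * w) * (2⁻¹ : ENNReal) ^ (3 * w) = 1 := by
          rw [← mul_pow, ENNReal.mul_inv_cancel (by norm_num) (by norm_num), one_pow]
        push_cast
        rw [e1]
        calc (2 : ENNReal) ^ (3 * w) * 2 * ((2⁻¹ : ENNReal) ^ (3 * w) * (2⁻¹ : ENNReal) ^ w)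
            = ((2 : ENNReal) ^ (3 * w) * (2⁻¹ : ENNReal) ^ (3 * w)) *
              (2 * (2⁻¹ : ENNReal) ^ w) := by ring
          _ = _ := by rw [e2, one_mul]

/-- see the docstring of `S_good` for the proof -/
theorem pf_good (h1 : S_lamcyl) (h2 : S_lamsh) : S_good := by
  refine ⟨good_meas, ?_, good_sh⟩
  have hae : ∀ᵐ g ∂lam, g ∈ Good := by
    have ha : ∀ᵐ g ∂lam, ∀ y : ℤ, ∃ v < y, g v = false := by
      rw [ae_all_iff]
      intro y
      exact good_null1 h1 y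
    have hb : ∀ᵐ g ∂lam, ∀ (y : ℤ) (w₀ : ℕ), ∃ w ≥ w₀, NoRun g y w := by
      rw [ae_all_iff]
      intro y
      rw [ae_all_iff]
      intro w₀
      have h : ∀ w ≥ w₀, lam {g : ℤ → Bool | ¬ ∃ w ≥ w₀, NoRun g y w} ≤
          (2 : ENNReal) * (2⁻¹ : ENNReal) ^ w := by
        intro w hw
        refine (measure_mono ?_).trans (good_null2 h1 y w)
        intro g hg hn
        exact hg ⟨w, hw, hn⟩
      have h0 : lam {g : ℤ → Bool | ¬ ∃ w ≥ w₀, NoRun g y w} = 0 :=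
        le_antisymm (ge_of_tendsto good_lim (Filter.eventually_atTop.mpr ⟨w₀, h⟩)) zero_le
      exact h0
    filter_upwards [ha, hb] with g h3 h4
    exact ⟨h3, h4⟩
  exact hae

end Pool.Agent.Lib.MP_8d5788_an
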