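import Pool.Agent.Lib.MP_8d5788_an.Stmts

set_option autoImplicit false
open MeasureTheory

namespace Pool.Agent.Lib.MP_8d5788_an

theorem Haar_coin (b : Bool) : coin {b} = (2⁻¹ : ENNReal) := by
  unfold coin
  rw [PMF.toMeasure_apply_singleton _ _ (measurableSet_singleton b), PMF.uniformOfFintype_apply]
  simp

theorem Haar_coin_add (b : Bool) : Measure.map (fun x => b + x) coin = coin := by
  rw [Measure.ext_iff_singleton]
  intro c
  rw [Measure.map_apply (measurable_of_countable _) (measurableSet_singleton c), Haar_coin]
  have : (fun x => b + x) ⁻¹' {c} = {-b + c} := by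
    ext x
    simp only [Set.mem_preimage, Set.mem_singleton_iff]
    constructor
    · rintro rfl; rw [neg_add_cancel_left]
    · rintro rfl; rw [add_neg_cancel_left]
  rw [this, Haar_coin]

theorem Haar_lam_add (a : ℤ → Bool) : Measure.map (fun x => a + x) lam = lam := by
  have h := Measure.infinitePi_map_pi (fun _ : ℤ => coin) (Y := fun _ => Bool)
    (f := fun i x => a i + x) (fun i => measurable_of_countable _)
  simp only [Haar_coin_add] at h
  exact h

theorem Haar_isHaar (μ : Measure (ℤ → Bool)) [IsProbabilityMeasure μ]
    (h : ∀ a, Measure.map (fun x => a + x) μ = μ) : μ.IsAddHaarMeasure := by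
  have h1 : μ.IsAddLeftInvariant := ⟨h⟩
  have h2 : μ.IsOpenPosMeasure :=
    isOpenPosMeasure_of_addLeftInvariant_of_compact Set.univ isCompact_univ (by simp)
  exact {}

/-- see the docstring of `S_haar` for the proof -/
theorem pf_haar  : S_haar := by
  intro R hR hs
  have hRm : Measurable R := hR.measurable
  have hp : IsProbabilityMeasure (Measure.map R lam) := Measure.isProbabilityMeasure_map hRm.aemeasurable
  have h1 : lam.IsAddHaarMeasure := Haar_isHaar lam Haar_lam_add
  have h2 : (Measure.map R lam).IsAddHaarMeasure := by
    apply Haar_isHaar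
    intro a
    obtain ⟨b, rfl⟩ := hs a
    have hma : Measurable (fun x : ℤ → Bool => R b + x) := (continuous_const.add continuous_id).measurable
    have hmb : Measurable (fun x : ℤ → Bool => b + x) := (continuous_const.add continuous_id).measurable
    rw [Measure.map_map hma hRm]
    have h3 : (fun x => R b + x) ∘ R = R ∘ (fun x => b + x) := by
      funext x
      simp [map_add]
    rw [h3, ← Measure.map_map hRm hmb, Haar_lam_add]
  exact Measure.isAddHaarMeasure_eq_of_isProbabilityMeasure _ _

end Pool.Agent.Lib.MP_8d5788_an
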