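import Pool.Agent.Lib.MP_8d5788_an.Stmts

set_option autoImplicit false
open MeasureTheory

namespace Pool.Agent.Lib.MP_8d5788_an

/-- see the docstring of `S_inv` for the proof -/
theorem pf_inv (h1 : S_ep) : S_inv := by
  intro k n S J M hM g t
  funext y
  by_cases hp : ∃ p, S.Tgt M (S.occs J g) y p
  · have hspec := hp.choose_spec
    have hval : S.tinv J M (S.Phi J M g t) y =
        if hp.choose.2.2 % 2 = 0 then
          (S.ep M (S.occs J g) t (hp.choose.2.1 + S.s hp.choose.1 + (hp.choose.2.2 / 2 : ℕ))).2.1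
        else
          (S.ep M (S.occs J g) t (hp.choose.2.1 + S.s hp.choose.1 + (hp.choose.2.2 / 2 : ℕ))).2.2 := by
      unfold Sys.tinv
      exact dif_pos hp
    rw [hval]
    set p := hp.choose with hpdef
    obtain ⟨hmem, hlt, hy⟩ := hspec
    have hslt : S.Slt (S.occs J g) (p.2.1 + S.s p.1 + (p.2.2 / 2 : ℕ)) (p.1, p.2.1, p.2.2 / 2) :=
      ⟨hmem, by show p.2.2 / 2 < S.e p.1; omega, rfl⟩
    have hep := h1 k n S g M (S.occs J g) t _ _ (fun o ho => ho.2) hslt
    rw [hep]
    dsimp only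
    split_ifs with hpar
    · have h2 : 2 * (p.2.2 / 2) = p.2.2 := by omega
      rw [h2, ← hy]
    · have h2 : 2 * (p.2.2 / 2) + 1 = p.2.2 := by omega
      rw [h2, ← hy]
  · have hval : S.tinv J M (S.Phi J M g t) y = S.tp M (S.occs J g) t y := by
      unfold Sys.tinv
      exact dif_neg hp
    rw [hval]
    unfold Sys.tp
    exact dif_neg hp

end Pool.Agent.Lib.MP_8d5788_an
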