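import Pool.Agent.Lib.MP_8d5788_an.Stmts

set_option autoImplicit false
open MeasureTheory

namespace Pool.Agent.Lib.MP_8d5788_an

/-- see the docstring of `S_konig` for the proof -/
theorem pf_konig  : S_konig := by
  intro T σ hT h
  have hK : IsCompact (Set.univ.pi (fun i : ℕ => Set.Iic (σ i))) :=
    isCompact_univ_pi (fun i => (Set.finite_Iic _).isCompact)
  have hcl : ∀ N : ℕ, IsClosed {z : ℕ → ℕ | List.ofFn (fun i : Fin N => z i) ∈ T} := by
    intro N
    have h1 : {z : ℕ → ℕ | List.ofFn (fun i : Fin N => z i) ∈ T} =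
        (fun z : ℕ → ℕ => (fun i : Fin N => z i)) ⁻¹' {y : Fin N → ℕ | List.ofFn y ∈ T} := rfl
    rw [h1]
    exact (isClosed_discrete _).preimage (by fun_prop)
  have hpre : ∀ (z : ℕ → ℕ) (N : ℕ), List.ofFn (fun i : Fin N => z i) <+:
      List.ofFn (fun i : Fin (N + 1) => z i) := by
    intro z N
    rw [List.ofFn_succ']
    simp only [List.concat_eq_append, Fin.val_castSucc]
    exact List.prefix_append _ _
  let C : ℕ → Set (ℕ → ℕ) := fun N =>
    Set.univ.pi (fun i : ℕ => Set.Iic (σ i)) ∩ {z : ℕ → ℕ | List.ofFn (fun i : Fin N => z i) ∈ T}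
  have hne : (⋂ N, C N).Nonempty := by
    refine IsCompact.nonempty_iInter_of_sequence_nonempty_isCompact_isClosed C ?_ ?_ ?_ ?_
    · intro N z hz
      exact ⟨hz.1, hT _ _ (hpre z N) hz.2⟩
    · intro N
      obtain ⟨M, hM, τ, hτ, hlen, hb⟩ := h N
      refine ⟨fun i => τ.getD i 0, ?_, ?_⟩
      · intro i _
        by_cases hi : i < M
        · exact hb i hi
        · have h2 : τ.getD i 0 = 0 := List.getD_eq_default _ _ (by omega)
          show τ.getD i 0 ≤ σ i
          rw [h2]
          exact Nat.zero_le _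
      · show List.ofFn (fun i : Fin N => τ.getD i 0) ∈ T
        have h3 : List.ofFn (fun i : Fin N => τ.getD i 0) = τ.take N := by
          apply List.ext_getElem
          · rw [List.length_ofFn, List.length_take]
            omega
          · intro i h4 h5
            rw [List.getElem_ofFn, List.getElem_take]
            exact List.getD_eq_getElem _ _ _
        rw [h3]
        exact hT _ _ (List.take_prefix _ _) hτ
    · exact hK.inter_right (hcl 0)
    · intro N
      exact hK.isClosed.inter (hcl N)
  obtain ⟨z, hz⟩ := hne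
  exact ⟨z, fun N => (Set.mem_iInter.1 hz N).2⟩

end Pool.Agent.Lib.MP_8d5788_an
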