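import Pool.Agent.Lib.MP_8d5788_an.Stmts

set_option autoImplicit false
open MeasureTheory

namespace Pool.Agent.Lib.MP_8d5788_an

theorem LDinj_ext {N : ℕ} (u : Fin N → Bool) (y : Fin N) : ext u ((y : ℕ) : ℤ) = u y := by
  have hy : (0 : ℤ) ≤ ((y : ℕ) : ℤ) ∧ ((y : ℕ) : ℤ) < N := ⟨by positivity, by exact_mod_cast y.2⟩
  rw [ext, dif_pos hy]
  congr 1

/-- see the docstring of `S_LDinj` for the proof -/
theorem pf_LDinj (h1 : S_tp) (h2 : S_ep) : S_LDinj := by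
  intro k n S J j N γ γ' u u' h
  have hγ : γ = γ' := by
    funext y
    exact congrArg Prod.fst (congrFun h y)
  subst hγ
  refine ⟨rfl, ?_⟩
  have hO : ∀ o ∈ S.inocc J j γ, S.Occ (ext γ) o.1 o.2 := fun o ho => ho.2.2.2.2
  have htp : ∀ y : Fin N, S.tp (fun _ => 0) (S.inocc J j γ) (ext u) ((y : ℕ) : ℤ) =
      S.tp (fun _ => 0) (S.inocc J j γ) (ext u') ((y : ℕ) : ℤ) := fun y =>
    congrArg (fun s : Sym => s.2.1) (congrFun h y)
  have hep : ∀ y : Fin N, S.ep (fun _ => 0) (S.inocc J j γ) (ext u) ((y : ℕ) : ℤ) =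
      S.ep (fun _ => 0) (S.inocc J j γ) (ext u') ((y : ℕ) : ℤ) := fun y =>
    congrArg (fun s : Sym => s.2.2) (congrFun h y)
  funext y
  by_cases hp : ∃ p, S.Tgt (fun _ => 0) (S.inocc J j γ) ((y : ℕ) : ℤ) p
  · obtain ⟨⟨i, a, x⟩, ho, hx, hy⟩ := hp
    simp only at ho hx hy
    obtain ⟨hij, hiJ, ha0, haN, hocc⟩ := id ho
    simp only at hij hiJ ha0 haN hocc
    have hx2 : x / 2 < S.e i := by omega
    have hlen := S.len_eq i
    have hz0 : 0 ≤ a + S.s i + ((x / 2 : ℕ) : ℤ) := by positivity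
    have hzN : a + S.s i + ((x / 2 : ℕ) : ℤ) < N := by
      have : ((x / 2 : ℕ) : ℤ) < S.e i := by exact_mod_cast hx2
      have h3 : (S.len i : ℤ) = S.s i + S.e i := by exact_mod_cast hlen
      omega
    have hzn : (a + S.s i + ((x / 2 : ℕ) : ℤ)).toNat < N := by omega
    have hz := hep ⟨(a + S.s i + ((x / 2 : ℕ) : ℤ)).toNat, hzn⟩
    simp only [Int.toNat_of_nonneg hz0] at hz
    have hs : S.Slt (S.inocc J j γ) (a + S.s i + ((x / 2 : ℕ) : ℤ)) (i, a, x / 2) :=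
      ⟨ho, hx2, rfl⟩
    rw [h2 k n S (ext γ) (fun _ => 0) (S.inocc J j γ) (ext u) _ _ hO hs,
      h2 k n S (ext γ) (fun _ => 0) (S.inocc J j γ) (ext u') _ _ hO hs] at hz
    simp only [Prod.mk.injEq, true_and] at hz
    rw [← LDinj_ext u y, ← LDinj_ext u' y, hy]
    rcases Nat.even_or_odd' x with ⟨w, hw | hw⟩
    · have e1 : 2 * (x / 2) = x := by omega
      rw [e1] at hz
      exact hz.1
    · have e1 : 2 * (x / 2) + 1 = x := by omega
      rw [e1] at hz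
      exact hz.2
  · have := htp y
    rw [Sys.tp, Sys.tp, dif_neg hp, dif_neg hp] at this
    rw [← LDinj_ext u y, ← LDinj_ext u' y]
    exact this

end Pool.Agent.Lib.MP_8d5788_an
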