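import Pool.Agent.Lib.MP_8d5788_an.Stmts

set_option autoImplicit false
open MeasureTheory

namespace Pool.Agent.Lib.MP_8d5788_an

section LDpieceAux

variable {k : ℕ → ℕ} {n : ℕ → ℕ → ℕ} (S : Sys k n)

theorem LDpiece_len_pos (i : ℕ) : 0 < S.len i := by
  have := S.len_eq i
  have := S.e_ge i
  omega

theorem LDpiece_q_lt {i m x : ℕ} (hm : m < k i) (hx : x < 2 * S.e i) : S.q i m x < S.s i := by
  obtain ⟨t, ht, hz, h1, h2⟩ := S.q_piece i m x hm hx
  have := S.piece_right i t ht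
  rw [hz] at this
  omega

theorem LDpiece_q_lt_len {i m x : ℕ} (hm : m < k i) (hx : x < 2 * S.e i) :
    S.q i m x < S.len i := by
  have := LDpiece_q_lt S hm hx
  have := S.len_eq i
  omega

theorem LDpiece_ext_nonneg {N : ℕ} (γ : Fin N → Bool) (b : ℤ) (h0 : 0 ≤ b) (h1 : b < N) :
    ext γ b = γ ⟨b.toNat, by omega⟩ := by
  unfold ext
  rw [dif_pos ⟨h0, h1⟩]

theorem LDpiece_ext_neg {N : ℕ} (γ : Fin N → Bool) (b : ℤ) (h0 : b < 0) :
    ext γ b = false := by
  unfold ext
  rw [dif_neg (by omega)]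

/-- the piece word in terms of `g` -/
theorem LDpiece_ext_eq {j t' : ℕ} {g : ℤ → Bool} (hocc : S.Occ g j 0) (ht' : t' < S.T j) (b : ℤ)
    (h0 : 0 ≤ b) (h1 : b < (n j (S.z j t') : ℕ)) :
    ext (fun v : Fin (n j (S.z j t')) => S.V j (S.c j t' + v)) b = g (b + S.c j t') := by
  rw [LDpiece_ext_nonneg _ b h0 h1]
  have hr := S.piece_right j t' ht'
  have hl := S.len_eq j
  have h2 := hocc.2 (S.c j t' + b.toNat) (by omega)
  show S.V j (S.c j t' + b.toNat) = _
  rw [← h2]
  congr 1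
  push_cast
  rw [Int.toNat_of_nonneg h0]
  ring

theorem LDpiece_prev {j t' : ℕ} {g : ℤ → Bool} (hocc : S.Occ g j 0) (ht' : t' < S.T j) :
    g ((S.c j t' : ℤ) - 1) = false := by
  have hl := S.piece_left j t' ht'
  have hr := S.piece_right j t' ht'
  have hle := S.len_eq j
  have h2 := hocc.2 (S.c j t' - 1) (by have := S.e_ge j; omega)
  rw [S.piece_prev j t' ht'] at h2
  rw [← h2]
  congr 1
  have : 1 ≤ S.c j t' := by omega
  push_cast [this]
  ring

theorem LDpiece_occ_fwd {j t' i : ℕ} {g : ℤ → Bool} (hocc : S.Occ g j 0) (ht' : t' < S.T j)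
    {a : ℤ} (ho : S.Occ g i a) (ha : (S.c j t' : ℤ) ≤ a)
    (hb : a + S.len i ≤ (S.c j t' : ℤ) + (n j (S.z j t') : ℕ)) :
    S.Occ (ext (fun v : Fin (n j (S.z j t')) => S.V j (S.c j t' + v))) i (a - S.c j t') := by
  refine ⟨?_, ?_⟩
  · by_cases h : (S.c j t' : ℤ) = a
    · rw [LDpiece_ext_neg _ _ (by omega)]
    · have hp := LDpiece_len_pos S i
      rw [LDpiece_ext_eq S hocc ht' _ (by omega) (by omega)]
      have := ho.1
      rw [← this]
      congr 1
      ring
  · intro u hu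
    rw [LDpiece_ext_eq S hocc ht' _ (by omega) (by omega)]
    have := ho.2 u hu
    rw [← this]
    congr 1
    ring

theorem LDpiece_occ_bwd {j t' i : ℕ} {g : ℤ → Bool} (hocc : S.Occ g j 0) (ht' : t' < S.T j)
    {a : ℤ} (ho : S.Occ (ext (fun v : Fin (n j (S.z j t')) => S.V j (S.c j t' + v))) i a)
    (ha : 0 ≤ a) (hb : a + S.len i ≤ (n j (S.z j t') : ℕ)) :
    S.Occ g i (a + S.c j t') := by
  have hp := LDpiece_len_pos S i
  refine ⟨?_, ?_⟩
  · by_cases h : a = 0
    · subst h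
      rw [zero_add]
      exact LDpiece_prev S hocc ht'
    · have := ho.1
      rw [LDpiece_ext_eq S hocc ht' _ (by omega) (by omega)] at this
      rw [← this]
      congr 1
      ring
  · intro u hu
    have := ho.2 u hu
    rw [LDpiece_ext_eq S hocc ht' _ (by omega) (by omega)] at this
    rw [← this]
    congr 1
    ring

/-- an occurrence of a lower level that contains a position of the piece is inside the piece -/
theorem LDpiece_inside (h4 : S_nest) {j t' i : ℕ} {g : ℤ → Bool} (hocc : S.Occ g j 0)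
    (ht' : t' < S.T j) (hij : i < j) {a Y : ℤ} (ho : S.Occ g i a) (hY0 : (S.c j t' : ℤ) ≤ Y)
    (hY1 : Y < (S.c j t' : ℤ) + (n j (S.z j t') : ℕ)) (haY : a ≤ Y) (hYa : Y < a + S.len i) :
    (S.c j t' : ℤ) ≤ a ∧ a + S.len i ≤ (S.c j t' : ℤ) + (n j (S.z j t') : ℕ) := by
  have hr := S.piece_right j t' ht'
  have hle := S.len_eq j
  obtain ⟨t'', ht'', hc1, hc2⟩ := h4 k n S g i j 0 a hij ho hocc (by omega) (by omega)
  have : t'' = t' := by
    rcases lt_trichotomy t'' t' with h | h | h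
    · have := S.piece_disj j t'' t' h ht'
      omega
    · exact h
    · have := S.piece_disj j t' t'' h ht''
      omega
  subst this
  omega

theorem LDpiece_lvl_of_not {j : ℕ} {t : ℤ → Bool} {y : ℤ}
    (h : ∀ x, x < 2 * S.e j → y ≠ S.q j 0 x) : S.lvl j t y = t y := by
  unfold Sys.lvl
  rw [dif_neg]
  rintro ⟨x, hx, hy⟩
  exact h x hx hy

theorem LDpiece_lvl_of {j x : ℕ} {t : ℤ → Bool} (hx : x < 2 * S.e j) :
    S.lvl j t (S.q j 0 x : ℕ) = ∑ m ∈ (Finset.range (k j)).erase 0, t (S.q j m x) := by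
  unfold Sys.lvl
  have hp : ∃ x', x' < 2 * S.e j ∧ ((S.q j 0 x : ℕ) : ℤ) = S.q j 0 x' := ⟨x, hx, rfl⟩
  rw [dif_pos hp]
  have hk := S.k_ge j
  have h1 := hp.choose_spec.1
  have h2 := hp.choose_spec.2
  have h3 : x = hp.choose := S.q_inj j 0 x _ (by omega) hx h1 (by exact_mod_cast h2)
  rw [← h3]

end LDpieceAux

/-- see the docstring of `S_LDpiece` for the proof -/
theorem pf_LDpiece (h1 : S_tp) (h2 : S_ep) (h3 : S_same) (h4 : S_nest) (h5 : S_qfree) (h6 : S_sfree) (h7 : S_quniq) : S_LDpiece := by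
  intro k n S J j t' g t hj hocc ht' v
  set γ : Fin (n j (S.z j t')) → Bool := fun v => S.V j (S.c j t' + v) with hγ
  set u : Fin (n j (S.z j t')) → Bool := fun v => S.lvl j t ((S.c j t' : ℤ) + (v : ℕ)) with hu
  set Y : ℤ := (S.c j t' : ℤ) + (v : ℕ) with hY
  have hvlt : (v : ℕ) < n j (S.z j t') := v.2
  have hr := S.piece_right j t' ht'
  have hle := S.len_eq j
  have hk0 : ∀ i, 0 < k i := fun i => by have := S.k_ge i; omega
  -- values of `ext u`
  have hextu : ∀ b : ℤ, 0 ≤ b → b < (n j (S.z j t') : ℕ) →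
      ext u b = S.lvl j t (b + S.c j t') := by
    intro b hb0 hb1
    rw [LDpiece_ext_nonneg _ b hb0 hb1]
    show S.lvl j t ((S.c j t' : ℤ) + (b.toNat : ℕ)) = _
    rw [Int.toNat_of_nonneg hb0, add_comm]
  -- hypotheses for S_tp / S_ep
  have hO1 : ∀ o ∈ S.occs J g, S.Occ g o.1 o.2 ∧ (fun _ : ℕ => 0) o.1 < k o.1 :=
    fun o ho => ⟨ho.2, hk0 _⟩
  have hO2 : ∀ o ∈ S.inocc J j γ, S.Occ (ext γ) o.1 o.2 ∧ (fun _ : ℕ => 0) o.1 < k o.1 :=
    fun o ho => ⟨ho.2.2.2.2, hk0 _⟩
  -- special positions of a lower occurrence are not special for `(j,0)`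
  have hnots : ∀ (i m x : ℕ) (a : ℤ), i < j → S.Occ g i a → m < k i → x < 2 * S.e i →
      S.lvl j t (a + S.q i m x) = t (a + S.q i m x) := by
    intro i m x a hij ho hm hx
    apply LDpiece_lvl_of_not
    intro x' hx' he
    have := h7 k n S g i j 0 m x' x 0 a hocc ho (hk0 j) hm hx' hx (by rw [he]; ring)
    omega
  -- from inside to outside
  have hin : ∀ (i : ℕ) (a : ℤ), (i, a) ∈ S.inocc J j γ → S.Occ g i (a + S.c j t') ∧ i < j ∧
      (i, a + S.c j t') ∈ S.occs J g ∧ 0 ≤ a ∧ a + S.len i ≤ (n j (S.z j t') : ℕ) := by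
    rintro i a ⟨hij, hiJ, ha0, ha1, ho⟩
    have := LDpiece_occ_bwd S hocc ht' ho ha0 ha1
    exact ⟨this, hij, ⟨hiJ, this⟩, ha0, ha1⟩
  have hout : ∀ (i : ℕ) (a : ℤ), i < j → (i, a) ∈ S.occs J g → a ≤ Y → Y < a + S.len i →
      (i, a - S.c j t') ∈ S.inocc J j γ ∧ (S.c j t' : ℤ) ≤ a ∧
        a + S.len i ≤ (S.c j t' : ℤ) + (n j (S.z j t') : ℕ) := by
    rintro i a hij ⟨hiJ, ho⟩ haY hYa
    obtain ⟨hA, hB⟩ := LDpiece_inside S h4 hocc ht' hij ho (by omega) (by omega) haY hYa
    refine ⟨⟨hij, hiJ, ?_, ?_, LDpiece_occ_fwd S hocc ht' ho hA hB⟩, hA, hB⟩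
    · show 0 ≤ a - S.c j t'
      omega
    · show a - S.c j t' + S.len i ≤ _
      omega
  have hcomp1 : g Y = γ v := by
    have := hocc.2 (S.c j t' + v) (by omega)
    show g Y = S.V j (S.c j t' + v)
    rw [← this]
    congr 1
    push_cast
    ring
  have hyN : ((v : ℕ) : ℤ) = Y - S.c j t' := by omega
  have hcomp2 : S.tp (fun _ => 0) (S.occs J g) t Y =
      S.tp (fun _ => 0) (S.inocc J j γ) (ext u) ((v : ℕ) : ℤ) := by
    by_cases hex : ∃ p, S.Tgt (fun _ => 0) (S.occs J g) Y p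
    · obtain ⟨⟨i, a, x⟩, hp⟩ := hex
      rw [h1 k n S g (fun _ => 0) (S.occs J g) t Y (i, a, x) hO1 hp]
      obtain ⟨hpo, hx, hYe⟩ := hp
      simp only at hpo hx hYe
      have hqlt := LDpiece_q_lt_len S (hk0 i) hx
      rcases lt_trichotomy i j with hij | hij | hij
      · obtain ⟨hmem, hA, hB⟩ := hout i a hij hpo (by omega) (by omega)
        have hT : S.Tgt (fun _ => 0) (S.inocc J j γ) ((v : ℕ) : ℤ) (i, a - S.c j t', x) :=
          ⟨hmem, hx, by show ((v : ℕ) : ℤ) = a - S.c j t' + S.q i 0 x; omega⟩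
        rw [h1 k n S (ext γ) (fun _ => 0) (S.inocc J j γ) (ext u) _ (i, a - S.c j t', x) hO2 hT]
        unfold Sys.grp
        apply Finset.sum_congr rfl
        intro m hm
        rw [Finset.mem_erase, Finset.mem_range] at hm
        have hm2 : m < k i := hm.2
        have hq : S.q i m x < S.len i := LDpiece_q_lt_len S hm2 hx
        simp only
        rw [hextu _ (by omega) (by omega)]
        have he : a - (S.c j t' : ℤ) + (S.q i m x : ℕ) + S.c j t' = a + (S.q i m x : ℕ) := by ring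
        rw [he, hnots i m x a hij hpo.2 hm2 hx]
      · subst hij
        have ha0 : a = 0 := by
          rcases le_total a 0 with h | h
          · exact h3 k n S g i a 0 hpo.2 hocc h (by omega)
          · exact (h3 k n S g i 0 a hocc hpo.2 h (by omega)).symm
        subst ha0
        have hnT : ¬ ∃ p, S.Tgt (fun _ => 0) (S.inocc J i γ) ((v : ℕ) : ℤ) p := by
          rintro ⟨⟨i', a', x'⟩, hp'1, hp'2, hp'3⟩
          simp only at hp'1 hp'2 hp'3
          obtain ⟨ho', hlt, -, -, -⟩ := hin i' a' hp'1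
          have := h7 k n S g i' i 0 0 x x' 0 (a' + S.c i t') hocc ho' (hk0 i) (hk0 i') hx hp'2
            (by omega)
          omega
        have : S.tp (fun _ => 0) (S.inocc J i γ) (ext u) ((v : ℕ) : ℤ) = ext u ((v : ℕ) : ℤ) := by
          unfold Sys.tp
          rw [dif_neg hnT]
        rw [this, hextu _ (by omega) (by omega)]
        have he : ((v : ℕ) : ℤ) + (S.c i t' : ℕ) = (S.q i 0 x : ℕ) := by omega
        rw [he, LDpiece_lvl_of S hx]
        unfold Sys.grp
        apply Finset.sum_congr rfl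
        intro m _
        simp only [zero_add]
      · exfalso
        exact h5 k n S g j i 0 x a 0 hij hocc hpo.2 (hk0 i) hx ⟨by omega, by omega⟩
    · have e1 : S.tp (fun _ => 0) (S.occs J g) t Y = t Y := by
        unfold Sys.tp
        rw [dif_neg hex]
      have hnT : ¬ ∃ p, S.Tgt (fun _ => 0) (S.inocc J j γ) ((v : ℕ) : ℤ) p := by
        rintro ⟨⟨i', a', x'⟩, hp'1, hp'2, hp'3⟩
        simp only at hp'1 hp'2 hp'3
        obtain ⟨ho', hlt, hmem, -, -⟩ := hin i' a' hp'1
        exact hex ⟨(i', a' + S.c j t', x'), hmem, hp'2, by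
          show Y = a' + S.c j t' + S.q i' 0 x'
          omega⟩
      have e2 : S.tp (fun _ => 0) (S.inocc J j γ) (ext u) ((v : ℕ) : ℤ) = ext u ((v : ℕ) : ℤ) := by
        unfold Sys.tp
        rw [dif_neg hnT]
      rw [e1, e2, hextu _ (by omega) (by omega)]
      have he : ((v : ℕ) : ℤ) + (S.c j t' : ℕ) = Y := by omega
      rw [he, LDpiece_lvl_of_not]
      intro x hx hYx
      exact hex ⟨(j, 0, x), ⟨hj, hocc⟩, hx, by
        show Y = 0 + S.q j 0 x
        rw [hYx, zero_add]⟩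
  have hcomp3 : S.ep (fun _ => 0) (S.occs J g) t Y =
      S.ep (fun _ => 0) (S.inocc J j γ) (ext u) ((v : ℕ) : ℤ) := by
    by_cases hex : ∃ p, S.Slt (S.occs J g) Y p
    · obtain ⟨⟨i, a, x⟩, hp⟩ := hex
      rw [h2 k n S g (fun _ => 0) (S.occs J g) t Y (i, a, x) (fun o ho => ho.2) hp]
      obtain ⟨hpo, hx, hYe⟩ := hp
      simp only at hpo hx hYe
      have hli := S.len_eq i
      rcases lt_trichotomy i j with hij | hij | hij
      · obtain ⟨hmem, hA, hB⟩ := hout i a hij hpo (by omega) (by omega)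
        have hT : S.Slt (S.inocc J j γ) ((v : ℕ) : ℤ) (i, a - S.c j t', x) :=
          ⟨hmem, hx, by show ((v : ℕ) : ℤ) = a - S.c j t' + S.s i + x; omega⟩
        rw [h2 k n S (ext γ) (fun _ => 0) (S.inocc J j γ) (ext u) _ (i, a - S.c j t', x)
          (fun o ho => ho.2.2.2.2) hT]
        have key : ∀ x', x' < 2 * S.e i →
            ext u (a - S.c j t' + S.q i 0 x') = t (a + S.q i 0 x') := by
          intro x' hx'
          have hq := LDpiece_q_lt_len S (hk0 i) hx'
          rw [hextu _ (by omega) (by omega)]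
          have he : a - (S.c j t' : ℤ) + (S.q i 0 x' : ℕ) + S.c j t' = a + (S.q i 0 x' : ℕ) := by
            ring
          rw [he, hnots i 0 x' a hij hpo.2 (hk0 i) hx']
        simp only
        rw [key _ (by omega), key _ (by omega)]
      · exfalso
        subst hij
        have ha0 : a = 0 := by
          rcases le_total a 0 with h | h
          · exact h3 k n S g i a 0 hpo.2 hocc h (by omega)
          · exact (h3 k n S g i 0 a hocc hpo.2 h (by omega)).symm
        subst ha0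
        omega
      · exfalso
        exact h6 k n S g j i x a 0 hij hocc hpo.2 hx ⟨by omega, by omega⟩
    · have e1 : S.ep (fun _ => 0) (S.occs J g) t Y = (false, false, false) := by
        unfold Sys.ep
        rw [dif_neg hex]
      have hnT : ¬ ∃ p, S.Slt (S.inocc J j γ) ((v : ℕ) : ℤ) p := by
        rintro ⟨⟨i', a', x'⟩, hp'1, hp'2, hp'3⟩
        simp only at hp'1 hp'2 hp'3
        obtain ⟨ho', hlt, hmem, -, -⟩ := hin i' a' hp'1
        exact hex ⟨(i', a' + S.c j t', x'), hmem, hp'2, by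
          show Y = a' + S.c j t' + S.s i' + x'
          omega⟩
      have e2 : S.ep (fun _ => 0) (S.inocc J j γ) (ext u) ((v : ℕ) : ℤ) = (false, false, false) := by
        unfold Sys.ep
        rw [dif_neg hnT]
      rw [e1, e2]
  show (g Y, S.tp (fun _ => 0) (S.occs J g) t Y, S.ep (fun _ => 0) (S.occs J g) t Y) =
    (γ v, S.tp (fun _ => 0) (S.inocc J j γ) (ext u) ((v : ℕ) : ℤ),
      S.ep (fun _ => 0) (S.inocc J j γ) (ext u) ((v : ℕ) : ℤ))
  rw [hcomp1, hcomp2, hcomp3]

end Pool.Agent.Lib.MP_8d5788_an
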