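import Pool.Agent.Lib.MP_8d5788_an.Stmts

set_option autoImplicit false
open MeasureTheory

namespace Pool.Agent.Lib.MP_8d5788_an

section LDprobAux

/-- box of the first factor -/
def LDprob_A (a b : ℤ) (c : ℤ → Bool) : Set (ℤ → Bool) := {g | ∀ z ∈ Finset.Ico a b, g z = c z}

theorem LDprob_lam_A (h2 : S_lamcyl) (a b : ℤ) (c : ℤ → Bool) :
    lam (LDprob_A a b c) = (2⁻¹ : ENNReal) ^ (b - a).toNat := by
  unfold LDprob_A
  rw [h2, Int.card_Ico]

theorem LDprob_geom (r : ℕ) : ∑' i : ℕ, (2⁻¹ : ENNReal) ^ (r + i) = 2 * (2⁻¹ : ENNReal) ^ r := by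
  have : ∀ i : ℕ, (2⁻¹ : ENNReal) ^ (r + i) = (2⁻¹ : ENNReal) ^ r * (2⁻¹ : ENNReal) ^ i :=
    fun i => pow_add _ _ _
  simp_rw [this]
  rw [ENNReal.tsum_mul_left, ENNReal.tsum_geometric, ENNReal.one_sub_inv_two, inv_inv, mul_comm]

theorem LDprob_two_mul (r : ℕ) : 2 * (2⁻¹ : ENNReal) ^ (r + 1) = (2⁻¹ : ENNReal) ^ r := by
  rw [pow_succ, ← mul_assoc, mul_comm (2 : ENNReal), mul_assoc,
    ENNReal.mul_inv_cancel (by norm_num) (by norm_num), mul_one]

theorem LDprob_mono {a b : ℕ} (h : a ≤ b) : (2⁻¹ : ENNReal) ^ b ≤ (2⁻¹ : ENNReal) ^ a :=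
  pow_le_pow_right_of_le_one' (by simp) h

theorem LDprob_N (N : ℕ) : (N : ENNReal) * (2⁻¹ : ENNReal) ^ N ≤ 1 := by
  rw [← ENNReal.inv_pow, ← div_eq_mul_inv]
  apply ENNReal.div_le_of_le_mul
  rw [one_mul]
  have : N < 2 ^ N := Nat.lt_two_pow_self
  exact_mod_cast this.le

end LDprobAux

/-- see the docstring of `S_LDprob` for the proof -/
theorem pf_LDprob (h1 : S_LDwin) (h2 : S_lamcyl) (h3 : S_meas) : S_LDprob := by
  intro k n S J j N γ u hN hlen hclean
  have hk0 : ∀ i ∈ J, (fun _ : ℕ => 0) i < k i := fun i _ => by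
    have := S.k_ge i
    show 0 < k i
    omega
  have hmeas := (h3 k n S J (fun _ => 0) hk0).1
  set Ph : (ℤ → Bool) × (ℤ → Bool) → (ℤ → Sym) :=
    fun p => S.Phi J (fun _ => 0) p.1 p.2 with hPh
  set T : Set (ℤ → Bool) := LDprob_A 0 N (ext u) with hT
  have hlamT : lam T = (2⁻¹ : ENNReal) ^ N := by
    rw [hT, LDprob_lam_A h2]
    congr 1
  set base : Set ((ℤ → Bool) × (ℤ → Bool)) := LDprob_A (-1) N (ext γ) ×ˢ T with hbase
  have hPbase : (lam.prod lam) base = (2⁻¹ : ENNReal) ^ (2 * N + 1) := by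
    rw [hbase, Measure.prod_prod, LDprob_lam_A h2, hlamT, ← pow_add]
    congr 1
    omega
  set B1 : ℕ → ℕ → Set ((ℤ → Bool) × (ℤ → Bool)) := fun i r =>
    LDprob_A (-1 - ((S.h i + 1 + r : ℕ) : ℤ)) N
      (fun z => if z < -1 then S.V i (z + 1 + ((S.h i + 1 + r : ℕ) : ℤ)).toNat else ext γ z) ×ˢ T
    with hB1
  set B3 : ℕ → ℕ → Set ((ℤ → Bool) × (ℤ → Bool)) := fun i b =>
    LDprob_A (-1) ((b : ℤ) + S.len (j + i))
      (fun z => if z < N then ext γ z else S.V (j + i) (z - b).toNat) ×ˢ T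
    with hB3
  have hPB1 : ∀ i r, (lam.prod lam) (B1 i r) ≤ (2⁻¹ : ENNReal) ^ (2 * N + 12 + i + r) := by
    intro i r
    rw [hB1]
    simp only
    rw [Measure.prod_prod, LDprob_lam_A h2, hlamT, ← pow_add]
    apply LDprob_mono
    have := S.h_ge i
    omega
  have hPB3 : ∀ i b, b < N → (lam.prod lam) (B3 i b) ≤ (2⁻¹ : ENNReal) ^ N * (2⁻¹ : ENNReal) ^ (2 * N + 11 + i) := by
    intro i b hb
    rw [hB3]
    simp only
    rw [Measure.prod_prod, LDprob_lam_A h2, hlamT, mul_comm]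
    have := hlen (j + i) (by omega)
    exact mul_le_mul' le_rfl (LDprob_mono (by omega))
  have hcover : base ⊆ (Ph ⁻¹' (cyl (S.LD J j γ u)) ∪ ⋃ i, ⋃ r, B1 i r) ∪
      ⋃ i, ⋃ b ∈ Finset.range N, B3 i b := by
    rintro ⟨g, t⟩ ⟨hg, ht⟩
    have hg' : ∀ z : ℤ, -1 ≤ z → z < N → g z = ext γ z := fun z h0 h1 =>
      hg z (Finset.mem_Ico.2 ⟨h0, h1⟩)
    have hgm1 : g (-1) = false := by
      rw [hg' (-1) le_rfl (by omega)]
      unfold ext
      rw [dif_neg (by omega)]
    have hgc : g ∈ cyl γ := by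
      intro y
      rw [hg' y (by omega) (by have := y.2; omega)]
      unfold ext
      rw [dif_pos ⟨by omega, by have := y.2; omega⟩]
      congr 1
    have htc : t ∈ cyl u := by
      intro y
      have := ht (y : ℤ) (Finset.mem_Ico.2 ⟨by omega, by have := y.2; omega⟩)
      simp only at this
      rw [this]
      unfold ext
      rw [dif_pos ⟨by omega, by have := y.2; omega⟩]
      congr 1
    by_cases hH : ∀ (i : ℕ) (a : ℤ), S.Occ g i a → a < N → 0 < a + S.len i →
        0 ≤ a ∧ a + S.len i ≤ N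
    · left; left
      exact h1 k n S J j N γ u g t (fun i hi => by have := hlen i hi; omega) hgm1 hgc htc hH
    · push Not at hH
      obtain ⟨i, a, hocc, haN, hlt, hnot⟩ := hH
      by_cases ha : a < 0
      · left; right
        obtain ⟨o, ho⟩ : ∃ o : ℕ, (o : ℤ) = -1 - a := ⟨(-1 - a).toNat, by
          rw [Int.toNat_of_nonneg (by omega)]⟩
        have hol : o < S.len i := by omega
        have hVo : S.V i o = false := by
          rw [← hocc.2 o hol, ← hgm1]
          congr 1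
          omega
        have hho : S.h i < o := by
          by_contra hcon
          rw [S.start_ones i o (by omega)] at hVo
          exact Bool.noConfusion hVo
        refine Set.mem_iUnion.2 ⟨i, Set.mem_iUnion.2 ⟨o - (S.h i + 1), ?_⟩⟩
        have hoe : S.h i + 1 + (o - (S.h i + 1)) = o := by omega
        rw [hB1]
        simp only
        rw [hoe]
        refine ⟨?_, ht⟩
        intro z hz
        rw [Finset.mem_Ico] at hz
        simp only
        by_cases hz1 : z < -1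
        · rw [if_pos hz1, ← hocc.2 (z + 1 + (o : ℤ)).toNat (by omega)]
          congr 1
          rw [Int.toNat_of_nonneg (by omega)]
          omega
        · rw [if_neg hz1]
          exact hg' z (by omega) hz.2
      · have haN' := hnot (by omega)
        obtain ⟨b, hb⟩ : ∃ b : ℕ, (b : ℤ) = a := ⟨a.toNat, by
          rw [Int.toNat_of_nonneg (by omega)]⟩
        subst hb
        by_cases hij : i < j
        · exfalso
          obtain ⟨u', hu1, hu2⟩ := hclean.2 i hij b (by omega) (by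
            rcases Nat.eq_zero_or_pos b with hb0 | hb0
            · exact Or.inl hb0
            · right
              have h4 := hocc.1
              rw [hg' _ (by omega) (by omega)] at h4
              show ext γ ((b - 1 : ℕ) : ℤ) = false
              have h5 : ((b - 1 : ℕ) : ℤ) = (b : ℤ) - 1 := by omega
              rw [h5]
              exact h4) (by omega)
          apply hu2
          rw [← hocc.2 u' (by omega), hg' _ (by omega) (by omega)]
          congr 1
        · right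
          refine Set.mem_iUnion.2 ⟨i - j, Set.mem_iUnion.2 ⟨b, Set.mem_iUnion.2
            ⟨Finset.mem_range.2 (by omega), ?_⟩⟩⟩
          have hie : j + (i - j) = i := by omega
          rw [hB3]
          simp only
          rw [hie]
          refine ⟨?_, ht⟩
          intro z hz
          rw [Finset.mem_Ico] at hz
          simp only
          by_cases hz1 : z < N
          · rw [if_pos hz1]
            exact hg' z hz.1 hz1
          · rw [if_neg hz1, ← hocc.2 (z - (b : ℤ)).toNat (by omega)]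
            congr 1
            rw [Int.toNat_of_nonneg (by omega)]
            omega
  have hsum1 : (lam.prod lam) (⋃ i, ⋃ r, B1 i r) ≤ (2⁻¹ : ENNReal) ^ (2 * N + 10) := by
    calc (lam.prod lam) (⋃ i, ⋃ r, B1 i r) ≤ ∑' i, (lam.prod lam) (⋃ r, B1 i r) :=
          measure_iUnion_le _
      _ ≤ ∑' i, ∑' r, (lam.prod lam) (B1 i r) :=
          ENNReal.tsum_le_tsum fun i => measure_iUnion_le _
      _ ≤ ∑' i : ℕ, ∑' r : ℕ, (2⁻¹ : ENNReal) ^ (2 * N + 12 + i + r) :=
          ENNReal.tsum_le_tsum fun i => ENNReal.tsum_le_tsum fun r => hPB1 i r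
      _ = ∑' i : ℕ, 2 * (2⁻¹ : ENNReal) ^ (2 * N + 12 + i) := by
          congr 1
          funext i
          exact LDprob_geom _
      _ = 2 * (2 * (2⁻¹ : ENNReal) ^ (2 * N + 12)) := by
          rw [ENNReal.tsum_mul_left, LDprob_geom]
      _ = (2⁻¹ : ENNReal) ^ (2 * N + 10) := by
          rw [LDprob_two_mul (2 * N + 11), LDprob_two_mul (2 * N + 10)]
  have hsum3 : (lam.prod lam) (⋃ i, ⋃ b ∈ Finset.range N, B3 i b) ≤
      (2⁻¹ : ENNReal) ^ (2 * N + 10) := by
    calc (lam.prod lam) (⋃ i, ⋃ b ∈ Finset.range N, B3 i b)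
        ≤ ∑' i, (lam.prod lam) (⋃ b ∈ Finset.range N, B3 i b) := measure_iUnion_le _
      _ ≤ ∑' i, ∑ b ∈ Finset.range N, (lam.prod lam) (B3 i b) :=
          ENNReal.tsum_le_tsum fun i => measure_biUnion_finset_le _ _
      _ ≤ ∑' i : ℕ, ∑ _b ∈ Finset.range N,
            (2⁻¹ : ENNReal) ^ N * (2⁻¹ : ENNReal) ^ (2 * N + 11 + i) :=
          ENNReal.tsum_le_tsum fun i => Finset.sum_le_sum fun b hb =>
            hPB3 i b (Finset.mem_range.1 hb)
      _ ≤ ∑' i : ℕ, (2⁻¹ : ENNReal) ^ (2 * N + 11 + i) := by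
          apply ENNReal.tsum_le_tsum
          intro i
          rw [Finset.sum_const, Finset.card_range, nsmul_eq_mul, ← mul_assoc]
          calc (N : ENNReal) * (2⁻¹ : ENNReal) ^ N * (2⁻¹ : ENNReal) ^ (2 * N + 11 + i)
              ≤ 1 * (2⁻¹ : ENNReal) ^ (2 * N + 11 + i) := by
                gcongr
                exact LDprob_N N
            _ = _ := one_mul _
      _ = (2⁻¹ : ENNReal) ^ (2 * N + 10) := by
          rw [LDprob_geom, LDprob_two_mul (2 * N + 10)]
  have hkey : (2⁻¹ : ENNReal) ^ (2 * N + 2) ≤ (lam.prod lam) (Ph ⁻¹' (cyl (S.LD J j γ u))) := by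
    have h5 : (2⁻¹ : ENNReal) ^ (2 * N + 1) ≤
        (lam.prod lam) (Ph ⁻¹' (cyl (S.LD J j γ u))) + (2⁻¹ : ENNReal) ^ (2 * N + 2) := by
      calc (2⁻¹ : ENNReal) ^ (2 * N + 1) = (lam.prod lam) base := hPbase.symm
        _ ≤ (lam.prod lam) ((Ph ⁻¹' (cyl (S.LD J j γ u)) ∪ ⋃ i, ⋃ r, B1 i r) ∪
            ⋃ i, ⋃ b ∈ Finset.range N, B3 i b) := measure_mono hcover
        _ ≤ (lam.prod lam) (Ph ⁻¹' (cyl (S.LD J j γ u)) ∪ ⋃ i, ⋃ r, B1 i r) +
            (lam.prod lam) (⋃ i, ⋃ b ∈ Finset.range N, B3 i b) := measure_union_le _ _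
        _ ≤ ((lam.prod lam) (Ph ⁻¹' (cyl (S.LD J j γ u))) +
            (lam.prod lam) (⋃ i, ⋃ r, B1 i r)) + (2⁻¹ : ENNReal) ^ (2 * N + 10) :=
            add_le_add (measure_union_le _ _) hsum3
        _ ≤ ((lam.prod lam) (Ph ⁻¹' (cyl (S.LD J j γ u))) + (2⁻¹ : ENNReal) ^ (2 * N + 10)) +
            (2⁻¹ : ENNReal) ^ (2 * N + 10) := by
            gcongr
        _ = (lam.prod lam) (Ph ⁻¹' (cyl (S.LD J j γ u))) + 2 * (2⁻¹ : ENNReal) ^ (2 * N + 10) := by
            rw [add_assoc, two_mul ((2⁻¹ : ENNReal) ^ (2 * N + 10))]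
        _ = (lam.prod lam) (Ph ⁻¹' (cyl (S.LD J j γ u))) + (2⁻¹ : ENNReal) ^ (2 * N + 9) := by
            rw [LDprob_two_mul (2 * N + 9)]
        _ ≤ _ := add_le_add le_rfl (LDprob_mono (by omega))
    rw [← LDprob_two_mul (2 * N + 1), two_mul ((2⁻¹ : ENNReal) ^ (2 * N + 1 + 1))] at h5
    exact (ENNReal.add_le_add_iff_right (by
      apply ENNReal.pow_ne_top
      simp)).1 h5
  have hle : (2⁻¹ : ENNReal) ^ (2 * N + 2) ≤ S.mu J (cyl (S.LD J j γ u)) :=
    hkey.trans (Measure.le_map_apply hmeas.aemeasurable _)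
  have hfin : IsFiniteMeasure (S.mu J) := by
    unfold Sys.mu
    infer_instance
  rw [Measure.real, ← ENNReal.ofReal_le_iff_le_toReal (measure_ne_top _ _)]
  refine le_trans (le_of_eq ?_) hle
  rw [ENNReal.ofReal_pow (by norm_num), ENNReal.ofReal_inv_of_pos (by norm_num)]
  norm_num

end Pool.Agent.Lib.MP_8d5788_an
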