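import Pool.Agent.Lib.MP_8d5788_an.Stmts

set_option autoImplicit false
open MeasureTheory

namespace Pool.Agent.Lib.MP_8d5788_an

private theorem LDwin_ext {N : ℕ} {γ : Fin N → Bool} {g : ℤ → Bool} (hg : g ∈ cyl γ) (y : ℤ)
    (h0 : 0 ≤ y) (h1 : y < N) : ext γ y = g y := by
  have h : 0 ≤ y ∧ y < N := ⟨h0, h1⟩
  unfold ext
  rw [dif_pos h, ← hg ⟨y.toNat, by omega⟩]
  congr 1
  exact Int.toNat_of_nonneg h0

private theorem LDwin_neg {N : ℕ} (γ : Fin N → Bool) : ext γ (-1) = false := by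
  unfold ext
  rw [dif_neg (by omega)]

private theorem LDwin_len_pos {k : ℕ → ℕ} {n : ℕ → ℕ → ℕ} (S : Sys k n) (i : ℕ) : 2 ≤ S.len i := by
  have := S.len_eq i
  have := S.e_ge i
  omega

private theorem LDwin_q {k : ℕ → ℕ} {n : ℕ → ℕ → ℕ} (S : Sys k n) (i m x : ℕ) (hm : m < k i)
    (hx : x < 2 * S.e i) : S.q i m x < S.len i := by
  obtain ⟨t, ht, hz, h1, h2⟩ := S.q_piece i m x hm hx
  have h3 := S.piece_right i t ht
  rw [hz] at h3
  have h4 := S.len_eq i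
  omega

/-- see the docstring of `S_LDwin` for the proof -/
theorem pf_LDwin (h1 : S_tp) (h2 : S_ep) : S_LDwin := by
  intro k n S J j N γ u g t hlen hg1 hg ht hin
  -- occurrences inside the window
  have hocc : ∀ (i : ℕ) (a : ℤ), 0 ≤ a → a + S.len i ≤ N → (S.Occ (ext γ) i a ↔ S.Occ g i a) := by
    intro i a ha haN
    have hl := LDwin_len_pos S i
    have e1 : ext γ (a - 1) = g (a - 1) := by
      rcases eq_or_lt_of_le ha with h | h
      · rw [← h, zero_sub, LDwin_neg, hg1]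
      · exact LDwin_ext hg (a - 1) (by omega) (by omega)
    have e2 : ∀ v : ℕ, v < S.len i → ext γ (a + v) = g (a + v) := fun v hv =>
      LDwin_ext hg _ (by omega) (by omega)
    unfold Sys.Occ OccW
    rw [e1]
    constructor
    · rintro ⟨h3, h4⟩
      exact ⟨h3, fun v hv => by rw [← e2 v hv]; exact h4 v hv⟩
    · rintro ⟨h3, h4⟩
      exact ⟨h3, fun v hv => by rw [e2 v hv]; exact h4 v hv⟩
  have hsub : ∀ o ∈ S.inocc J j γ, o ∈ S.occs J g := by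
    rintro ⟨i, a⟩ ⟨h3, h4, h5, h6, h7⟩
    exact ⟨h4, (hocc i a h5 h6).1 h7⟩
  have hsup : ∀ (i : ℕ) (a : ℤ), (i, a) ∈ S.occs J g → a < N → 0 < a + S.len i →
      (i, a) ∈ S.inocc J j γ := by
    rintro i a ⟨h3, h4⟩ h5 h6
    obtain ⟨h7, h8⟩ := hin i a h4 h5 h6
    refine ⟨?_, h3, h7, h8, (hocc i a h7 h8).2 h4⟩
    by_contra hc
    have := hlen i (not_lt.1 hc)
    change a + S.len i ≤ N at h8
    omega
  have hO1 : ∀ o ∈ S.occs J g, S.Occ g o.1 o.2 ∧ (fun _ : ℕ => 0) o.1 < k o.1 := fun o ho =>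
    ⟨ho.2, by have := S.k_ge o.1; change 0 < k o.1; omega⟩
  have hO2 : ∀ o ∈ S.inocc J j γ, S.Occ g o.1 o.2 ∧ (fun _ : ℕ => 0) o.1 < k o.1 := fun o ho =>
    hO1 o (hsub o ho)
  intro y
  have hy0 : (0 : ℤ) ≤ ((y : ℕ) : ℤ) := by omega
  have hyN : ((y : ℕ) : ℤ) < N := by exact_mod_cast y.2
  have huy : ∀ z : ℤ, 0 ≤ z → z < N → ext u z = t z := fun z => LDwin_ext ht z
  have hT : ∀ p : ℕ × ℤ × ℕ, S.Tgt (fun _ => 0) (S.occs J g) ((y : ℕ) : ℤ) p →
      (p.1, p.2.1) ∈ S.inocc J j γ := by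
    rintro ⟨i, a, x⟩ ⟨h3, h4, h5⟩
    have h6 := LDwin_q S i 0 x (by have := S.k_ge i; omega) h4
    change ((y : ℕ) : ℤ) = a + S.q i 0 x at h5
    exact hsup i a h3 (by omega) (by omega)
  have hS : ∀ p : ℕ × ℤ × ℕ, S.Slt (S.occs J g) ((y : ℕ) : ℤ) p →
      (p.1, p.2.1) ∈ S.inocc J j γ := by
    rintro ⟨i, a, x⟩ ⟨h3, h4, h5⟩
    have h6 := S.len_eq i
    change x < S.e i at h4
    change ((y : ℕ) : ℤ) = a + S.s i + x at h5
    exact hsup i a h3 (by omega) (by omega)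
  have etp : S.tp (fun _ => 0) (S.occs J g) t ((y : ℕ) : ℤ) =
      S.tp (fun _ => 0) (S.inocc J j γ) (ext u) ((y : ℕ) : ℤ) := by
    by_cases hex : ∃ p, S.Tgt (fun _ => 0) (S.occs J g) ((y : ℕ) : ℤ) p
    · obtain ⟨p, hp⟩ := hex
      have hp2 : S.Tgt (fun _ => 0) (S.inocc J j γ) ((y : ℕ) : ℤ) p := ⟨hT p hp, hp.2.1, hp.2.2⟩
      rw [h1 k n S g _ _ _ _ p hO1 hp, h1 k n S g _ _ _ _ p hO2 hp2]
      obtain ⟨i, a, x⟩ := p
      obtain ⟨h3, h4, h5, h6, h7⟩ := hT _ hp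
      have hx := hp.2.1
      change 0 ≤ a at h5
      change a + S.len i ≤ N at h6
      unfold Sys.grp
      refine Finset.sum_congr rfl fun m hm => ?_
      have hm' := Finset.mem_range.1 (Finset.mem_of_mem_erase hm)
      have hq := LDwin_q S i m x hm' hx
      change t (a + S.q i m x) = ext u (a + S.q i m x)
      exact (huy _ (by omega) (by omega)).symm
    · have hex2 : ¬ ∃ p, S.Tgt (fun _ => 0) (S.inocc J j γ) ((y : ℕ) : ℤ) p := by
        rintro ⟨p, h3, h4, h5⟩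
        exact hex ⟨p, hsub _ h3, h4, h5⟩
      unfold Sys.tp
      rw [dif_neg hex, dif_neg hex2, huy _ hy0 hyN]
  have eep : S.ep (fun _ => 0) (S.occs J g) t ((y : ℕ) : ℤ) =
      S.ep (fun _ => 0) (S.inocc J j γ) (ext u) ((y : ℕ) : ℤ) := by
    by_cases hex : ∃ p, S.Slt (S.occs J g) ((y : ℕ) : ℤ) p
    · obtain ⟨p, hp⟩ := hex
      have hp2 : S.Slt (S.inocc J j γ) ((y : ℕ) : ℤ) p := ⟨hS p hp, hp.2.1, hp.2.2⟩
      rw [h2 k n S g _ _ _ _ p (fun o ho => (hO1 o ho).1) hp,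
        h2 k n S g _ _ _ _ p (fun o ho => (hO2 o ho).1) hp2]
      obtain ⟨i, a, x⟩ := p
      obtain ⟨h3, h4, h5, h6, h7⟩ := hS _ hp
      have hx : x < S.e i := hp.2.1
      change 0 ≤ a at h5
      change a + S.len i ≤ N at h6
      have hk := S.k_ge i
      have hq1 := LDwin_q S i 0 (2 * x) (by omega) (by omega)
      have hq2 := LDwin_q S i 0 (2 * x + 1) (by omega) (by omega)
      have e1 : ext u (a + S.q i 0 (2 * x)) = t (a + S.q i 0 (2 * x)) :=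
        huy _ (by omega) (by omega)
      have e2 : ext u (a + S.q i 0 (2 * x + 1)) = t (a + S.q i 0 (2 * x + 1)) :=
        huy _ (by omega) (by omega)
      change (true, t (a + S.q i 0 (2 * x)), t (a + S.q i 0 (2 * x + 1))) =
        (true, ext u (a + S.q i 0 (2 * x)), ext u (a + S.q i 0 (2 * x + 1)))
      rw [e1, e2]
    · have hex2 : ¬ ∃ p, S.Slt (S.inocc J j γ) ((y : ℕ) : ℤ) p := by
        rintro ⟨p, h3, h4, h5⟩
        exact hex ⟨p, hsub _ h3, h4, h5⟩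
      unfold Sys.ep
      rw [dif_neg hex, dif_neg hex2]
  change (g ((y : ℕ) : ℤ), S.tp (fun _ => 0) (S.occs J g) t ((y : ℕ) : ℤ),
      S.ep (fun _ => 0) (S.occs J g) t ((y : ℕ) : ℤ)) =
    (γ y, S.tp (fun _ => 0) (S.inocc J j γ) (ext u) ((y : ℕ) : ℤ),
      S.ep (fun _ => 0) (S.inocc J j γ) (ext u) ((y : ℕ) : ℤ))
  rw [etp, eep, hg y]

end Pool.Agent.Lib.MP_8d5788_an
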