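import Pool.Agent.Lib.MP_8d5788_an.Stmts

set_option autoImplicit false
open MeasureTheory

namespace Pool.Agent.Lib.MP_8d5788_an

theorem Lam2cyl_coin (b : Bool) : coin {b} = (2⁻¹ : ENNReal) := by
  unfold coin
  rw [PMF.toMeasure_apply_singleton _ _ (measurableSet_singleton b), PMF.uniformOfFintype_apply]
  simp

theorem Lam2cyl_coin2 (b : Bool × Bool) : (coin.prod coin) {b} = (4⁻¹ : ENNReal) := by
  obtain ⟨b1, b2⟩ := b
  rw [← Set.singleton_prod_singleton, Measure.prod_prod, Lam2cyl_coin, Lam2cyl_coin,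
    ← ENNReal.mul_inv (Or.inl (by norm_num)) (Or.inl (by norm_num))]
  norm_num

/-- see the docstring of `S_lam2cyl` for the proof -/
theorem pf_lam2cyl  : S_lam2cyl := by
  intro s c
  have hset : {g : ℤ → Bool × Bool | ∀ z ∈ s, g z = c z} = Set.pi (s : Set ℤ) (fun z => {c z}) := by
    ext g
    simp [Set.mem_pi]
  rw [hset]
  unfold lam2
  rw [Measure.infinitePi_pi _ (fun z _ => measurableSet_singleton (c z))]
  simp only [Lam2cyl_coin2, Finset.prod_const]

end Pool.Agent.Lib.MP_8d5788_an
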