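import Pool.Agent.Lib.MP_8d5788_an.Stmts

set_option autoImplicit false
open MeasureTheory

namespace Pool.Agent.Lib.MP_8d5788_an

theorem Lamcyl_coin (b : Bool) : coin {b} = (2⁻¹ : ENNReal) := by
  unfold coin
  rw [PMF.toMeasure_apply_singleton _ _ (measurableSet_singleton b), PMF.uniformOfFintype_apply]
  simp

/-- see the docstring of `S_lamcyl` for the proof -/
theorem pf_lamcyl  : S_lamcyl := by
  intro s c
  have hset : {g : ℤ → Bool | ∀ z ∈ s, g z = c z} = Set.pi (s : Set ℤ) (fun z => {c z}) := by
    ext g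
    simp [Set.mem_pi]
  rw [hset]
  unfold lam
  rw [Measure.infinitePi_pi _ (fun z _ => measurableSet_singleton (c z))]
  simp only [Lamcyl_coin, Finset.prod_const]

end Pool.Agent.Lib.MP_8d5788_an
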