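import Pool.Agent.Lib.MP_8d5788_an.Stmts

set_option autoImplicit false
open MeasureTheory

namespace Pool.Agent.Lib.MP_8d5788_an

/-- see the docstring of `S_lamsh` for the proof -/
theorem pf_lamsh  : S_lamsh := by
  have h := Measure.infinitePi_map_piCongrLeft (fun _ : ℤ => coin) (Equiv.addRight (-1 : ℤ))
  have he : (⇑(MeasurableEquiv.piCongrLeft (fun _ : ℤ => Bool) (Equiv.addRight (-1 : ℤ))) :
      (ℤ → Bool) → (ℤ → Bool)) = sh := by
    funext f n
    have h1 := Equiv.piCongrLeft_apply_apply (fun _ : ℤ => Bool) (Equiv.addRight (-1 : ℤ)) f (n + 1)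
    have h2 : (Equiv.addRight (-1 : ℤ)) (n + 1) = n := by
      rw [Equiv.coe_addRight]; ring
    rw [h2] at h1
    exact h1
  rw [he] at h
  exact h

end Pool.Agent.Lib.MP_8d5788_an
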