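import Pool.Agent.Lib.MP_8d5788_an.Stmts

set_option autoImplicit false
open MeasureTheory

namespace Pool.Agent.Lib.MP_8d5788_an

section Law

variable {k : ℕ → ℕ} {n : ℕ → ℕ → ℕ} (S : Sys k n)

private def Law_pos (p : ℕ × ℤ × ℕ) (m : ℕ) : ℤ := p.2.1 + S.q p.1 m p.2.2

private def Law_val (O : Set (ℕ × ℤ)) (p : ℕ × ℤ × ℕ) : Prop :=
  (p.1, p.2.1) ∈ O ∧ p.2.2 < 2 * S.e p.1

open Classical in
private noncomputable def Law_R (M M' : ℕ → ℕ) (O : Set (ℕ × ℤ)) (t : ℤ → Bool) (y : ℤ) : Bool :=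
  if hA : ∃ p, S.Tgt M' O y p then Law_pos S hA.choose (M hA.choose.1) |> t else S.tp M O t y

private theorem Law_tgt {M : ℕ → ℕ} {O : Set (ℕ × ℤ)} {y : ℤ} {p : ℕ × ℤ × ℕ} :
    S.Tgt M O y p ↔ Law_val S O p ∧ y = Law_pos S p (M p.1) := by
  unfold Sys.Tgt Law_val Law_pos
  tauto

private theorem Law_uniq (h4 : S_quniq) {O : Set (ℕ × ℤ)} {g : ℤ → Bool}
    (hO : ∀ o ∈ O, S.Occ g o.1 o.2) {p p' : ℕ × ℤ × ℕ} {m m' : ℕ} (hp : Law_val S O p)
    (hp' : Law_val S O p') (hm : m < k p.1) (hm' : m' < k p'.1)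
    (h : Law_pos S p m = Law_pos S p' m') : p' = p ∧ m' = m := by
  obtain ⟨e1, e2, e3, e4⟩ := h4 k n S g p'.1 p.1 m m' p.2.2 p'.2.2 p.2.1 p'.2.1
    (hO _ hp.1) (hO _ hp'.1) hm hm' hp.2 hp'.2 h
  refine ⟨?_, e3⟩
  obtain ⟨j, a, x⟩ := p
  obtain ⟨j', a', x'⟩ := p'
  simp only at e1 e2 e4
  rw [e1, e2, e4]

variable {S}

private theorem Law_tp_non {M : ℕ → ℕ} {O : Set (ℕ × ℤ)} {t : ℤ → Bool} {y : ℤ}
    (h : ¬ ∃ p, S.Tgt M O y p) : S.tp M O t y = t y := by
  unfold Sys.tp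
  rw [dif_neg h]

private theorem Law_R_non {M M' : ℕ → ℕ} {O : Set (ℕ × ℤ)} {t : ℤ → Bool} {y : ℤ}
    (h : ¬ ∃ p, S.Tgt M' O y p) : Law_R S M M' O t y = S.tp M O t y := by
  unfold Law_R
  rw [dif_neg h]

section

variable (h4 : S_quniq) {M M' : ℕ → ℕ} {O : Set (ℕ × ℤ)} {g : ℤ → Bool}
  (hO : ∀ o ∈ O, S.Occ g o.1 o.2 ∧ M o.1 < k o.1)
  (hO' : ∀ o ∈ O, S.Occ g o.1 o.2 ∧ M' o.1 < k o.1)

include h4 hO' in
private theorem Law_R_tgt (t : ℤ → Bool) {p : ℕ × ℤ × ℕ} (hp : Law_val S O p) :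
    Law_R S M M' O t (Law_pos S p (M' p.1)) = t (Law_pos S p (M p.1)) := by
  have hex : ∃ p', S.Tgt M' O (Law_pos S p (M' p.1)) p' := ⟨p, (Law_tgt S).2 ⟨hp, rfl⟩⟩
  unfold Law_R
  rw [dif_pos hex]
  obtain ⟨h5, h6⟩ := (Law_tgt S).1 hex.choose_spec
  have h7 := (Law_uniq S h4 (fun o ho => (hO' o ho).1) hp h5 (hO' _ hp.1).2 (hO' _ h5.1).2 h6).1
  rw [h7]

include h4 hO in
private theorem Law_not (hlt : ∀ o ∈ O, S.Occ g o.1 o.2 ∧ M o.1 < k o.1) {p : ℕ × ℤ × ℕ} {m : ℕ}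
    (hp : Law_val S O p) (hm : m < k p.1) (hne : m ≠ M p.1) :
    ¬ ∃ p', S.Tgt M O (Law_pos S p m) p' := by
  rintro ⟨p', hp'⟩
  obtain ⟨h5, h6⟩ := (Law_tgt S).1 hp'
  obtain ⟨h7, h8⟩ := Law_uniq S h4 (fun o ho => (hO o ho).1) hp h5 hm (hlt _ h5.1).2 h6
  rw [h7] at h8
  exact hne h8.symm

include h4 hO hO' in
private theorem Law_R_other (t : ℤ → Bool) {p : ℕ × ℤ × ℕ} {m : ℕ} (hp : Law_val S O p)
    (hm : m < k p.1) (hne : m ≠ M p.1) (hne' : m ≠ M' p.1) :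
    Law_R S M M' O t (Law_pos S p m) = t (Law_pos S p m) := by
  rw [Law_R_non (Law_not h4 hO' hO' hp hm hne'), Law_tp_non (Law_not h4 hO hO hp hm hne)]

include h4 hO hO' in
private theorem Law_R_M (h2 : S_tp) (t : ℤ → Bool) {p : ℕ × ℤ × ℕ} (hp : Law_val S O p)
    (hne : M p.1 ≠ M' p.1) : Law_R S M M' O t (Law_pos S p (M p.1)) = S.grp M t p := by
  rw [Law_R_non (Law_not h4 hO' hO' hp (hO _ hp.1).2 hne)]
  exact h2 k n S g M O t _ p hO ((Law_tgt S).2 ⟨hp, rfl⟩)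

include h4 hO hO' in
private theorem Law_sum (h2 : S_tp) (t : ℤ → Bool) {p : ℕ × ℤ × ℕ} (hp : Law_val S O p) :
    (M p.1 = M' p.1 → S.grp M' (Law_R S M M' O t) p = S.grp M t p) ∧
    (M p.1 ≠ M' p.1 → S.grp M' (Law_R S M M' O t) p = t (Law_pos S p (M' p.1))) := by
  constructor
  · intro he
    unfold Sys.grp
    rw [← he]
    apply Finset.sum_congr rfl
    intro m hm
    rw [Finset.mem_erase, Finset.mem_range] at hm
    exact Law_R_other h4 hO hO' t hp hm.2 hm.1 (he ▸ hm.1)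
  · intro hne
    have hA : M p.1 ∈ (Finset.range (k p.1)).erase (M' p.1) :=
      Finset.mem_erase.2 ⟨hne, Finset.mem_range.2 (hO _ hp.1).2⟩
    have hB : M' p.1 ∈ (Finset.range (k p.1)).erase (M p.1) :=
      Finset.mem_erase.2 ⟨hne.symm, Finset.mem_range.2 (hO' _ hp.1).2⟩
    have e1 : S.grp M' (Law_R S M M' O t) p = Law_R S M M' O t (Law_pos S p (M p.1)) +
        ∑ m ∈ ((Finset.range (k p.1)).erase (M' p.1)).erase (M p.1), t (Law_pos S p m) := by
      unfold Sys.grp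
      rw [← Finset.add_sum_erase _ _ hA]
      congr 1
      apply Finset.sum_congr rfl
      intro m hm
      rw [Finset.mem_erase, Finset.mem_erase, Finset.mem_range] at hm
      exact Law_R_other h4 hO hO' t hp hm.2.2 hm.1 hm.2.1
    have e2 : S.grp M t p = t (Law_pos S p (M' p.1)) +
        ∑ m ∈ ((Finset.range (k p.1)).erase (M p.1)).erase (M' p.1), t (Law_pos S p m) := by
      unfold Sys.grp
      rw [← Finset.add_sum_erase _ _ hB]
      rfl
    rw [e1, Law_R_M h4 hO hO' h2 t hp hne, e2, Finset.erase_right_comm, add_assoc]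
    rw [show ∀ b : Bool, b + b = 0 by decide, add_zero]

include h4 hO hO' in
private theorem Law_tpeq (h2 : S_tp) (t : ℤ → Bool) (y : ℤ) :
    S.tp M' O (Law_R S M M' O t) y = S.tp M O t y := by
  by_cases h : ∃ p, S.Tgt M' O y p
  · obtain ⟨p, hp⟩ := h
    rw [h2 k n S g M' O _ y p hO' hp]
    obtain ⟨hv, hy⟩ := (Law_tgt S).1 hp
    by_cases he : M p.1 = M' p.1
    · rw [(Law_sum h4 hO hO' h2 t hv).1 he]
      symm
      apply h2 k n S g M O t y p hO
      rw [Law_tgt]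
      exact ⟨hv, by rw [he]; exact hy⟩
    · rw [(Law_sum h4 hO hO' h2 t hv).2 he, hy]
      symm
      exact Law_tp_non (Law_not h4 hO hO hv (hO' _ hv.1).2 (Ne.symm he))
  · rw [Law_tp_non h, Law_R_non h]

include h4 hO hO' in
private theorem Law_inv (h2 : S_tp) (s : ℤ → Bool) :
    Law_R S M M' O (Law_R S M' M O s) = s := by
  funext y
  by_cases h : ∃ p, S.Tgt M' O y p
  · obtain ⟨p, hp⟩ := h
    obtain ⟨hv, hy⟩ := (Law_tgt S).1 hp
    rw [hy, Law_R_tgt h4 hO' _ hv, Law_R_tgt h4 hO _ hv]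
  · rw [Law_R_non h, Law_tpeq h4 hO' hO h2, Law_tp_non h]

include h4 hO hO' in
private theorem Law_epeq (h3 : S_ep) (t : ℤ → Bool) (y : ℤ) :
    S.ep M' O (Law_R S M M' O t) y = S.ep M O t y := by
  by_cases h : ∃ p, S.Slt O y p
  · obtain ⟨p, hp⟩ := h
    have hocc : ∀ o ∈ O, S.Occ g o.1 o.2 := fun o ho => (hO o ho).1
    rw [h3 k n S g M' O _ y p hocc hp, h3 k n S g M O _ y p hocc hp]
    have hu := hp.2.1
    have e1 := Law_R_tgt h4 hO' (M := M) t (p := (p.1, p.2.1, 2 * p.2.2))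
      ⟨hp.1, by simp only; omega⟩
    have e2 := Law_R_tgt h4 hO' (M := M) t (p := (p.1, p.2.1, 2 * p.2.2 + 1))
      ⟨hp.1, by simp only; omega⟩
    unfold Law_pos at e1 e2
    simp only at e1 e2
    rw [e1, e2]
  · unfold Sys.ep
    rw [dif_neg h, dif_neg h]

end

private theorem Law_tp_add (M : ℕ → ℕ) (O : Set (ℕ × ℤ)) (t t' : ℤ → Bool) (y : ℤ) :
    S.tp M O (t + t') y = S.tp M O t y + S.tp M O t' y := by
  unfold Sys.tp
  split_ifs with h
  · unfold Sys.grp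
    rw [← Finset.sum_add_distrib]
    rfl
  · rfl

private theorem Law_R_add (M M' : ℕ → ℕ) (O : Set (ℕ × ℤ)) (t t' : ℤ → Bool) :
    Law_R S M M' O (t + t') = Law_R S M M' O t + Law_R S M M' O t' := by
  funext y
  rw [Pi.add_apply]
  unfold Law_R
  split_ifs with h
  · rfl
  · exact Law_tp_add M O t t' y

private theorem Law_tp_cont (M : ℕ → ℕ) (O : Set (ℕ × ℤ)) (y : ℤ) :
    Continuous (fun t : ℤ → Bool => S.tp M O t y) := by
  unfold Sys.tp
  split_ifs with h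
  · unfold Sys.grp
    exact continuous_finsetSum _ fun m _ => continuous_apply _
  · exact continuous_apply _

private theorem Law_R_cont (M M' : ℕ → ℕ) (O : Set (ℕ × ℤ)) :
    Continuous (Law_R S M M' O) := by
  rw [continuous_pi_iff]
  intro y
  unfold Law_R
  split_ifs with h
  · exact continuous_apply _
  · exact Law_tp_cont M O y

end Law

/-- see the docstring of `S_law` for the proof -/
theorem pf_law (h1 : S_haar) (h2 : S_tp) (h3 : S_ep) (h4 : S_quniq) (h5 : S_meas) : S_law := by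
  intro k n S J M hM
  have hM0 : ∀ j ∈ J, (fun _ : ℕ => 0) j < k j := fun j _ => by
    have := S.k_ge j
    simp only
    omega
  have m1 := (h5 k n S J M hM).1
  have m0 := (h5 k n S J (fun _ => 0) hM0).1
  have key : ∀ g : ℤ → Bool, Measure.map (fun t => S.Phi J M g t) lam =
      Measure.map (fun t => S.Phi J (fun _ => 0) g t) lam := by
    intro g
    have hO : ∀ o ∈ S.occs J g, S.Occ g o.1 o.2 ∧ M o.1 < k o.1 :=
      fun o ho => ⟨ho.2, hM _ ho.1⟩
    have hO' : ∀ o ∈ S.occs J g, S.Occ g o.1 o.2 ∧ (fun _ : ℕ => 0) o.1 < k o.1 :=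
      fun o ho => ⟨ho.2, hM0 _ ho.1⟩
    let R : (ℤ → Bool) →+ (ℤ → Bool) :=
      AddMonoidHom.mk' (Law_R S M (fun _ => 0) (S.occs J g)) (Law_R_add M (fun _ => 0) (S.occs J g))
    have hRc : Continuous R := Law_R_cont M (fun _ => 0) (S.occs J g)
    have hRs : Function.Surjective R := fun s =>
      ⟨Law_R S (fun _ => 0) M (S.occs J g) s, Law_inv h4 hO hO' h2 s⟩
    have hlam := h1 R hRc hRs
    have hmeas0 : Measurable (fun t => S.Phi J (fun _ => 0) g t) :=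
      m0.comp (measurable_const.prodMk measurable_id)
    have hphi : (fun t => S.Phi J M g t) = (fun t => S.Phi J (fun _ => 0) g t) ∘ R := by
      funext t y
      change (g y, S.tp M (S.occs J g) t y, S.ep M (S.occs J g) t y) =
        (g y, S.tp (fun _ => 0) (S.occs J g) (Law_R S M (fun _ => 0) (S.occs J g) t) y,
          S.ep (fun _ => 0) (S.occs J g) (Law_R S M (fun _ => 0) (S.occs J g) t) y)
      rw [Law_tpeq h4 hO hO' h2, Law_epeq h4 hO hO' h3]
    rw [hphi, ← Measure.map_map hmeas0 hRc.measurable, hlam]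
  unfold Sys.mu
  ext A hA
  rw [Measure.map_apply m1 hA, Measure.map_apply m0 hA, Measure.prod_apply (m1 hA),
    Measure.prod_apply (m0 hA)]
  apply lintegral_congr
  intro g
  have e : Measure.map (fun t => S.Phi J M g t) lam A =
      Measure.map (fun t => S.Phi J (fun _ => 0) g t) lam A := by
    rw [key g]
  have hmeas1 : Measurable (fun t => S.Phi J M g t) :=
    m1.comp (measurable_const.prodMk measurable_id)
  have hmeas0 : Measurable (fun t => S.Phi J (fun _ => 0) g t) :=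
    m0.comp (measurable_const.prodMk measurable_id)
  rw [Measure.map_apply hmeas1 hA, Measure.map_apply hmeas0 hA] at e
  exact e

end Pool.Agent.Lib.MP_8d5788_an
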