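import Pool.Agent.Lib.MP_8d5788_an.Build

set_option autoImplicit false
open MeasureTheory

namespace Pool.Agent.Lib.MP_8d5788_an

private lemma Lay_succ (h : ℕ) (N r : ℕ → ℕ) (t : ℕ) :
    lpos h N r (t + 1) = lpos h N r t + N t + r t + 1 := by
  unfold lpos
  rw [Finset.sum_range_succ]
  ring

private lemma Lay_lt (h : ℕ) (N r : ℕ → ℕ) (t t' : ℕ) (htt : t < t') :
    lpos h N r t + N t + r t + 1 ≤ lpos h N r t' := by
  obtain ⟨d, rfl⟩ : ∃ d, t' = t + 1 + d := ⟨t' - t - 1, by omega⟩
  clear htt
  induction d with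
  | zero => rw [add_zero, Lay_succ]
  | succ d ih =>
    have := Lay_succ h N r (t + 1 + d)
    rw [← add_assoc, this]
    omega

private lemma Lay_ge (h : ℕ) (N r : ℕ → ℕ) (t : ℕ) : h + 2 ≤ lpos h N r t := by
  unfold lpos; omega

private lemma Lay_idx (h T : ℕ) (N r : ℕ → ℕ) (t u : ℕ) (ht : t < T) (hu : u ≤ N t + r t) :
    lidx h N r T (lpos h N r t + u) = t := by
  unfold lidx
  apply le_antisymm
  · by_contra hcon
    rw [not_le] at hcon
    have h1 := Nat.findGreatest_spec (P := fun t' => lpos h N r t' ≤ lpos h N r t + u) (n := T)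
      (m := t) ht.le (by simp)
    have h2 := Lay_lt h N r t _ hcon
    omega
  · exact Nat.le_findGreatest ht.le (by simp)

private lemma Lay_mid (h T : ℕ) (N r : ℕ → ℕ) (w : ℕ → ℕ → Bool) (t u : ℕ) (ht : t < T)
    (hu : u ≤ N t + r t) :
    lay h T N r w (lpos h N r t + u) =
      if u < N t then w t u else decide (u ≠ N t + r t) := by
  have h1 := Lay_ge h N r t
  have h2 := Lay_lt h N r t T ht
  unfold lay
  rw [if_neg (by omega), if_neg (by omega), if_pos (by omega), Lay_idx h T N r t u ht hu,
    Nat.add_sub_cancel_left]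
  by_cases hc : u < N t
  · rw [if_pos hc, if_pos hc]
  · rw [if_neg hc, if_neg hc]
    congr 1
    apply propext
    constructor
    · intro h3 h4; exact h3 (by omega)
    · intro h3 h4; exact h3 (by omega)

/-- see the docstring of `S_lay` for the proof -/
theorem pf_lay  : S_lay := by
  intro h T N r w
  have p2 : lay h T N r w (h + 1) = false := by
    unfold lay
    rw [if_neg (by omega), if_pos rfl]
  have p5 : ∀ t < T, lay h T N r w (lpos h N r t + N t + r t) = false := by
    intro t ht
    rw [add_assoc, Lay_mid h T N r w t (N t + r t) ht le_rfl, if_neg (by omega)]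
    simp
  refine ⟨?_, p2, ?_, ?_, p5, ?_, Lay_succ h N r, Lay_lt h N r, ?_, ?_, ?_⟩
  · intro p hp
    unfold lay
    rw [if_pos hp]
  · intro t ht u hu
    rw [Lay_mid h T N r w t u ht (by omega), if_pos hu]
  · intro t ht u hu
    rw [add_assoc, Lay_mid h T N r w t (N t + u) ht (by omega), if_neg (by omega)]
    simp only [ne_eq, decide_eq_true_eq]
    omega
  · intro u
    have h1 := Lay_ge h N r T
    unfold lay
    rw [if_neg (by omega), if_neg (by omega), if_neg (by omega), Nat.add_sub_cancel_left]
  · intro p hp1 hp2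
    have h0 : lpos h N r 0 = h + 2 := by simp [lpos]
    have h1 : lpos h N r (lidx h N r T p) ≤ p := by
      unfold lidx
      exact Nat.findGreatest_spec (P := fun t' => lpos h N r t' ≤ p) (n := T) (m := 0)
        (Nat.zero_le _) (by omega)
    have h2 : lidx h N r T p ≤ T := by
      unfold lidx
      exact Nat.findGreatest_le T
    have h3 : lidx h N r T p < T := by
      rcases Nat.lt_or_eq_of_le h2 with h3 | h3
      · exact h3
      · rw [h3] at h1; omega
    refine ⟨lidx h N r T p, h3, p - lpos h N r (lidx h N r T p), ?_, by omega⟩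
    have h4 : ¬ lpos h N r (lidx h N r T p + 1) ≤ p := by
      intro h5
      have h6 : lidx h N r T p + 1 ≤ lidx h N r T p := by
        conv_rhs => unfold lidx
        exact Nat.le_findGreatest (P := fun t' => lpos h N r t' ≤ p) h3 h5
      omega
    rw [Lay_succ] at h4
    omega
  · intro t ht ht1
    obtain ⟨s, rfl⟩ : ∃ s, t = s + 1 := ⟨t - 1, by omega⟩
    rw [Lay_succ, Nat.add_sub_cancel]
    exact p5 s (by omega)
  · have h0 : lpos h N r 0 - 1 = h + 1 := by simp [lpos]
    rw [h0]
    exact p2

end Pool.Agent.Lib.MP_8d5788_an
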