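import Pool.Agent.Lib.MP_8d5788_an.Build

set_option autoImplicit false
open MeasureTheory

namespace Pool.Agent.Lib.MP_8d5788_an

/-- see the docstring of `S_laygap` for the proof -/
theorem pf_laygap (h1 : S_lay) : S_laygap := by
  intro h T A B N₀ N W hN₀ hBT hdvd hN t₀ o w hA hB ho hw hh
  obtain ⟨-, -, -, hrun, -, -, hstep, hmono, -⟩ := h1 h T N (rul h N) W
  set r := rul h N with hr
  have hclog : Nat.clog 2 N₀ ≤ w := Nat.clog_le_of_le_pow hw
  obtain ⟨E, hE⟩ : ∃ E, w = Nat.clog 2 N₀ + E := ⟨w - Nat.clog 2 N₀, by omega⟩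
  set D : ℕ := 2 ^ E with hD
  have hDpos : 0 < D := by positivity
  -- the segment `t₁`
  set Q : ℕ := t₀ / D with hQ
  have hdm : D * Q + t₀ % D = t₀ := Nat.div_add_mod t₀ D
  have hmod : t₀ % D < D := Nat.mod_lt _ hDpos
  obtain ⟨t₁, ht₁⟩ : ∃ t₁, t₁ + 1 = D * (Q + 1) :=
    ⟨D * (Q + 1) - 1, Nat.sub_add_cancel (Nat.mul_pos hDpos (Nat.succ_pos _))⟩
  have hexp : D * (Q + 1) = D * Q + D := by ring
  have h01 : t₀ ≤ t₁ := by omega
  have h10 : t₁ + 1 ≤ t₀ + D := by omega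
  have hEh : E ≤ h := by omega
  have hDB : D ∣ B := (pow_dvd_pow 2 hEh).trans hdvd
  have h1B : t₁ + 1 ≤ B := by
    obtain ⟨c, hc⟩ := hDB
    rw [ht₁, hc]
    apply Nat.mul_le_mul_left
    by_contra hlt
    have : D * c ≤ D * Q := Nat.mul_le_mul_left D (by omega)
    omega
  have hNt₁ : N t₁ = N₀ := hN t₁ (by omega) (by omega)
  -- size of the separator `t₁`
  have hr1 : 4 * w ≤ r t₁ := by
    have hv : E ≤ padicValNat 2 (t₁ + 1) := by
      rw [← padicValNat_dvd_iff_le (p := 2) (by omega)]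
      exact ⟨Q + 1, ht₁⟩
    rw [hr, rul, hNt₁]
    refine le_min (by omega) ?_
    rw [hE]; omega
  -- separators before `t₁`
  have hr2 : ∀ t, t₀ ≤ t → t < t₁ → N t + r t + 1 ≤ N₀ + 4 * w := by
    intro t h2 h3
    have hNt : N t = N₀ := hN t (by omega) (by omega)
    have hnd : ¬ D ∣ t + 1 := by
      rintro ⟨c, hc⟩
      have h4 : D * Q < D * c := by omega
      have h5 : D * c < D * (Q + 1) := by omega
      have h6 := Nat.lt_of_mul_lt_mul_left h4
      have h7 := Nat.lt_of_mul_lt_mul_left h5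
      omega
    have hv : padicValNat 2 (t + 1) < E := by
      by_contra hv
      exact hnd ((padicValNat_dvd_iff_le (p := 2) (by omega)).2 (not_lt.1 hv))
    have h4 : r t ≤ 4 * (Nat.clog 2 (N t) + padicValNat 2 (t + 1)) := by
      rw [hr, rul]; exact min_le_right _ _
    rw [hNt] at h4 ⊢
    omega
  have hsum : ∀ d, t₀ + d ≤ t₁ → lpos h N r (t₀ + d) ≤ lpos h N r t₀ + d * (N₀ + 4 * w) := by
    intro d
    induction d with
    | zero => intro _; simp
    | succ d ih =>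
      intro hd
      have h2 := ih (by omega)
      have h3 := hstep (t₀ + d)
      have h4 := hr2 (t₀ + d) (by omega) (by omega)
      have h5 : (d + 1) * (N₀ + 4 * w) = d * (N₀ + 4 * w) + (N₀ + 4 * w) := by ring
      rw [← Nat.add_assoc, h3, h5]
      omega
  have hle : ∀ t t', t ≤ t' → lpos h N r t ≤ lpos h N r t' := by
    intro t t' htt
    rcases htt.lt_or_eq with h2 | h2
    · have := hmono t t' h2; omega
    · rw [h2]
  have hs1 := hsum (t₁ - t₀) (by omega)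
  rw [Nat.add_sub_cancel' h01] at hs1
  have hDw : D * N₀ ≤ 2 ^ w := by
    calc D * N₀ ≤ D * 2 ^ Nat.clog 2 N₀ := Nat.mul_le_mul_left _ (Nat.le_pow_clog (by norm_num) _)
      _ = 2 ^ w := by rw [hD, ← pow_add, hE, Nat.add_comm]
  have hDw2 : D ≤ 2 ^ w := by
    rw [hD, hE]
    exact Nat.pow_le_pow_right (by norm_num) (by omega)
  have hprod : (t₁ - t₀) * (N₀ + 4 * w) + (N₀ + 4 * w) ≤ D * (N₀ + 4 * w) := by
    have : (t₁ - t₀) * (N₀ + 4 * w) + (N₀ + 4 * w) = (t₁ - t₀ + 1) * (N₀ + 4 * w) := by ring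
    rw [this]
    exact Nat.mul_le_mul_right _ (by omega)
  have hprod2 : D * (N₀ + 4 * w) ≤ 2 ^ w * (4 * w + 1) := by
    have h2 : D * (N₀ + 4 * w) = D * N₀ + D * (4 * w) := by ring
    have h3 : 2 ^ w * (4 * w + 1) = 2 ^ w + 2 ^ w * (4 * w) := by ring
    rw [h2, h3]
    exact Nat.add_le_add hDw (Nat.mul_le_mul_right _ hDw2)
  refine ⟨lpos h N r t₁ + N₀, ?_, ?_, ?_, ?_⟩
  · have := hle t₀ t₁ h01
    omega
  · omega
  · have h2 := hstep t₁
    have h3 := hle (t₁ + 1) T (by omega)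
    rw [hNt₁] at h2
    omega
  · intro u hu
    have h2 := hrun t₁ (by omega) u (by omega)
    rw [hNt₁] at h2
    exact h2

end Pool.Agent.Lib.MP_8d5788_an
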