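import Pool.Agent.Lib.MP_8d5788_an.Build

set_option autoImplicit false
open MeasureTheory

namespace Pool.Agent.Lib.MP_8d5788_an

/-- see the docstring of `S_laynest` for the proof -/
theorem pf_laynest (h1 : S_lay) : S_laynest := by
  intro h T C g l N r w U hg hh hgh hgl hU1 hU2 hN hcut p hp1 hp2 hprev hmatch
  obtain ⟨f1, f2, f3, f4, f5, f6, f7, f8, f9, f10, f11⟩ := h1 h T N r w
  by_cases c1 : p ≤ h + 1
  · exfalso
    rw [f1 (p - 1) (by omega)] at hprev
    exact Bool.noConfusion hprev
  by_cases c2 : p < lpos h N r T
  · obtain ⟨t, ht, o, ho, rfl⟩ := f9 p (by omega) c2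
    obtain ⟨a1, a2, a3, a4⟩ := hN t ht
    have hend : lpos h N r t + N t + r t + 1 ≤ lpos h N r T := f8 t T ht
    by_cases c3 : o < N t
    · by_cases c4 : N t < o + l
      · exfalso
        obtain ⟨u, hu, hu'⟩ := hcut t ht o c3 (by
          rcases Nat.eq_zero_or_pos o with h0 | h0
          · exact Or.inl h0
          · right
            rw [← f3 t ht (o - 1) (by omega), ← hprev]
            congr 1
            omega) c4
        apply hu'
        rw [← f3 t ht (o + u) hu, ← hmatch u (by omega) (by omega), add_assoc]
      · exact ⟨t, ht, by omega, by omega⟩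
    · exfalso
      by_cases c4 : o = N t
      · subst c4
        by_cases c5 : r t ≤ g
        · have e1 := hmatch (r t) (by omega) (by omega)
          rw [f5 t ht, hU1 _ c5] at e1
          exact Bool.noConfusion e1
        · have c6 : g + 1 < r t := by omega
          have e1 := hmatch (g + 1) hgl (by omega)
          rw [f4 t ht (g + 1) c6, hU2] at e1
          exact Bool.noConfusion e1
      · have e1 := f4 t ht (o - 1 - N t) (by omega)
        rw [show lpos h N r t + N t + (o - 1 - N t) = lpos h N r t + o - 1 by omega, hprev] at e1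
        exact Bool.noConfusion e1
  · exfalso
    obtain ⟨v, rfl⟩ : ∃ v, p = lpos h N r T + v := ⟨p - lpos h N r T, by omega⟩
    have hv : v % (h + 1) = 0 := by
      rcases Nat.eq_zero_or_pos v with h0 | h0
      · rw [h0]; exact Nat.zero_mod _
      · rw [show lpos h N r T + v - 1 = lpos h N r T + (v - 1) by omega, f6] at hprev
        have e1 : (v - 1) % (h + 1) = h := by
          by_contra hne
          simp [hne] at hprev
        have e2 := Nat.div_add_mod (v - 1) (h + 1)
        have e3 : v = (h + 1) * ((v - 1) / (h + 1) + 1) := by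
          rw [mul_add, mul_one]
          omega
        rw [e3]
        exact Nat.mul_mod_right _ _
    obtain ⟨q, hq⟩ := Nat.dvd_of_mod_eq_zero hv
    have hqC : q < C := by
      by_contra hC
      have : (h + 1) * C ≤ (h + 1) * q := Nat.mul_le_mul_left _ (by omega)
      rw [mul_comm] at this
      omega
    have e4 : (h + 1) * (q + 1) ≤ (h + 1) * C := Nat.mul_le_mul_left _ hqC
    rw [mul_comm (h + 1) C, mul_add, mul_one] at e4
    have e5 := hmatch (g + 1) hgl (by omega)
    rw [add_assoc, f6, hU2, hq, Nat.mul_add_mod, Nat.mod_eq_of_lt (by omega)] at e5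
    have e6 : g + 1 ≠ h := by omega
    simp [e6] at e5

end Pool.Agent.Lib.MP_8d5788_an
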