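import Pool.Agent.Lib.MP_8d5788_an.Build

set_option autoImplicit false
open MeasureTheory

namespace Pool.Agent.Lib.MP_8d5788_an

/-- see the docstring of `S_laynorun` for the proof -/
theorem pf_laynorun (h1 : S_lay) : S_laynorun := by
  intro h T N r w hw b hb
  obtain ⟨f1, f2, f3, f4, f5, f6, f7, f8, f9, f10, f11⟩ := h1 h T N r w
  by_cases c1 : b ≤ h + 1
  · refine ⟨h + 1 - b, by omega, ?_⟩
    rw [show b + (h + 1 - b) = h + 1 by omega]
    exact f2
  by_cases c2 : b < lpos h N r T
  · obtain ⟨t, ht, o, ho, rfl⟩ := f9 b (by omega) c2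
    obtain ⟨a1, a2, a3, a4⟩ := hw t ht
    by_cases c3 : o < N t
    · refine ⟨N t - 1 - o, by omega, ?_⟩
      rw [show lpos h N r t + o + (N t - 1 - o) = lpos h N r t + (N t - 1) by omega,
        f3 t ht _ (by omega)]
      exact a4
    · refine ⟨N t + r t - o, by omega, ?_⟩
      rw [show lpos h N r t + o + (N t + r t - o) = lpos h N r t + N t + r t by omega]
      exact f5 t ht
  · obtain ⟨v, rfl⟩ : ∃ v, b = lpos h N r T + v := ⟨b - lpos h N r T, by omega⟩
    refine ⟨h - v % (h + 1), by omega, ?_⟩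
    have e1 : (v + (h - v % (h + 1))) % (h + 1) = h := by
      have e2 := Nat.div_add_mod v (h + 1)
      have e3 : v % (h + 1) < h + 1 := Nat.mod_lt _ (by omega)
      have e4 : v + (h - v % (h + 1)) = (h + 1) * (v / (h + 1)) + h := by omega
      rw [e4, Nat.mul_add_mod]
      exact Nat.mod_eq_of_lt (by omega)
    rw [add_assoc, f6, e1]
    simp

end Pool.Agent.Lib.MP_8d5788_an
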