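import Pool.Agent.Lib.MP_8d5788_an.Build

set_option autoImplicit false
open MeasureTheory

namespace Pool.Agent.Lib.MP_8d5788_an

theorem Level_clog (m N : ℕ) (hN : 2 ^ (4 * m + 40) ≤ N) :
    2 ^ (2 * m + 12) * (4 * Nat.clog 2 N + 5) ≤ N := by
  have h2 : 4 * m + 40 ≤ Nat.clog 2 N := by
    calc 4 * m + 40 = Nat.clog 2 (2 ^ (4 * m + 40)) := (Nat.clog_pow 2 _ (by norm_num)).symm
      _ ≤ Nat.clog 2 N := Nat.clog_mono_right 2 hN
  have hN1 : 1 < N := lt_of_lt_of_le (Nat.one_lt_two_pow (by omega)) hN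
  have h3 : 2 ^ (Nat.clog 2 N).pred < N := Nat.pow_pred_clog_lt_self (by norm_num) hN1
  set L := Nat.clog 2 N with hL
  have h4 : L.pred = (2 * m + 12) + (L - 2 * m - 13) := by
    rw [Nat.pred_eq_sub_one]; omega
  have h5 : 4 * L + 5 ≤ 2 ^ (L - 2 * m - 13) := by
    have h6 : L / 2 + 7 ≤ L - 2 * m - 13 := by omega
    have h7 : L / 2 + 1 ≤ 2 ^ (L / 2) := Nat.lt_two_pow_self
    calc 4 * L + 5 ≤ 128 * (L / 2 + 1) := by omega
      _ ≤ 128 * 2 ^ (L / 2) := Nat.mul_le_mul_left _ h7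
      _ = 2 ^ (L / 2 + 7) := by rw [pow_add]; ring
      _ ≤ 2 ^ (L - 2 * m - 13) := Nat.pow_le_pow_right (by norm_num) h6
  calc 2 ^ (2 * m + 12) * (4 * L + 5) ≤ 2 ^ (2 * m + 12) * 2 ^ (L - 2 * m - 13) :=
        Nat.mul_le_mul_left _ h5
    _ = 2 ^ L.pred := by rw [h4, ← pow_add]
    _ ≤ N := h3.le

theorem Level_cleancongr (len : ℕ → ℕ) (V : ℕ → ℕ → Bool) (j n : ℕ) (γ γ' : ℕ → Bool) (hn : 1 ≤ n)
    (h : ∀ u < n, γ u = γ' u) (hc : Clean len V j n γ) : Clean len V j n γ' := by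
  refine ⟨?_, ?_⟩
  · rw [← h (n - 1) (by omega)]; exact hc.1
  · intro i hi b hb hb0 hlen
    obtain ⟨u, hu, hne⟩ := hc.2 i hi b hb (by
      rcases hb0 with h0 | h0
      · exact Or.inl h0
      · right; rw [h (b - 1) (by omega)]; exact h0) hlen
    exact ⟨u, hu, by rw [← h (b + u) hu]; exact hne⟩

theorem Level_rulmod (h : ℕ) (hh : h % 4 = 2) (N : ℕ → ℕ) (t : ℕ) : rul h N t % 4 = 0 ∧ rul h N t ≤ h - 2 := by
  unfold rul
  refine ⟨?_, min_le_left _ _⟩
  rcases le_total (h - 2) (4 * (Nat.clog 2 (N t) + padicValNat 2 (t + 1))) with h1 | h1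
  · rw [min_eq_left h1]; omega
  · rw [min_eq_right h1]; omega

theorem Level_good (h2 : S_lay) (h3 : S_laynorun) (h4 : S_laynest) (h5 : S_laygap) (h8 : S_sepb)
    (k : ℕ → ℕ) (n : ℕ → ℕ → ℕ) (j : ℕ) (f : ℕ → Lvl) (hf : ∀ i < j, Basic i (f i))
    (h C T : ℕ) (b A z : ℕ → ℕ) (w : ℕ → ℕ → Bool) (tx yx : ℕ → ℕ → ℕ)
    (hh : h % 4 = 2) (hhf : ∀ i < j, (f i).h < h)
    (hhn : ∀ j' m, j' ≤ j → m < k j' → 2 * n j' m + j + 20 ≤ h) (hhj : j + 20 ≤ h)
    (hn1 : ∀ m < k j, 1 ≤ n j m)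
    (hnc : ∀ m < k j, 2 ^ (2 * m + 12) * (4 * Nat.clog 2 (n j m) + 5) ≤ n j m)
    (hC : 1 ≤ C) (hCe : 16 * (h + 2) ≤ C * (h + 1))
    (hb : ∀ m < k j, 2 ^ h ∣ b m ∧ 0 < b m ∧ b m * (n j m * 2 ^ n j m) ≤ 2 ^ (m + 6) * (C * (h + 1)))
    (hA0 : A 0 = 0) (hAK : A (k j) = T) (hAs : ∀ m, A (m + 1) = A m + b m * (cleanW f j (n j m)).card)
    (hAd : ∀ m ≤ k j, 2 ^ h ∣ A m)
    (hz : ∀ t < T, z t < k j ∧ A (z t) ≤ t ∧ t < A (z t + 1))
    (hz' : ∀ m < k j, ∀ t, A m ≤ t → t < A (m + 1) → t < T ∧ z t = m)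
    (hw : ∀ t < T, ∃ γ ∈ cleanW f j (n j (z t)), ∀ u : ℕ, w t u = ext γ (u : ℤ))
    (hwm : ∀ m < k j, ∀ γ ∈ cleanW f j (n j m), ((Finset.range T).filter (fun t => z t = m ∧
      ∀ u : Fin (n j m), w t u = γ u)).card = b m)
    (hq : ∀ m < k j,
      (∀ x < 2 * (C * (h + 1)), tx m x < T ∧ z (tx m x) = m ∧ ∃ γ ∈ cleanW f j (n j m),
        (∀ u : ℕ, w (tx m x) u = ext γ (u : ℤ)) ∧
        ∃ hy : yx m x < n j m, (⟨yx m x, hy⟩ : Fin (n j m)) ∈ avail f j m γ) ∧
      (∀ x x', x < 2 * (C * (h + 1)) → x' < 2 * (C * (h + 1)) → tx m x = tx m x' →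
        yx m x = yx m x' → x = x')) :
    ∃ L, GoodLvl k n j f L := by
  classical
  set N' : ℕ → ℕ := fun t => n j (z t) with hN'
  set r : ℕ → ℕ := rul h N' with hr
  set e : ℕ := C * (h + 1) with he
  obtain ⟨L1, L2, L3, L4, L5, L6, L7, L8, L9, L10, L11⟩ := h2 h T N' r w
  have hN'1 : ∀ t < T, 1 ≤ N' t := fun t ht => hn1 _ (hz t ht).1
  have hN'h : ∀ t < T, N' t ≤ h := fun t ht => by
    have := hhn j (z t) le_rfl (hz t ht).1
    show n j (z t) ≤ h
    omega
  have hr4 : ∀ t, r t % 4 = 0 ∧ r t ≤ h - 2 := fun t => Level_rulmod h hh N' t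
  have hrh : ∀ t, r t ≤ h := fun t => by have := (hr4 t).2; omega
  have hwc : ∀ t < T, Clean (fun i => (f i).len) (fun i => (f i).V) j (N' t) (w t) := by
    intro t ht
    obtain ⟨γ, hγ, hwγ⟩ := hw t ht
    have hγ' := (Finset.mem_filter.mp hγ).2
    exact Level_cleancongr _ _ _ _ _ _ (hN'1 t ht) (fun u _ => (hwγ u).symm) hγ'
  have hlast : ∀ t < T, w t (N' t - 1) = false := fun t ht => (hwc t ht).1
  have hnest : ∀ i p, i < j → 1 ≤ p → p < lpos h N' r T + C * (h + 1) → lay h T N' r w (p - 1) = false →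
      (∀ u, u < (f i).len → p + u < lpos h N' r T + C * (h + 1) → lay h T N' r w (p + u) = (f i).V u) →
      ∃ t < T, lpos h N' r t ≤ p ∧ p + (f i).len ≤ lpos h N' r t + N' t := by
    intro i p hi hp1 hp2 hp3 hm
    have hB := hf i hi
    refine h4 h T C (f i).h (f i).len N' r w (f i).V hB.h_mod hh (hhf i hi) ?_ ?_ hB.start_zero ?_ ?_ p hp1 hp2
      hp3 (fun u hu hu2 => hm u hu hu2)
    · have := hB.len_big; omega
    · intro u hu; exact hB.start_ones u hu
    · intro t ht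
      exact ⟨hN'1 t ht, hN'h t ht, (hr4 t).1, hrh t⟩
    · intro t ht b hb hb0 hlen
      obtain ⟨u, hu, hne⟩ := (hwc t ht).2 i hi b hb hb0 hlen
      exact ⟨u, hu, hne⟩
  have hlt : ∀ t < T, lpos h N' r t + N' t + r t + 1 ≤ lpos h N' r T := fun t ht => L8 t T ht
  have huniq : ∀ t t' y y', t < T → t' < T → y < N' t → y' < N' t' →
      lpos h N' r t + y = lpos h N' r t' + y' → t = t' ∧ y = y' := by
    intro t t' y y' ht ht' hy hy' heq
    rcases lt_trichotomy t t' with hlt' | heq' | hgt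
    · have := L8 t t' hlt'; omega
    · subst heq'; exact ⟨rfl, by omega⟩
    · have := L8 t' t hgt; omega
  let L : Lvl := ⟨h, lpos h N' r T + e, lpos h N' r T, e, lay h T N' r w,
    fun m x => lpos h N' r (tx m x) + yx m x, T, lpos h N' r, z, b⟩
  have hh2 : h + 2 ≤ lpos h N' r T := by unfold lpos; omega
  have hepos : 16 * (h + 2) ≤ e := hCe
  refine ⟨L, ?_⟩
  refine { 
    len_eq := rfl
    e_ge := ?_
    start_ones := fun u hu => L1 u hu
    start_zero := L2
    h_lt := ?_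
    last := ?_
    norun := ?_
    h_ge := ?_
    h_mod := hh
    len_big := ?_
    h_mono := fun i hi => hhf i hi
    len_ge := ?_
    zone_lt := fun t ht => (hz t ht).1
    piece_left := ?_
    piece_right := ?_
    piece_prev := ?_
    piece_disj := ?_
    piece_clean := ?_
    nest := ?_
    q_piece := ?_
    q_inj := ?_
    q_free := ?_
    q_ones := ?_
    gap := ?_
    slot := ?_
    sep := ?_
    mult := ?_
    b_le := fun m hm => (hb m hm).2.2 }
  · show 2 ≤ e
    omega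
  · show h + 1 < lpos h N' r T
    omega
  · show lay h T N' r w (lpos h N' r T + e - 1) = false
    have h6 := L6 (e - 1)
    have h7 : lpos h N' r T + e - 1 = lpos h N' r T + (e - 1) := by omega
    rw [h7, h6]
    have h8 : e - 1 = h + (h + 1) * (C - 1) := by
      obtain ⟨C', rfl⟩ : ∃ C', C = C' + 1 := ⟨C - 1, by omega⟩
      rw [he]
      simp only [Nat.add_sub_cancel]
      have : (C' + 1) * (h + 1) = (h + (h + 1) * C') + 1 := by ring
      omega
    rw [h8, Nat.add_mul_mod_self_left, Nat.mod_eq_of_lt (by omega)]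
    simp
  · intro b hb1 _
    exact h3 h T N' r w (fun t ht => ⟨hN'1 t ht, hN'h t ht, hrh t, hlast t ht⟩) b hb1
  · show j + 10 ≤ h
    omega
  · show 2 * h + j + 20 ≤ lpos h N' r T + e
    omega
  · intro j' m hj' hm
    have := hhn j' m hj' hm
    show 2 * n j' m + j + 10 ≤ lpos h N' r T + e
    omega
  · intro t _
    show h + 2 ≤ lpos h N' r t
    unfold lpos; omega
  · intro t ht
    show lpos h N' r t + N' t ≤ lpos h N' r T
    have := hlt t ht
    omega
  · intro t ht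
    show lay h T N' r w (lpos h N' r t - 1) = false
    rcases Nat.eq_zero_or_pos t with h0 | h0
    · subst h0; exact L11
    · exact L10 t (le_of_lt ht) h0
  · intro t t' htt ht'
    show lpos h N' r t + N' t ≤ lpos h N' r t'
    have := L8 t t' htt
    omega
  · intro t ht
    exact Level_cleancongr _ _ _ _ _ _ (hN'1 t ht) (fun u hu => (L3 t ht u hu).symm) (hwc t ht)
  · intro i p hi hp1 hp2 hp3 hm
    exact hnest i p hi hp1 hp2 hp3 hm
  · intro m x hm hx
    obtain ⟨ht, hzt, γ, hγ, hwγ, hy, hav⟩ := (hq m hm).1 x hx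
    refine ⟨tx m x, ht, hzt, ?_, ?_⟩
    · show lpos h N' r (tx m x) ≤ lpos h N' r (tx m x) + yx m x
      omega
    · show lpos h N' r (tx m x) + yx m x < lpos h N' r (tx m x) + n j m
      omega
  · intro m x x' hm hx hx' heq
    obtain ⟨ht, hzt, γ, hγ, hwγ, hy, hav⟩ := (hq m hm).1 x hx
    obtain ⟨ht', hzt', γ', hγ', hwγ', hy', hav'⟩ := (hq m hm).1 x' hx'
    have h1 : yx m x < N' (tx m x) := by show _ < n j (z (tx m x)); rw [hzt]; exact hy
    have h2' : yx m x' < N' (tx m x') := by show _ < n j (z (tx m x')); rw [hzt']; exact hy'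
    obtain ⟨h3', h4'⟩ := huniq _ _ _ _ ht ht' h1 h2' heq
    exact (hq m hm).2 x x' hx hx' h3' h4'
  · intro m x i p hm hx hi hp1 hp2 hp3 hmatch hcov
    have hbi := hf i hi
    obtain ⟨ht, hzt, γ, hγ, hwγ, hy, hav⟩ := (hq m hm).1 x hx
    have hlenpos : 1 ≤ (f i).len := by have := hbi.len_big; omega
    have hp3' : p + (f i).len ≤ lpos h N' r T + C * (h + 1) := hp3
    obtain ⟨t, ht', hc1, hc2⟩ := hnest i p hi hp1 (by omega) hp2 (fun u hu _ => hmatch u hu)
    have hcov1 : p ≤ lpos h N' r (tx m x) + yx m x := hcov.1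
    have hcov2 : lpos h N' r (tx m x) + yx m x < p + (f i).len := hcov.2
    have hy' : yx m x < N' (tx m x) := by show _ < n j (z (tx m x)); rw [hzt]; exact hy
    obtain ⟨h3', h4'⟩ := huniq t (tx m x) (lpos h N' r (tx m x) + yx m x - lpos h N' r t) (yx m x) ht' ht
      (by omega) hy' (by omega)
    subst h3'
    have hNt : N' (tx m x) = n j m := by show n j (z (tx m x)) = _; rw [hzt]
    rw [hNt] at hc2
    have hav2 := (Finset.mem_filter.mp hav).2.2.2 i hi (p - lpos h N' r (tx m x)) ?_ (by omega) ?_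
    · apply hav2
      constructor
      · show p - lpos h N' r (tx m x) ≤ yx m x
        omega
      · show yx m x < p - lpos h N' r (tx m x) + (f i).len
        omega
    · rcases Nat.eq_zero_or_pos (p - lpos h N' r (tx m x)) with h0 | h0
      · exact Or.inl h0
      · right
        rw [← hwγ, ← L3 (tx m x) ht (p - lpos h N' r (tx m x) - 1) (by rw [hNt]; omega)]
        have : lpos h N' r (tx m x) + (p - lpos h N' r (tx m x) - 1) = p - 1 := by omega
        rw [this]; exact hp2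
    · intro u hu
      rw [← hwγ, ← L3 (tx m x) ht (p - lpos h N' r (tx m x) + u) (by rw [hNt]; omega)]
      have : lpos h N' r (tx m x) + (p - lpos h N' r (tx m x) + u) = p + u := by omega
      rw [this]; exact hmatch u hu
  · intro m x u hm hx hu
    obtain ⟨ht, hzt, γ, hγ, hwγ, hy, hav⟩ := (hq m hm).1 x hx
    have hNt : N' (tx m x) = n j m := by show n j (z (tx m x)) = _; rw [hzt]
    have hav1 : m ≤ yx m x := (Finset.mem_filter.mp hav).2.1
    have hav2 := (Finset.mem_filter.mp hav).2.2.1 u hu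
    refine ⟨?_, ?_⟩
    · show u < lpos h N' r (tx m x) + yx m x
      omega
    · show lay h T N' r w (lpos h N' r (tx m x) + yx m x - 1 - u) = true
      have h6 : lpos h N' r (tx m x) + yx m x - 1 - u = lpos h N' r (tx m x) + (yx m x - 1 - u) := by omega
      rw [h6, L3 (tx m x) ht _ (by rw [hNt]; omega), hwγ]
      exact hav2
  · intro m x v hm hx hv1 hv2
    obtain ⟨ht, hzt, γ, hγ, hwγ, hy, hav⟩ := (hq m hm).1 x hx
    have hAm := hz (tx m x) ht
    rw [hzt] at hAm
    have hB : A (m + 1) ≤ T := by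
      by_contra hcon
      rw [not_le] at hcon
      have h6 := hz' m hm (A (m + 1) - 1) (by omega) (by omega)
      omega
    obtain ⟨y, hy1, hy2, hy3, hy4⟩ := h5 h T (A m) (A (m + 1)) (n j m) N' w (hn1 m hm) hB
      (hAd (m + 1) (by omega)) (fun t ht1 ht2 => by
        show n j (z t) = _; rw [(hz' m hm t ht1 ht2).2]) (tx m x) (yx m x) v hAm.2.1 hAm.2.2 hy hv1 hv2
    refine ⟨y, hy1, hy2, ?_, hy4⟩
    show y + 4 * v ≤ lpos h N' r T + e
    have : y + 4 * v ≤ lpos h N' r T := hy3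
    omega
  · intro u hu
    have hu' : u < C * (h + 1) := hu
    have hdm := Nat.div_add_mod u (h + 1)
    have hmod := Nat.mod_lt u (show 0 < h + 1 by omega)
    have hdiv : u / (h + 1) < C := Nat.div_lt_of_lt_mul (by rw [mul_comm]; exact hu')
    have hcomm : (h + 1) * (u / (h + 1)) = (u / (h + 1)) * (h + 1) := mul_comm _ _
    refine ⟨lpos h N' r T + (u / (h + 1)) * (h + 1), ?_, ?_, ?_, ?_⟩
    · show lpos h N' r T + (u / (h + 1)) * (h + 1) ≤ lpos h N' r T + u
      omega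
    · show lpos h N' r T + u ≤ lpos h N' r T + (u / (h + 1)) * (h + 1) + h
      omega
    · show lpos h N' r T + (u / (h + 1)) * (h + 1) + h < lpos h N' r T + C * (h + 1)
      have h6 : (u / (h + 1) + 1) * (h + 1) ≤ C * (h + 1) := Nat.mul_le_mul_right _ hdiv
      have h7 : (u / (h + 1) + 1) * (h + 1) = (u / (h + 1)) * (h + 1) + (h + 1) := by ring
      omega
    · intro v hv
      show lay h T N' r w (lpos h N' r T + (u / (h + 1)) * (h + 1) + v) = true
      rw [add_assoc, L6]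
      have h6 : (u / (h + 1) * (h + 1) + v) % (h + 1) = v := by
        have h0 : v < h + 1 := Nat.lt_succ_of_lt hv
        rw [Nat.mul_comm, Nat.mul_add_mod, Nat.mod_eq_of_lt h0]
      rw [h6]
      simp only [ne_eq, decide_not, Bool.not_eq_eq_eq_not, Bool.not_true, decide_eq_false_iff_not]
      exact Nat.ne_of_lt hv
  · show 8 * lpos h N' r T ≤ 8 * ∑ t ∈ Finset.range T, n j (z t) + e
    refine h8 h (k j) T e (n j) b A z (fun m => (cleanW f j (n j m)).card) hA0 hAK hAs hz hz' ?_ hCe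
    intro m hm
    refine ⟨?_, (hb m hm).2.2, hnc m hm⟩
    calc (cleanW f j (n j m)).card ≤ (Finset.univ : Finset (Fin (n j m) → Bool)).card :=
          Finset.card_le_card (Finset.subset_univ _)
      _ = 2 ^ n j m := by simp
  · intro m hm γ
    show ((Finset.range T).filter (fun t => z t = m ∧
      ∀ u : Fin (n j m), lay h T N' r w (lpos h N' r t + u) = γ u)).card ≤ b m
    have hsub : (Finset.range T).filter (fun t => z t = m ∧
      ∀ u : Fin (n j m), lay h T N' r w (lpos h N' r t + u) = γ u) ⊆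
      (Finset.range T).filter (fun t => z t = m ∧ ∀ u : Fin (n j m), w t u = γ u) := by
      intro t ht
      rw [Finset.mem_filter] at ht ⊢
      refine ⟨ht.1, ht.2.1, fun u => ?_⟩
      rw [← ht.2.2 u, L3 t (Finset.mem_range.mp ht.1) u]
      show (u : ℕ) < n j (z t)
      rw [ht.2.1]; exact u.2
    refine (Finset.card_le_card hsub).trans ?_
    by_cases hγ : γ ∈ cleanW f j (n j m)
    · exact (hwm m hm γ hγ).le
    · have : (Finset.range T).filter (fun t => z t = m ∧ ∀ u : Fin (n j m), w t u = γ u) = ∅ := by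
        apply Finset.filter_eq_empty_iff.mpr
        intro t ht hcon
        obtain ⟨hzt, hwt⟩ := hcon
        obtain ⟨γ', hγ', hwγ'⟩ := hw t (Finset.mem_range.mp ht)
        subst hzt
        apply hγ
        have : γ = γ' := by
          funext u
          rw [← hwt u, hwγ' u]
          unfold ext
          have hu := u.2
          rw [dif_pos ⟨by positivity, by exact_mod_cast hu⟩]
          congr 1
        rw [this]; exact hγ'
      rw [this]; simp

/-- see the docstring of `S_level` for the proof -/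
theorem pf_level (h1 : S_count) (h2 : S_lay) (h3 : S_laynorun) (h4 : S_laynest) (h5 : S_laygap) (h6 : S_dist) (h7 : S_choose) (h8 : S_sepb) (h9 : S_qsel) : S_level := by
  classical
  obtain ⟨N₁, hN₁⟩ := h1
  refine ⟨fun m => max (N₁ m) (2 ^ (4 * m + 40)), ?_⟩
  intro k n hk hn j f hf
  have hn1 : ∀ m < k j, 1 ≤ n j m := fun m hm =>
    le_trans Nat.one_le_two_pow (le_trans (le_max_right _ _) (hn j m hm))
  have hnc : ∀ m < k j, 2 ^ (2 * m + 12) * (4 * Nat.clog 2 (n j m) + 5) ≤ n j m := fun m hm =>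
    Level_clog m _ (le_trans (le_max_right _ _) (hn j m hm))
  have hfB : ∀ i < j, Basic i (f i) := fun i hi => (hf i hi).toBasic
  set B0 : ℕ := ∑ i ∈ Finset.range j, ((f i).h + 1) +
    ∑ j' ∈ Finset.range (j + 1), ∑ m ∈ Finset.range (k j'), (2 * n j' m + j + 20) + (j + 20) with hB0
  set h : ℕ := 4 * B0 + 2 with hh
  have hh4 : h % 4 = 2 := by omega
  have hhf : ∀ i < j, (f i).h < h := by
    intro i hi
    have h1 : (f i).h + 1 ≤ ∑ i ∈ Finset.range j, ((f i).h + 1) :=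
      Finset.single_le_sum (f := fun i => (f i).h + 1) (fun _ _ => Nat.zero_le _) (Finset.mem_range.mpr hi)
    omega
  have hhn : ∀ j' m, j' ≤ j → m < k j' → 2 * n j' m + j + 20 ≤ h := by
    intro j' m hj' hm
    have h1 : 2 * n j' m + j + 20 ≤ ∑ m ∈ Finset.range (k j'), (2 * n j' m + j + 20) :=
      Finset.single_le_sum (f := fun m => 2 * n j' m + j + 20) (fun _ _ => Nat.zero_le _)
        (Finset.mem_range.mpr hm)
    have h2 : ∑ m ∈ Finset.range (k j'), (2 * n j' m + j + 20) ≤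
        ∑ j' ∈ Finset.range (j + 1), ∑ m ∈ Finset.range (k j'), (2 * n j' m + j + 20) :=
      Finset.single_le_sum (f := fun j' => ∑ m ∈ Finset.range (k j'), (2 * n j' m + j + 20))
        (fun _ _ => Nat.zero_le _) (Finset.mem_range.mpr (by omega))
    omega
  have hhj : j + 20 ≤ h := by omega
  set a : ℕ → ℕ := fun m => ∑ γ ∈ cleanW f j (n j m), (avail f j m γ).card with ha
  have hcnt : ∀ m < k j, n j m * 2 ^ n j m ≤ 2 ^ (m + 4) * a m := fun m hm =>
    hN₁ f j m (n j m) hfB (le_trans (le_max_left _ _) (hn j m hm))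
  obtain ⟨C, b, hC, hCe, hb⟩ := h7 (k j) h (n j) a (fun m hm => ⟨hn1 m hm, hcnt m hm⟩)
  have hne : ∀ m < k j, (cleanW f j (n j m)).Nonempty := by
    intro m hm
    by_contra hcon
    rw [Finset.not_nonempty_iff_eq_empty] at hcon
    have h1 : a m = 0 := by rw [ha]; simp only; rw [hcon]; simp
    have h2 := hcnt m hm
    rw [h1] at h2
    have h3 : 0 < n j m * 2 ^ n j m := Nat.mul_pos (hn1 m hm) (by positivity)
    omega
  obtain ⟨T, A, z, w, hA0, hAK, hAs, hAd, hz, hz', hw, hwm⟩ := h6 h (k j) (n j) b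
    (fun m => cleanW f j (n j m)) (fun m hm => ⟨hne m hm, (hb m hm).1, (hb m hm).2.1⟩)
  obtain ⟨tx, yx, hq⟩ := h9 (k j) T (C * (h + 1)) (n j) b z w (fun m => cleanW f j (n j m))
    (fun m γ => avail f j m γ) hw hwm (fun m hm => (hb m hm).2.2.1)
  exact Level_good h2 h3 h4 h5 h8 k n j f hfB h C T b A z w tx yx hh4 hhf hhn hhj hn1 hnc hC hCe
    (fun m hm => ⟨(hb m hm).1, (hb m hm).2.1, (hb m hm).2.2.2⟩) hA0 hAK hAs hAd hz hz' hw hwm hq

end Pool.Agent.Lib.MP_8d5788_an
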