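import Pool.Agent.Lib.MP_8d5788_an.Stmts

set_option autoImplicit false
open MeasureTheory

namespace Pool.Agent.Lib.MP_8d5788_an

/-- see the docstring of `S_loccont` for the proof -/
theorem pf_loccont  : S_loccont := by
  intro α β _ _ _ _ f x h
  rw [continuousAt_pi]
  intro y
  obtain ⟨W, hW⟩ := h y
  have hev : ∀ᶠ x' in nhds x, ∀ v ∈ Finset.Icc (y - W) (y + W), x' v = x v := by
    rw [Filter.eventually_all_finset]
    intro v _
    exact (continuous_apply v).continuousAt.eventually
      ((isOpen_discrete {x v}).mem_nhds (Set.mem_singleton _))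
  have hev2 : (fun _ => f x y) =ᶠ[nhds x] (fun x' => f x' y) := by
    filter_upwards [hev] with x' hx'
    refine (hW x' fun v hv => hx' v ?_).symm
    rw [Finset.mem_Icc]
    rw [abs_le] at hv
    constructor <;> linarith [hv.1, hv.2]
  exact continuousAt_const.congr hev2

end Pool.Agent.Lib.MP_8d5788_an
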