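import Pool.Agent.Lib.MP_8d5788_an.Stmts

set_option autoImplicit false
open MeasureTheory

namespace Pool.Agent.Lib.MP_8d5788_an

/-- the finite sequence with index `j` -/
def Main_sg (j : ℕ) : List ℕ :=
  (Denumerable.ofNat (ℕ × ℕ × List ℕ) j).1 :: (Denumerable.ofNat (ℕ × ℕ × List ℕ) j).2.1 ::
    (Denumerable.ofNat (ℕ × ℕ × List ℕ) j).2.2

theorem Main_sg_len (j : ℕ) : 2 ≤ (Main_sg j).length := by
  simp [Main_sg]

theorem Main_sg_surj (l : List ℕ) (hl : 2 ≤ l.length) : ∃ j, Main_sg j = l := by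
  obtain ⟨a, b, l', rfl⟩ : ∃ a b l', l = a :: b :: l' := by
    match l, hl with
    | a :: b :: l', _ => exact ⟨a, b, l', rfl⟩
  refine ⟨Encodable.encode (a, b, l'), ?_⟩
  simp [Main_sg, Denumerable.ofNat_encode]

/-- the set of active levels -/
def Main_J (T : (ℕ → ℕ) → Set (List ℕ)) (x : ℕ → ℕ) : Set ℕ :=
  {j | ¬ ∃ τ ∈ T x, τ.length = (Main_sg j).length ∧
    ∀ i < (Main_sg j).length, τ.getD i 0 ≤ (Main_sg j).getD i 0}

theorem Main_finite (L : ℕ) (s : List ℕ) :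
    {τ : List ℕ | τ.length = L ∧ ∀ i < L, τ.getD i 0 ≤ s.getD i 0}.Finite := by
  have hfin : (Set.range (fun f : (i : Fin L) → Fin (s.getD i 0 + 1) =>
      List.ofFn (fun i => ((f i : ℕ))))).Finite := Set.finite_range _
  refine hfin.subset ?_
  rintro τ ⟨h1, h2⟩
  refine ⟨fun i => ⟨τ.getD i 0, Nat.lt_succ_of_le (h2 i i.2)⟩, ?_⟩
  apply List.ext_getElem
  · simp [h1]
  · intro i hi hi'
    simp only [List.getElem_ofFn]
    rw [List.getD_eq_getElem?_getD, List.getElem?_eq_getElem hi']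
    rfl

theorem Main_clopen (T : (ℕ → ℕ) → Set (List ℕ)) (hT : ∀ τ, IsClopen {x | τ ∈ T x}) (j : ℕ) :
    IsClopen {x | j ∈ Main_J T x} := by
  have h1 : {x | j ∈ Main_J T x}ᶜ = ⋃ τ ∈ {τ : List ℕ | τ.length = (Main_sg j).length ∧
      ∀ i < (Main_sg j).length, τ.getD i 0 ≤ (Main_sg j).getD i 0}, {x | τ ∈ T x} := by
    ext x
    simp only [Set.mem_compl_iff, Set.mem_ofPred_eq, Main_J, not_not, Set.mem_iUnion, exists_prop]
    constructor
    · rintro ⟨τ, h2, h3⟩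
      exact ⟨τ, h3, h2⟩
    · rintro ⟨τ, h3, h2⟩
      exact ⟨τ, h2, h3⟩
  rw [← isClopen_compl_iff, h1]
  exact (Main_finite _ _).isClopen_biUnion (fun τ _ => hT τ)

/-- from a branch to a finitary isomorphism -/
theorem Main_suff (h2 : S_suff) (N₀ : ℕ → ℕ) (T : (ℕ → ℕ) → Set (List ℕ))
    (S : Sys (fun j => (Main_sg j).length) (fun j m => N₀ m + (Main_sg j).getD m 0)) (x z : ℕ → ℕ)
    (hz : ∀ N, List.ofFn (fun i : Fin N => z i) ∈ T x) : FinIso (S.mu (Main_J T x)) lam2 := by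
  classical
  have key : ∀ j ∈ Main_J T x, ∃ m, m < (Main_sg j).length ∧ (Main_sg j).getD m 0 < z m := by
    intro j hj
    by_contra hcon
    push Not at hcon
    refine hj ⟨_, hz (Main_sg j).length, by simp, fun i hi => ?_⟩
    refine le_trans (le_of_eq ?_) (hcon i hi)
    rw [List.getD_eq_getElem?_getD, List.getElem?_eq_getElem (by simpa using hi)]
    simp
  choose! M hM1 hM2 using key
  refine h2 _ _ S _ M (fun m => N₀ m + z m) fun j hj => ⟨hM1 j hj, ?_⟩
  exact Nat.add_le_add_left (hM2 j hj).le _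

/-- from a finitary isomorphism to a branch -/
theorem Main_nec (h3 : S_nec) (h4 : S_vsmall) (h5 : S_mush) (h8 : S_konig) (N₀ : ℕ → ℕ)
    (T : (ℕ → ℕ) → Set (List ℕ)) (hT : ∀ x τ τ', τ' <+: τ → τ ∈ T x → τ' ∈ T x)
    (S : Sys (fun j => (Main_sg j).length) (fun j m => N₀ m + (Main_sg j).getD m 0)) (x : ℕ → ℕ)
    (h : FinIso (S.mu (Main_J T x)) lam2) :
    ∃ z : ℕ → ℕ, ∀ N, List.ofFn (fun i : Fin N => z i) ∈ T x := by
  obtain ⟨X₀, Y₀, φ, ψ, hX₀, -, -, -, -, -, hφc, -, hφe, -, hφm, -⟩ := h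
  obtain ⟨hprob, hsh⟩ := h5 _ _ S (Main_J T x)
  have := hprob
  obtain ⟨X, hX1, hX2, hX3⟩ := h4 Sym (Bool × Bool) (S.mu (Main_J T x)) hsh X₀ φ hX₀ hφc hφe
  have h6 : ∀ m : ℕ, ∃ N₁ : ℕ, ∀ N ≥ N₁, ∑ w : Fin N → Sym,
      (und X φ w : ℝ) * (S.mu (Main_J T x)).real (cyl w) ≤ (2⁻¹ : ℝ) ^ (2 * m + 13) * N :=
    fun m => hX3 _ (by positivity)
  choose σ hσ using h6
  refine h8 (T x) σ (fun τ τ' h7 h9 => hT x τ τ' h7 h9) fun N => ?_
  refine ⟨max N 2, le_max_left _ _, ?_⟩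
  obtain ⟨L, hL⟩ : ∃ L, L = max N 2 := ⟨_, rfl⟩
  rw [← hL]
  have hL2 : 2 ≤ L := by rw [hL]; exact le_max_right _ _
  obtain ⟨j, hj⟩ := Main_sg_surj (List.ofFn (fun i : Fin L => σ i)) (by simpa using hL2)
  have hlen : (Main_sg j).length = L := by rw [hj]; simp
  have hget : ∀ m < L, (Main_sg j).getD m 0 = σ m := by
    intro m hm
    rw [hj, List.getD_eq_getElem?_getD, List.getElem?_eq_getElem (by simpa using hm)]
    simp
  have hnot : j ∉ Main_J T x := by
    intro hjJ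
    refine h3 _ _ S (Main_J T x) X φ hX1 hφm hX2 j hjJ fun m hm => ?_
    have hm' : m < L := by rw [← hlen]; exact hm
    refine hσ m _ ?_
    show σ m ≤ N₀ m + (Main_sg j).getD m 0
    rw [hget m hm']
    exact Nat.le_add_left _ _
  have hyes : ∃ τ ∈ T x, τ.length = (Main_sg j).length ∧
      ∀ i < (Main_sg j).length, τ.getD i 0 ≤ (Main_sg j).getD i 0 := by
    by_contra hcon
    exact hnot hcon
  obtain ⟨τ, h7, h9, h10⟩ := hyes
  rw [hlen] at h9 h10
  refine ⟨τ, h7, h9, fun i hi => ?_⟩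
  rw [← hget i hi]
  exact h10 i hi

/-- G2. The frozen statement from the pieces.
Proof.  `N₀` from `S_sys`.  `sg j : List ℕ` := `a :: b :: l` where `(a, b, l) = Denumerable.ofNat (ℕ × ℕ × List ℕ) j`,
`k j = (sg j).length` (`≥ 2`), `n j m = N₀ m + (sg j).getD m 0`; `S : Sys k n`.  `T` from `S_tree`.
`J x = {j | ¬ ∃ τ ∈ T x, τ.length = k j ∧ ∀ i < k j, τ.getD i 0 ≤ (sg j).getD i 0}`; `{x | j ∈ J x}` is clopen (finitely
many `τ`).  `P x : ProbabilityMeasure (ℤ → Sym)` with `P x = mu (J x)` (S_mush), continuous by S_mucont.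
Claim: `FinIso (mu (J x)) lam2 ↔ ∃ z, ∀ N, List.ofFn (fun i : Fin N => z i) ∈ T x`.
(←) For `j ∈ J x` the list `τ = ofFn z` of length `k j` is in `T x`, so it is not bounded by `sg j`: there is
`m < k j` with `(sg j).getD m 0 < z m`; let `M j` be such an `m` (`0` for `j ∉ J x`), `f m = N₀ m + z m`;
`n j (M j) ≤ f (M j)`; S_suff.
(→) From `FinIso` take `X₀, φ`; S_vsmall gives `X`; choose `σ m` with
`∑ w : Fin N → Sym, und X φ w * μ(cyl w) ≤ 2^{-(2m+13)} N` for all `N ≥ σ m`, in particular for `N = N₀ m + σ m`.  For every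
`L ≥ 2` let `j` be the index with `sg j = [σ 0, …, σ (L-1)]` (every list of length `≥ 2` is some `sg j`); S_nec shows
`j ∉ J x`, so there is `τ ∈ T x` of length `L`, bounded by `σ`; S_konig gives the branch.
Finally take `a = 32`, `b = 4`, bijections `e : Sym ≃ Fin 32`, `e' : Bool × Bool ≃ Fin 4`,
`p = (coin.prod coin).map e'`, so `infinitePi p = map (fun y z => e' (y z)) lam2` (`infinitePi_map_pi`).  If the frozen set
`F` is Borel, its preimage under the continuous map `x ↦ (P x).map (fun y z => e (y z))` (`ProbabilityMeasure.continuous_map`) is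
Borel; by S_mush, S_transp and the claim it is `{x | ∃ z, ∀ N, …}`, contradicting S_tree. -/
theorem main (h1 : S_transp) (h2 : S_suff) (h3 : S_nec) (h4 : S_vsmall) (h5 : S_mush) (h6 : S_mucont)
    (h7 : S_tree) (h8 : S_konig) (h9 : S_sys) :
    ¬ (∀ (a b : ℕ) (p : ProbabilityMeasure (Fin b)),
    MeasurableSet[borel (ProbabilityMeasure (ℤ → Fin a))]
      {μ : ProbabilityMeasure (ℤ → Fin a) |
        Measure.map (fun x : ℤ → Fin a => fun n => x (n + 1)) (μ : Measure (ℤ → Fin a))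
            = (μ : Measure (ℤ → Fin a)) ∧
        ∃ (X₀ : Set (ℤ → Fin a)) (Y₀ : Set (ℤ → Fin b))
          (φ : (ℤ → Fin a) → (ℤ → Fin b)) (ψ : (ℤ → Fin b) → (ℤ → Fin a)),
          (μ : Measure (ℤ → Fin a)) X₀ᶜ = 0 ∧
          Measure.infinitePi (fun _ : ℤ => (p : Measure (Fin b))) Y₀ᶜ = 0 ∧
          Set.MapsTo φ X₀ Y₀ ∧ Set.MapsTo ψ Y₀ X₀ ∧
          Set.LeftInvOn ψ φ X₀ ∧ Set.LeftInvOn φ ψ Y₀ ∧
          ContinuousOn φ X₀ ∧ ContinuousOn ψ Y₀ ∧
          (∀ x ∈ X₀, φ (fun n => x (n + 1)) = fun n => φ x (n + 1)) ∧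
          (∀ y ∈ Y₀, ψ (fun n => y (n + 1)) = fun n => ψ y (n + 1)) ∧
          Measure.map φ (μ : Measure (ℤ → Fin a))
            = Measure.infinitePi (fun _ : ℤ => (p : Measure (Fin b))) ∧
          Measure.map ψ (Measure.infinitePi (fun _ : ℤ => (p : Measure (Fin b))))
            = (μ : Measure (ℤ → Fin a))}) := by
  intro H
  obtain ⟨N₀, hsys⟩ := h9
  obtain ⟨S⟩ := hsys (fun j => (Main_sg j).length) (fun j m => N₀ m + (Main_sg j).getD m 0)
    Main_sg_len (fun j m _ => Nat.le_add_right _ _)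
  obtain ⟨T, hTc, hTp, hTn⟩ := h7
  have hclaim : ∀ x, FinIso (S.mu (Main_J T x)) lam2 ↔
      ∃ z : ℕ → ℕ, ∀ N, List.ofFn (fun i : Fin N => z i) ∈ T x :=
    fun x => ⟨Main_nec h3 h4 h5 h8 N₀ T hTp S x, fun ⟨z, hz⟩ => Main_suff h2 N₀ T S x z hz⟩
  let P : (ℕ → ℕ) → ProbabilityMeasure (ℤ → Sym) :=
    fun x => ⟨S.mu (Main_J T x), (h5 _ _ S (Main_J T x)).1⟩
  have hPc : Continuous P := h6 _ _ S (Main_J T) (Main_clopen T hTc) P (fun x => rfl)
  let e : Sym ≃ Fin 32 := Fintype.equivFinOfCardEq (by decide)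
  let e' : Bool × Bool ≃ Fin 4 := Fintype.equivFinOfCardEq (by decide)
  have he'm : Measurable e' := measurable_of_finite _
  have hprob : IsProbabilityMeasure (Measure.map e' (coin.prod coin)) :=
    Measure.isProbabilityMeasure_map he'm.aemeasurable
  let p : ProbabilityMeasure (Fin 4) := ⟨Measure.map e' (coin.prod coin), hprob⟩
  have hν : Measure.infinitePi (fun _ : ℤ => (p : Measure (Fin 4))) =
      Measure.map (fun (y : ℤ → Bool × Bool) (z : ℤ) => e' (y z)) lam2 := by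
    unfold lam2
    rw [Measure.infinitePi_map_pi (μ := fun _ : ℤ => coin.prod coin) (f := fun _ => e')
      (fun _ => he'm)]
    rfl
  have hEc : Continuous (fun (y : ℤ → Sym) (z : ℤ) => e (y z)) :=
    continuous_pi fun z => continuous_of_discreteTopology.comp (continuous_apply z)
  let g : (ℕ → ℕ) → ProbabilityMeasure (ℤ → Fin 32) :=
    fun x => ProbabilityMeasure.map (P x) hEc.measurable.aemeasurable
  have hgc : Continuous g := (ProbabilityMeasure.continuous_map hEc).comp hPc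
  have hgm : @Measurable _ _ _ (borel (ProbabilityMeasure (ℤ → Fin 32))) g := by
    have hb : @BorelSpace (ProbabilityMeasure (ℤ → Fin 32)) _
        (borel (ProbabilityMeasure (ℤ → Fin 32))) :=
      @BorelSpace.mk _ _ (borel (ProbabilityMeasure (ℤ → Fin 32))) rfl
    exact @Continuous.measurable _ _ _ _ _ _ (borel (ProbabilityMeasure (ℤ → Fin 32))) hb g hgc
  apply hTn
  have hF := H 32 4 p
  have hpre := hgm hF
  convert hpre using 1
  ext x
  rw [Set.mem_ofPred_eq, ← hclaim x, h1 Sym (Bool × Bool) (Fin 32) (Fin 4) e e']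
  rw [← hν, Set.mem_preimage]
  constructor
  · intro h10
    refine ⟨?_, h10⟩
    have hsh := (h5 _ _ S (Main_J T x)).2
    have hgx : ((g x : ProbabilityMeasure (ℤ → Fin 32)) : Measure (ℤ → Fin 32)) =
        Measure.map (fun (y : ℤ → Sym) (z : ℤ) => e (y z)) (S.mu (Main_J T x)) := rfl
    rw [hgx, Measure.map_map (by fun_prop) hEc.measurable]
    have hshm : Measurable (sh : (ℤ → Sym) → (ℤ → Sym)) := by
      unfold sh
      fun_prop
    conv_rhs => rw [← hsh, Measure.map_map hEc.measurable hshm]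
    rfl
  · rintro ⟨_, h10⟩
    exact h10

end Pool.Agent.Lib.MP_8d5788_an
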