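import Pool.Agent.Lib.MP_8d5788_an.Stmts

set_option autoImplicit false
open MeasureTheory

namespace Pool.Agent.Lib.MP_8d5788_an

section
variable {k : ℕ → ℕ} {n : ℕ → ℕ → ℕ} (S : Sys k n)

theorem Many_disj (j t t' p : ℕ) (ht : t < S.T j) (ht' : t' < S.T j)
    (h1 : S.c j t ≤ p) (h2 : p < S.c j t + n j (S.z j t))
    (h3 : S.c j t' ≤ p) (h4 : p < S.c j t' + n j (S.z j t')) : t = t' := by
  rcases lt_trichotomy t t' with h | h | h
  · have := S.piece_disj j t t' h ht'; omega
  · exact h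
  · have := S.piece_disj j t' t h ht; omega

theorem Many_qlt (j m x : ℕ) (hm : m < k j) (hx : x < 2 * S.e j) : S.q j m x < S.s j := by
  obtain ⟨t, ht, hz, h1, h2⟩ := S.q_piece j m x hm hx
  have := S.piece_right j t ht
  rw [hz] at this
  omega

theorem Many_qne (j m x x' : ℕ) (hm : m < k j) (hm0 : m ≠ 0) (hx : x < 2 * S.e j) (hx' : x' < 2 * S.e j) :
    S.q j m x ≠ S.q j 0 x' := by
  intro heq
  have hk := S.k_ge j
  obtain ⟨t, ht, hz, h1, h2⟩ := S.q_piece j m x hm hx
  obtain ⟨t', ht', hz', h1', h2'⟩ := S.q_piece j 0 x' (by omega) hx'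
  have := Many_disj S j t t' (S.q j m x) ht ht' h1 (by rw [hz]; exact h2) (by rw [heq]; exact h1')
    (by rw [heq, hz']; exact h2')
  subst this
  exact hm0 (hz.symm.trans hz')

theorem Many_lvl (j : ℕ) (t t' : ℤ → Bool)
    (h : ∀ y : ℕ, y < S.s j → (∀ x < 2 * S.e j, y ≠ S.q j 0 x) → t y = t' y) (y : ℕ) (hy : y < S.s j) :
    S.lvl j t y = S.lvl j t' y := by
  classical
  unfold Sys.lvl
  by_cases hp : ∃ x, x < 2 * S.e j ∧ (y : ℤ) = S.q j 0 x
  · rw [dif_pos hp, dif_pos hp]
    apply Finset.sum_congr rfl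
    intro m hm
    rw [Finset.mem_erase, Finset.mem_range] at hm
    apply h
    · exact Many_qlt S j m _ hm.2 hp.choose_spec.1
    · intro x hx
      exact Many_qne S j m _ x hm.2 hm.1 hp.choose_spec.1 hx
  · rw [dif_neg hp, dif_neg hp]
    apply h y hy
    intro x hx heq
    exact hp ⟨x, hx, by exact_mod_cast heq⟩

end

/-- see the docstring of `S_many` for the proof -/
theorem pf_many (h1 : S_det) (h2 : S_LDpiece) (h3 : S_lamcyl) : S_many := by
  classical
  intro k n S J X φ hX hφ heqv j hj τ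
  have hk := S.k_ge j
  -- sets of positions
  set Gs : Finset ℤ := insert (-1) ((Finset.range (S.len j)).image (fun u : ℕ => (u : ℤ))) with hGs
  set gv : ℤ → Bool := fun y => if y < 0 then false else S.V j y.toNat with hgv
  set Q0 : Finset ℤ := (Finset.range (2 * S.e j)).image (fun x => (S.q j 0 x : ℤ)) with hQ0
  set Ts : Finset ℤ := ((Finset.range (S.s j)).image (fun u : ℕ => (u : ℤ))) \ Q0 with hTs
  have hcardG : Gs.card = 1 + S.len j := by
    rw [hGs, Finset.card_insert_of_notMem, Finset.card_image_of_injective _ Nat.cast_injective,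
      Finset.card_range, add_comm]
    simp only [Finset.mem_image, not_exists, not_and]
    intro x _ hx
    have : (0 : ℤ) ≤ x := Int.natCast_nonneg x
    omega
  have hcardQ : Q0.card = 2 * S.e j := by
    rw [hQ0, Finset.card_image_of_injOn, Finset.card_range]
    intro x hx x' hx' heq
    simp only [Finset.coe_range, Set.mem_Iio] at hx hx'
    simp only [Nat.cast_inj] at heq
    exact S.q_inj j 0 x x' (by omega) hx hx' heq
  have hQsub : Q0 ⊆ (Finset.range (S.s j)).image (fun u : ℕ => (u : ℤ)) := by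
    intro y hy
    rw [hQ0, Finset.mem_image] at hy
    obtain ⟨x, hx, rfl⟩ := hy
    rw [Finset.mem_image]
    exact ⟨S.q j 0 x, Finset.mem_range.mpr (Many_qlt S j 0 x (by omega) (Finset.mem_range.mp hx)), rfl⟩
  have hcardI : ((Finset.range (S.s j)).image (fun u : ℕ => (u : ℤ))).card = S.s j := by
    rw [Finset.card_image_of_injective _ Nat.cast_injective, Finset.card_range]
  have hcardT : Ts.card = S.s j - 2 * S.e j := by
    rw [hTs, Finset.card_sdiff_of_subset hQsub, hcardI, hcardQ]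
  have hs2e : 2 * S.e j ≤ S.s j := by
    rw [← hcardQ, ← hcardI]; exact Finset.card_le_card hQsub
  set E : Set ((ℤ → Bool) × (ℤ → Bool)) :=
    {g | ∀ y ∈ Gs, g y = gv y} ×ˢ {t | ∀ y ∈ Ts, t y = ext τ y} with hE
  have hEm : (2⁻¹ : ENNReal) ^ ((1 + S.len j) + (S.s j - 2 * S.e j)) ≤ (lam.prod lam) E := by
    rw [hE, Measure.prod_prod, h3 Gs gv, h3 Ts (ext τ), hcardG, hcardT, pow_add]
  have hOcc : ∀ p ∈ E, S.Occ p.1 j 0 := by
    intro p hp
    have hp1 : ∀ y ∈ Gs, p.1 y = gv y := hp.1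
    refine ⟨?_, ?_⟩
    · have := hp1 (-1) (Finset.mem_insert_self _ _)
      simp only [zero_sub]
      rw [this, hgv]; simp
    · intro u hu
      have := hp1 (u : ℤ) (Finset.mem_insert_of_mem (Finset.mem_image.mpr ⟨u, Finset.mem_range.mpr hu, rfl⟩))
      rw [zero_add, this, hgv]
      simp
  have hLv : ∀ p ∈ E, ∀ y : ℕ, y < S.s j → S.lvl j p.2 y = S.lvl j (ext τ) y := by
    intro p hp y hy
    apply Many_lvl S j p.2 (ext τ) _ y hy
    intro y' hy' hne
    have hp2 : ∀ y ∈ Ts, p.2 y = ext τ y := hp.2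
    apply hp2
    rw [hTs, Finset.mem_sdiff]
    refine ⟨Finset.mem_image.mpr ⟨y', Finset.mem_range.mpr hy', rfl⟩, ?_⟩
    intro hcon
    rw [hQ0, Finset.mem_image] at hcon
    obtain ⟨x, hx, hxe⟩ := hcon
    exact hne x (Finset.mem_range.mp hx) (by exact_mod_cast hxe.symm)
  set W : ∀ t' : ℕ, Fin (n j (S.z j t')) → Sym := fun t' =>
    S.LD J j (fun v : Fin (n j (S.z j t')) => S.V j (S.c j t' + v))
      (fun v : Fin (n j (S.z j t')) => S.lvl j (ext τ) ((S.c j t' : ℤ) + (v : ℕ))) with hW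
  have hdisp : ∀ p ∈ E, ∀ t' < S.T j, (fun m => S.Phi J (fun _ => 0) p.1 p.2 (m + (S.c j t' : ℤ))) ∈ cyl (W t') := by
    intro p hp t' ht' v
    show S.Phi J (fun _ => 0) p.1 p.2 ((v : ℕ) + (S.c j t' : ℤ)) = W t' v
    rw [add_comm, h2 k n S J j t' p.1 p.2 hj (hOcc p hp) ht' v, hW]
    congr 2
    funext v'
    have h4 := S.piece_right j t' ht'
    have h5 := v'.2
    have := hLv p hp (S.c j t' + v') (by omega)
    push_cast at this
    exact this
  set Dt : ∀ t' : ℕ, Finset ℤ := fun t' =>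
    (Finset.univ.filter (fun v : Fin (n j (S.z j t')) => Det X φ (W t') v)).image
      (fun v : Fin (n j (S.z j t')) => (S.c j t' : ℤ) + (v : ℕ)) with hDt
  set D : Finset ℤ := (Finset.range (S.T j)).biUnion Dt with hD
  have hcardDt : ∀ t', (Dt t').card + und X φ (W t') = n j (S.z j t') := by
    intro t'
    rw [hDt]
    simp only
    rw [Finset.card_image_of_injective]
    · unfold und
      have := Finset.card_filter_add_card_filter_not (s := (Finset.univ : Finset (Fin (n j (S.z j t')))))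
        (fun v => Det X φ (W t') v)
      rw [this]; simp
    · intro v v' hvv
      simp only at hvv
      have : (v : ℕ) = (v' : ℕ) := by omega
      exact Fin.ext this
  have hcardD : D.card = ∑ t' ∈ Finset.range (S.T j), (Dt t').card := by
    rw [hD]
    apply Finset.card_biUnion
    intro t ht t' ht' hne
    rw [Finset.mem_coe, Finset.mem_range] at ht ht'
    show Disjoint (Dt t) (Dt t')
    rw [Finset.disjoint_left]
    intro y hy hy'
    rw [hDt] at hy hy'
    simp only [Finset.mem_image, Finset.mem_filter, Finset.mem_univ, true_and] at hy hy'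
    obtain ⟨v, _, hv⟩ := hy
    obtain ⟨v', _, hv'⟩ := hy'
    apply hne
    have hvv : S.c j t + v = S.c j t' + v' := by omega
    exact Many_disj S j t t' (S.c j t + v) ht ht' (by omega) (by have := v.2; omega) (by omega)
      (by have := v'.2; omega)
  obtain ⟨c, hc⟩ : ∃ c : ℤ → Bool × Bool, ∀ p ∈ E, S.Phi J (fun _ => 0) p.1 p.2 ∈ X →
      ∀ y ∈ D, φ (S.Phi J (fun _ => 0) p.1 p.2) y = c y := by
    by_cases hex : ∃ p₀ ∈ E, S.Phi J (fun _ => 0) p₀.1 p₀.2 ∈ X
    · obtain ⟨p₀, hp₀, hX₀⟩ := hex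
      refine ⟨φ (S.Phi J (fun _ => 0) p₀.1 p₀.2), ?_⟩
      intro p hp hpX y hy
      rw [hD, Finset.mem_biUnion] at hy
      obtain ⟨t', ht', hy⟩ := hy
      rw [Finset.mem_range] at ht'
      rw [hDt] at hy
      simp only [Finset.mem_image, Finset.mem_filter, Finset.mem_univ, true_and] at hy
      obtain ⟨v, hdet, rfl⟩ := hy
      obtain ⟨ha1, ha2⟩ := heqv _ hpX (S.c j t' : ℤ)
      obtain ⟨hb1, hb2⟩ := heqv _ hX₀ (S.c j t' : ℤ)
      have := hdet _ ha1 _ hb1 (hdisp p hp t' ht') (hdisp p₀ hp₀ t' ht')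
      rw [ha2, hb2] at this
      rw [add_comm]
      exact this
    · exact ⟨fun _ => (false, false), fun p hp hpX => absurd ⟨p, hp, hpX⟩ hex⟩
  have hmain := h1 k n S J X φ hX hφ E ((1 + S.len j) + (S.s j - 2 * S.e j)) D c hEm hc
  have hsum : (∑ t' ∈ Finset.range (S.T j), (Dt t').card) + ∑ t' ∈ Finset.range (S.T j), und X φ (W t') =
      ∑ t' ∈ Finset.range (S.T j), n j (S.z j t') := by
    rw [← Finset.sum_add_distrib]
    exact Finset.sum_congr rfl (fun t' _ => hcardDt t')
  have hsep := S.sep j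
  have hlen := S.len_eq j
  have hfin : 3 * S.e j ≤ 8 * ∑ t' ∈ Finset.range (S.T j), und X φ (W t') + 4 := by
    rw [hcardD] at hmain
    omega
  have hfin' : (3 * S.e j : ℝ) ≤ 8 * (∑ t' ∈ Finset.range (S.T j), (und X φ (W t') : ℝ)) + 4 := by
    exact_mod_cast hfin
  show 3 * (S.e j : ℝ) / 8 - 1 / 2 ≤ ∑ t' ∈ Finset.range (S.T j), (und X φ (W t') : ℝ)
  linarith

end Pool.Agent.Lib.MP_8d5788_an
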