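import Pool.Agent.Lib.MP_8d5788_an.Stmts

set_option autoImplicit false
open MeasureTheory

namespace Pool.Agent.Lib.MP_8d5788_an

private theorem Meas_glue {Ω β P : Type*} [MeasurableSpace Ω] [MeasurableSpace β] [Countable P]
    {f f0 : Ω → β} {A : P → Set Ω} {fp : P → Ω → β} (hA : ∀ p, MeasurableSet (A p))
    (hfp : ∀ p, Measurable (fp p)) (h0 : Measurable f0) (h1 : ∀ p, ∀ ω ∈ A p, f ω = fp p ω)
    (h2 : ∀ ω, (∀ p, ω ∉ A p) → f ω = f0 ω) : Measurable f := by
  intro s hs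
  have e : f ⁻¹' s = (⋃ p, (A p ∩ fp p ⁻¹' s)) ∪ ((⋃ p, A p)ᶜ ∩ f0 ⁻¹' s) := by
    ext ω
    simp only [Set.mem_preimage, Set.mem_union, Set.mem_iUnion, Set.mem_inter_iff,
      Set.mem_compl_iff, not_exists]
    constructor
    · intro h
      by_cases hp : ∃ p, ω ∈ A p
      · obtain ⟨p, hp⟩ := hp
        exact Or.inl ⟨p, hp, by rw [← h1 p ω hp]; exact h⟩
      · push Not at hp
        exact Or.inr ⟨hp, by rw [← h2 ω hp]; exact h⟩
    · rintro (⟨p, hp, h⟩ | ⟨hp, h⟩)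
      · rw [h1 p ω hp]
        exact h
      · rw [h2 ω hp]
        exact h
  rw [e]
  exact (MeasurableSet.iUnion fun p => (hA p).inter (hfp p hs)).union
    ((MeasurableSet.iUnion hA).compl.inter (h0 hs))

private theorem Meas_eq {Ω : Type*} [MeasurableSpace Ω] {G : Ω → ℤ → Bool} (hG : Measurable G)
    (a : ℤ) (b : Bool) : MeasurableSet {ω | G ω a = b} :=
  ((measurable_pi_apply a).comp hG) (measurableSet_singleton b)

private theorem Meas_occ {k : ℕ → ℕ} {n : ℕ → ℕ → ℕ} (S : Sys k n) {Ω : Type*} [MeasurableSpace Ω]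
    {G : Ω → ℤ → Bool} (hG : Measurable G) (J : Set ℕ) (j : ℕ) (a : ℤ) :
    MeasurableSet {ω | (j, a) ∈ S.occs J (G ω)} := by
  have e : {ω | (j, a) ∈ S.occs J (G ω)} = {_ω | j ∈ J} ∩ ({ω | G ω (a - 1) = false} ∩
      ⋂ u : ℕ, ⋂ _ : u < S.len j, {ω | G ω (a + u) = S.V j u}) := by
    ext ω
    simp only [Sys.occs, Sys.Occ, OccW, Set.mem_setOf_eq, Set.mem_inter_iff, Set.mem_iInter]
  rw [e]
  refine (MeasurableSet.const _).inter ((Meas_eq hG _ _).inter ?_)
  exact MeasurableSet.iInter fun u => MeasurableSet.iInter fun _ => Meas_eq hG _ _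

private theorem Meas_tgt {k : ℕ → ℕ} {n : ℕ → ℕ → ℕ} (S : Sys k n) {Ω : Type*} [MeasurableSpace Ω]
    {G : Ω → ℤ → Bool} (hG : Measurable G) (J : Set ℕ) (M : ℕ → ℕ) (y : ℤ) (p : ℕ × ℤ × ℕ) :
    MeasurableSet {ω | S.Tgt M (S.occs J (G ω)) y p} := by
  have e : {ω | S.Tgt M (S.occs J (G ω)) y p} = {ω | (p.1, p.2.1) ∈ S.occs J (G ω)} ∩
      {_ω | p.2.2 < 2 * S.e p.1 ∧ y = p.2.1 + S.q p.1 (M p.1) p.2.2} := rfl
  rw [e]
  exact (Meas_occ S hG J _ _).inter (MeasurableSet.const _)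

private theorem Meas_slt {k : ℕ → ℕ} {n : ℕ → ℕ → ℕ} (S : Sys k n) {Ω : Type*} [MeasurableSpace Ω]
    {G : Ω → ℤ → Bool} (hG : Measurable G) (J : Set ℕ) (y : ℤ) (p : ℕ × ℤ × ℕ) :
    MeasurableSet {ω | S.Slt (S.occs J (G ω)) y p} := by
  have e : {ω | S.Slt (S.occs J (G ω)) y p} = {ω | (p.1, p.2.1) ∈ S.occs J (G ω)} ∩
      {_ω | p.2.2 < S.e p.1 ∧ y = p.2.1 + S.s p.1 + p.2.2} := rfl
  rw [e]
  exact (Meas_occ S hG J _ _).inter (MeasurableSet.const _)

private theorem Meas_sum {Ω : Type*} [MeasurableSpace Ω] (s : Finset ℕ) (f : ℕ → Ω → Bool)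
    (hf : ∀ m, Measurable (f m)) : Measurable (fun ω => ∑ m ∈ s, f m ω) := by
  classical
  induction s using Finset.induction_on with
  | empty => simpa using (measurable_const : Measurable fun _ : Ω => (0 : Bool))
  | insert a s ha ih =>
    simp only [Finset.sum_insert ha]
    have h : Measurable (fun x : Bool × Bool => x.1 + x.2) := Measurable.of_discrete
    exact h.comp ((hf a).prodMk ih)

private theorem Meas_tuniq (h3 : S_quniq) {k : ℕ → ℕ} {n : ℕ → ℕ → ℕ} (S : Sys k n) (J : Set ℕ)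
    (M : ℕ → ℕ) (hJ : ∀ j ∈ J, M j < k j) (g : ℤ → Bool) (y : ℤ) (p p' : ℕ × ℤ × ℕ)
    (hp : S.Tgt M (S.occs J g) y p) (hp' : S.Tgt M (S.occs J g) y p') : p' = p := by
  obtain ⟨j, a, x⟩ := p
  obtain ⟨i, a', x'⟩ := p'
  obtain ⟨⟨hJ1, ho⟩, hx, hy⟩ := hp
  obtain ⟨⟨hJ2, ho'⟩, hx', hy'⟩ := hp'
  obtain ⟨e1, e2, _, e4⟩ := h3 k n S g i j (M j) (M i) x x' a a' ho ho' (hJ j hJ1) (hJ i hJ2) hx hx'
    (hy.symm.trans hy')
  subst e1 e2 e4
  rfl

/-- see the docstring of `S_meas` for the proof -/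
theorem pf_meas (h1 : S_tp) (h2 : S_ep) (h3 : S_quniq) : S_meas := by
  intro k n S J M hJ
  have hocc : ∀ g : ℤ → Bool, ∀ o ∈ S.occs J g, S.Occ g o.1 o.2 ∧ M o.1 < k o.1 :=
    fun g o ho => ⟨ho.2, hJ _ ho.1⟩
  constructor
  · rw [measurable_pi_iff]
    intro y
    refine ((measurable_pi_apply y).comp measurable_fst).prodMk (Measurable.prodMk ?_ ?_)
    · refine Meas_glue (A := fun p => {ω : (ℤ → Bool) × (ℤ → Bool) | S.Tgt M (S.occs J ω.1) y p})
        (fp := fun p ω => S.grp M ω.2 p) (f0 := fun ω => ω.2 y)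
        (fun p => Meas_tgt S measurable_fst J M y p) (fun p => ?_)
        ((measurable_pi_apply y).comp measurable_snd) ?_ ?_
      · exact Meas_sum _ (fun m (ω : (ℤ → Bool) × (ℤ → Bool)) => ω.2 (p.2.1 + S.q p.1 m p.2.2))
          (fun m => (measurable_pi_apply _).comp measurable_snd)
      · intro p ω hω
        exact h1 k n S ω.1 M (S.occs J ω.1) ω.2 y p (hocc ω.1) hω
      · intro ω hω
        unfold Sys.tp
        rw [dif_neg]
        rintro ⟨p, hp⟩
        exact hω p hp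
    · refine Meas_glue (A := fun p => {ω : (ℤ → Bool) × (ℤ → Bool) | S.Slt (S.occs J ω.1) y p})
        (fp := fun p ω => (true, ω.2 (p.2.1 + S.q p.1 (M p.1) (2 * p.2.2)),
          ω.2 (p.2.1 + S.q p.1 (M p.1) (2 * p.2.2 + 1)))) (f0 := fun _ => (false, false, false))
        (fun p => Meas_slt S measurable_fst J y p) (fun p => ?_) measurable_const ?_ ?_
      · exact measurable_const.prodMk (((measurable_pi_apply _).comp measurable_snd).prodMk
          ((measurable_pi_apply _).comp measurable_snd))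
      · intro p ω hω
        exact h2 k n S ω.1 M (S.occs J ω.1) ω.2 y p (fun o ho => (hocc ω.1 o ho).1) hω
      · intro ω hω
        unfold Sys.ep
        rw [dif_neg]
        rintro ⟨p, hp⟩
        exact hω p hp
  · rw [measurable_pi_iff]
    intro y
    have hG : Measurable (fun x : ℤ → Sym => fun z => (x z).1) := by
      rw [measurable_pi_iff]
      intro z
      exact measurable_fst.comp (measurable_pi_apply z)
    refine Meas_glue (A := fun p => {x : ℤ → Sym | S.Tgt M (S.occs J (fun z => (x z).1)) y p})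
      (fp := fun p x => if p.2.2 % 2 = 0 then (x (p.2.1 + S.s p.1 + (p.2.2 / 2 : ℕ))).2.2.2.1
        else (x (p.2.1 + S.s p.1 + (p.2.2 / 2 : ℕ))).2.2.2.2) (f0 := fun x => (x y).2.1)
      (fun p => Meas_tgt S hG J M y p) (fun p => ?_) ?_ ?_ ?_
    · by_cases hp : p.2.2 % 2 = 0
      · simp only [if_pos hp]
        exact (measurable_pi_apply _).snd.snd.snd.fst
      · simp only [if_neg hp]
        exact (measurable_pi_apply _).snd.snd.snd.snd
    · exact (measurable_pi_apply _).snd.fst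
    · intro p x hx
      have hex : ∃ p, S.Tgt M (S.occs J (fun z => (x z).1)) y p := ⟨p, hx⟩
      unfold Sys.tinv
      rw [dif_pos hex]
      have e := Meas_tuniq h3 S J M hJ _ y p hex.choose hx hex.choose_spec
      rw [e]
    · intro x hx
      unfold Sys.tinv
      rw [dif_neg]
      rintro ⟨p, hp⟩
      exact hx p hp

end Pool.Agent.Lib.MP_8d5788_an
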