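import Pool.Agent.Lib.MP_8d5788_an.Stmts

set_option autoImplicit false
open MeasureTheory

namespace Pool.Agent.Lib.MP_8d5788_an

theorem Mucont_tp (h2 : S_tp) (h4 : S_quniq) {k : ℕ → ℕ} {n : ℕ → ℕ → ℕ} (S : Sys k n)
    (g t : ℤ → Bool) (y : ℤ) : ∃ j₀ : ℕ, ∀ J J' : Set ℕ, (j₀ ∈ J ↔ j₀ ∈ J') →
      S.tp (fun _ => 0) (S.occs J g) t y = S.tp (fun _ => 0) (S.occs J' g) t y := by
  have hk : ∀ j, 0 < k j := fun j => by have := S.k_ge j; omega
  by_cases h : ∃ p, S.Tgt (fun _ => 0) (S.occs Set.univ g) y p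
  · obtain ⟨p, hp⟩ := h
    have hin : ∀ J : Set ℕ, p.1 ∈ J → S.tp (fun _ => 0) (S.occs J g) t y =
        S.grp (fun _ => 0) t p := fun J hJ =>
      h2 k n S g (fun _ => 0) (S.occs J g) t y p (fun o ho => ⟨ho.2, hk _⟩)
        ⟨⟨hJ, hp.1.2⟩, hp.2⟩
    have hout : ∀ J : Set ℕ, p.1 ∉ J → S.tp (fun _ => 0) (S.occs J g) t y = t y := by
      intro J hJ
      unfold Sys.tp
      rw [dif_neg]
      rintro ⟨p', hp'⟩
      have := h4 k n S g p'.1 p.1 0 0 p.2.2 p'.2.2 p.2.1 p'.2.1 hp.1.2 hp'.1.2 (hk _) (hk _)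
        hp.2.1 hp'.2.1 (hp.2.2.symm.trans hp'.2.2)
      exact hJ (this.1 ▸ hp'.1.1)
    refine ⟨p.1, fun J J' hJ => ?_⟩
    by_cases hpJ : p.1 ∈ J
    · rw [hin J hpJ, hin J' (hJ.1 hpJ)]
    · rw [hout J hpJ, hout J' (fun h => hpJ (hJ.2 h))]
  · refine ⟨0, fun J J' _ => ?_⟩
    have hno : ∀ J : Set ℕ, S.tp (fun _ => 0) (S.occs J g) t y = t y := by
      intro J
      unfold Sys.tp
      rw [dif_neg]
      rintro ⟨p', hp'⟩
      exact h ⟨p', ⟨Set.mem_univ _, hp'.1.2⟩, hp'.2⟩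
    rw [hno, hno]

theorem Mucont_ep (h3 : S_ep) (h5 : S_suniq) {k : ℕ → ℕ} {n : ℕ → ℕ → ℕ} (S : Sys k n)
    (g t : ℤ → Bool) (y : ℤ) : ∃ j₀ : ℕ, ∀ J J' : Set ℕ, (j₀ ∈ J ↔ j₀ ∈ J') →
      S.ep (fun _ => 0) (S.occs J g) t y = S.ep (fun _ => 0) (S.occs J' g) t y := by
  by_cases h : ∃ p, S.Slt (S.occs Set.univ g) y p
  · obtain ⟨p, hp⟩ := h
    have hin : ∀ J : Set ℕ, p.1 ∈ J → S.ep (fun _ => 0) (S.occs J g) t y =
        (true, t (p.2.1 + S.q p.1 0 (2 * p.2.2)), t (p.2.1 + S.q p.1 0 (2 * p.2.2 + 1))) :=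
      fun J hJ => h3 k n S g (fun _ => 0) (S.occs J g) t y p (fun o ho => ho.2)
        ⟨⟨hJ, hp.1.2⟩, hp.2⟩
    have hout : ∀ J : Set ℕ, p.1 ∉ J → S.ep (fun _ => 0) (S.occs J g) t y =
        (false, false, false) := by
      intro J hJ
      unfold Sys.ep
      rw [dif_neg]
      rintro ⟨p', hp'⟩
      have := h5 k n S g p'.1 p.1 p.2.2 p'.2.2 p.2.1 p'.2.1 hp.1.2 hp'.1.2
        hp.2.1 hp'.2.1 (hp.2.2.symm.trans hp'.2.2)
      exact hJ (this.1 ▸ hp'.1.1)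
    refine ⟨p.1, fun J J' hJ => ?_⟩
    by_cases hpJ : p.1 ∈ J
    · rw [hin J hpJ, hin J' (hJ.1 hpJ)]
    · rw [hout J hpJ, hout J' (fun h => hpJ (hJ.2 h))]
  · refine ⟨0, fun J J' _ => ?_⟩
    have hno : ∀ J : Set ℕ, S.ep (fun _ => 0) (S.occs J g) t y = (false, false, false) := by
      intro J
      unfold Sys.ep
      rw [dif_neg]
      rintro ⟨p', hp'⟩
      exact h ⟨p', ⟨Set.mem_univ _, hp'.1.2⟩, hp'.2⟩
    rw [hno, hno]

theorem Mucont_phi (h2 : S_tp) (h3 : S_ep) (h4 : S_quniq) (h5 : S_suniq) {k : ℕ → ℕ}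
    {n : ℕ → ℕ → ℕ} (S : Sys k n) (J : (ℕ → ℕ) → Set ℕ) (hJ : ∀ j, IsClopen {x | j ∈ J x})
    (g t : ℤ → Bool) : Continuous (fun x => S.Phi (J x) (fun _ => 0) g t) := by
  have hev : ∀ (j : ℕ) (x₀ : ℕ → ℕ), ∀ᶠ x in nhds x₀, (j ∈ J x ↔ j ∈ J x₀) := by
    intro j x₀
    by_cases h : j ∈ J x₀
    · filter_upwards [(hJ j).isOpen.mem_nhds h] with x hx
      exact ⟨fun _ => h, fun _ => hx⟩
    · filter_upwards [(hJ j).isClosed.isOpen_compl.mem_nhds h] with x hx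
      exact ⟨fun h' => absurd h' hx, fun h' => absurd h' h⟩
  refine continuous_pi fun y => continuous_iff_continuousAt.2 fun x₀ => ?_
  obtain ⟨j₁, hj₁⟩ := Mucont_tp h2 h4 S g t y
  obtain ⟨j₂, hj₂⟩ := Mucont_ep h3 h5 S g t y
  refine (continuousAt_const (y := S.Phi (J x₀) (fun _ => 0) g t y)).congr ?_
  filter_upwards [hev j₁ x₀, hev j₂ x₀] with x hx1 hx2
  simp only [Sys.Phi]
  rw [hj₁ (J x) (J x₀) hx1, hj₂ (J x) (J x₀) hx2]

/-- see the docstring of `S_mucont` for the proof -/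
theorem pf_mucont (h1 : S_meas) (h2 : S_tp) (h3 : S_ep) (h4 : S_quniq) (h5 : S_suniq) : S_mucont := by
  intro k n S J hJ P hP
  have hk : ∀ j, 0 < k j := fun j => by have := S.k_ge j; omega
  rw [continuous_iff_continuousAt]
  intro x₀
  unfold ContinuousAt
  rw [ProbabilityMeasure.tendsto_iff_forall_integral_tendsto]
  intro F
  have hint : ∀ x, ∫ ω, F ω ∂(P x : Measure (ℤ → Sym)) =
      ∫ p : (ℤ → Bool) × (ℤ → Bool), F (S.Phi (J x) (fun _ => 0) p.1 p.2) ∂(lam.prod lam) := by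
    intro x
    rw [hP x, Sys.mu, integral_map]
    · exact (h1 k n S (J x) (fun _ => 0) fun j _ => hk j).1.aemeasurable
    · exact F.continuous.aestronglyMeasurable
  simp only [hint]
  refine tendsto_integral_filter_of_dominated_convergence (fun _ => ‖F‖) ?_ ?_ ?_ ?_
  · refine Filter.Eventually.of_forall fun x => ?_
    exact (F.continuous.measurable.comp
      (h1 k n S (J x) (fun _ => 0) fun j _ => hk j).1).aestronglyMeasurable
  · refine Filter.Eventually.of_forall fun x => Filter.Eventually.of_forall fun p => ?_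
    exact F.norm_coe_le_norm _
  · exact integrable_const _
  · refine Filter.Eventually.of_forall fun p => ?_
    exact (F.continuous.comp (Mucont_phi h2 h3 h4 h5 S J hJ p.1 p.2)).tendsto x₀

end Pool.Agent.Lib.MP_8d5788_an
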