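import Pool.Agent.Lib.MP_8d5788_an.Stmts

set_option autoImplicit false
open MeasureTheory

namespace Pool.Agent.Lib.MP_8d5788_an

private theorem mush_measurable {α : Type*} [MeasurableSpace α] :
    Measurable (sh : (ℤ → α) → (ℤ → α)) :=
  measurable_pi_lambda _ (fun n => measurable_pi_apply (n + 1))

/-- see the docstring of `S_mush` for the proof -/
theorem pf_mush (h1 : S_meas) (h2 : S_phish) (h3 : S_lamsh) : S_mush := by
  intro k n S J
  have hM : ∀ j ∈ J, (fun _ : ℕ => 0) j < k j := by
    intro j _
    have := S.k_ge j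
    change 0 < k j
    omega
  have hm := (h1 k n S J (fun _ => 0) hM).1
  have hs := h2 k n S J (fun _ => 0) hM
  refine ⟨?_, ?_⟩
  · exact Measure.isProbabilityMeasure_map hm.aemeasurable
  · unfold Sys.mu
    have e1 : (sh : (ℤ → Sym) → (ℤ → Sym)) ∘
        (fun p : (ℤ → Bool) × (ℤ → Bool) => S.Phi J (fun _ => 0) p.1 p.2) =
        (fun p : (ℤ → Bool) × (ℤ → Bool) => S.Phi J (fun _ => 0) p.1 p.2) ∘ Prod.map sh sh := by
      funext p
      exact (hs p.1 p.2).symm
    have e2 : Measure.map (Prod.map (sh : (ℤ → Bool) → (ℤ → Bool)) sh) (lam.prod lam) =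
        lam.prod lam := by
      rw [← Measure.map_prod_map lam lam mush_measurable mush_measurable]
      have : Measure.map (sh : (ℤ → Bool) → (ℤ → Bool)) lam = lam := h3
      rw [this]
    rw [Measure.map_map mush_measurable hm, e1,
      ← Measure.map_map hm (mush_measurable.prodMap mush_measurable), e2]

end Pool.Agent.Lib.MP_8d5788_an
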