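import Pool.Agent.Lib.MP_8d5788_an.Stmts

set_option autoImplicit false
open MeasureTheory

namespace Pool.Agent.Lib.MP_8d5788_an

private lemma Nec_clean {len : ℕ → ℕ} {V : ℕ → ℕ → Bool} {j n : ℕ} {γ γ' : ℕ → Bool} (hn : 1 ≤ n)
    (h : ∀ v < n, γ v = γ' v) (hc : Clean len V j n γ) : Clean len V j n γ' := by
  obtain ⟨h1, h2⟩ := hc
  refine ⟨by rw [← h _ (by omega)]; exact h1, ?_⟩
  intro i hi b hb hb' hl
  obtain ⟨u, hu, hu'⟩ := h2 i hi b hb (by
    rcases hb' with h0 | h0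
    · exact Or.inl h0
    · exact Or.inr (by rw [h _ (by omega)]; exact h0)) hl
  exact ⟨u, hu, by rw [← h _ hu]; exact hu'⟩

private lemma Nec_num (s N m b e : ℕ) (hN : N ≤ s) (hb : b * (N * 2 ^ N) ≤ 2 ^ (m + 6) * e) :
    (2 : ℝ) ^ (s - N) * ((b : ℝ) * ((2 : ℝ) ^ (2 * N + 2) * ((2⁻¹ : ℝ) ^ (2 * m + 13) * N))) ≤
      2 ^ s * e * (1 / 32) * (1 / 2) ^ m := by
  have e1 : (2 : ℝ) ^ s = 2 ^ (s - N) * 2 ^ N := by rw [← pow_add]; congr 1; omega
  have e2 : (2 : ℝ) ^ (2 * N + 2) = 2 ^ N * 2 ^ N * 4 := by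
    rw [pow_add, two_mul, pow_add]; norm_num
  have e3 : (b : ℝ) * (N * 2 ^ N) ≤ 2 ^ (m + 6) * e := by exact_mod_cast hb
  have e4 : (2 : ℝ) ^ (m + 6) * (4 * (2⁻¹ : ℝ) ^ (2 * m + 13)) = (1 / 32) * (1 / 2) ^ m := by
    have e5 : (2⁻¹ : ℝ) ^ (2 * m + 13) = (2⁻¹) ^ m * (2⁻¹) ^ m * (2⁻¹) ^ 13 := by
      rw [← pow_add, ← pow_add]; congr 1; omega
    have e6 : (2 : ℝ) ^ m * (2⁻¹) ^ m = 1 := by
      rw [← mul_pow]; norm_num
    rw [e5, pow_add]
    calc (2 : ℝ) ^ m * 2 ^ 6 * (4 * ((2⁻¹) ^ m * (2⁻¹) ^ m * (2⁻¹) ^ 13))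
        = ((2 : ℝ) ^ m * (2⁻¹) ^ m) * (2 ^ 6 * 4 * (2⁻¹) ^ 13) * (2⁻¹) ^ m := by ring
      _ = (1 / 32) * (1 / 2) ^ m := by rw [e6]; norm_num
  calc (2 : ℝ) ^ (s - N) * ((b : ℝ) * ((2 : ℝ) ^ (2 * N + 2) * ((2⁻¹ : ℝ) ^ (2 * m + 13) * N)))
      = 2 ^ s * ((b : ℝ) * (N * 2 ^ N)) * (4 * (2⁻¹ : ℝ) ^ (2 * m + 13)) := by
        rw [e1, e2]; ring
    _ ≤ 2 ^ s * (2 ^ (m + 6) * e) * (4 * (2⁻¹ : ℝ) ^ (2 * m + 13)) := by gcongr
    _ = 2 ^ s * e * ((2 : ℝ) ^ (m + 6) * (4 * (2⁻¹ : ℝ) ^ (2 * m + 13))) := by ring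
    _ = 2 ^ s * e * (1 / 32) * (1 / 2) ^ m := by rw [e4]; ring

/-- see the docstring of `S_nec` for the proof -/
theorem pf_nec (h1 : S_many) (h2 : S_equi) (h3 : S_LDprob) (h4 : S_LDinj) (h5 : S_meas) : S_nec := by
  classical
  intro k n S J X φ hX hφ hsh j hj hm
  let A : (m : ℕ) → (Fin (n j m) → Bool) → ℝ := fun m γ =>
    ∑ u : Fin (n j m) → Bool, (und X φ (S.LD J j γ u) : ℝ)
  let word : (m : ℕ) → ℕ → (Fin (n j m) → Bool) := fun m t => fun v => S.V j (S.c j t + v)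
  let C : (m : ℕ) → (Fin (n j m) → Bool) → Prop := fun m γ =>
    Clean S.len S.V j (n j m) (fun v => ext γ (v : ℤ))
  let Q : (m : ℕ) → ℝ := fun m =>
    ∑ w : Fin (n j m) → Sym, (und X φ w : ℝ) * (S.mu J).real (cyl w)
  have hA0 : ∀ m γ, 0 ≤ A m γ := fun m γ => Finset.sum_nonneg fun u _ => Nat.cast_nonneg _
  -- average over `τ`
  have step1 : (2 : ℝ) ^ (S.s j) * (3 * (S.e j : ℝ) / 8 - 1 / 2) ≤
      ∑ t ∈ Finset.range (S.T j), 2 ^ (S.s j - n j (S.z j t)) * A (S.z j t) (word (S.z j t) t) := by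
    have e1 := Finset.sum_le_sum (fun (τ : Fin (S.s j) → Bool) (_ : τ ∈ Finset.univ) =>
      h1 k n S J X φ hX hφ hsh j hj τ)
    rw [Finset.sum_const, Finset.card_univ, nsmul_eq_mul, Finset.sum_comm] at e1
    have e2 : ((Fintype.card (Fin (S.s j) → Bool) : ℕ) : ℝ) = 2 ^ S.s j := by simp
    rw [e2] at e1
    refine e1.trans (le_of_eq (Finset.sum_congr rfl fun t ht => ?_))
    exact h2 k n S j t (Finset.mem_range.1 ht) (fun u => (und X φ (S.LD J j
      (fun v : Fin (n j (S.z j t)) => S.V j (S.c j t + v)) u) : ℝ))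
  -- multiplicity of the words
  have step2 : ∀ m < k j,
      ∑ t ∈ (Finset.range (S.T j)).filter (fun t => S.z j t = m), A m (word m t) ≤
      (S.b j m : ℝ) * ∑ γ ∈ Finset.univ.filter (fun γ : Fin (n j m) → Bool => C m γ), A m γ := by
    intro m hmk
    have hN : 1 ≤ n j m := S.n_pos j m hmk
    have hmaps : ∀ t ∈ (Finset.range (S.T j)).filter (fun t => S.z j t = m),
        word m t ∈ Finset.univ.filter (fun γ : Fin (n j m) → Bool => C m γ) := by
      intro t ht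
      obtain ⟨ht1, ht2⟩ := Finset.mem_filter.1 ht
      subst ht2
      refine Finset.mem_filter.2 ⟨Finset.mem_univ _, ?_⟩
      refine Nec_clean hN ?_ (S.piece_clean j t (Finset.mem_range.1 ht1))
      intro v hv
      have hv' : (0 : ℤ) ≤ (v : ℤ) ∧ (v : ℤ) < (n j (S.z j t) : ℕ) := ⟨by omega, by omega⟩
      dsimp only [ext, word]
      rw [dif_pos hv']
      simp
    rw [← Finset.sum_fiberwise_of_maps_to hmaps, Finset.mul_sum]
    refine Finset.sum_le_sum fun γ _ => ?_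
    have e1 : ∑ t ∈ ((Finset.range (S.T j)).filter (fun t => S.z j t = m)).filter
        (fun t => word m t = γ), A m (word m t) =
        ((((Finset.range (S.T j)).filter (fun t => S.z j t = m)).filter
        (fun t => word m t = γ)).card : ℝ) * A m γ := by
      rw [← nsmul_eq_mul, ← Finset.sum_const]
      refine Finset.sum_congr rfl fun t ht => ?_
      rw [(Finset.mem_filter.1 ht).2]
    rw [e1]
    refine mul_le_mul_of_nonneg_right ?_ (hA0 m γ)
    refine Nat.cast_le.2 (le_trans (Finset.card_le_card ?_) (S.mult j m hmk γ))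
    intro t ht
    obtain ⟨ht1, ht2⟩ := Finset.mem_filter.1 ht
    obtain ⟨ht3, ht4⟩ := Finset.mem_filter.1 ht1
    exact Finset.mem_filter.2 ⟨ht3, ht4, fun u => congrFun ht2 u⟩
  -- local display words
  have step3 : ∀ m < k j,
      ∑ γ ∈ Finset.univ.filter (fun γ : Fin (n j m) → Bool => C m γ), A m γ ≤
      2 ^ (2 * n j m + 2) * Q m := by
    intro m hmk
    have hN : 1 ≤ n j m := S.n_pos j m hmk
    have hlen : ∀ i, j ≤ i → 2 * n j m + i + 10 ≤ S.len i := fun i hi => S.len_ge j i m hi hmk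
    let f : (Fin (n j m) → Sym) → ℝ := fun w =>
      2 ^ (2 * n j m + 2) * ((und X φ w : ℝ) * (S.mu J).real (cyl w))
    have hf0 : ∀ w, 0 ≤ f w := fun w => by
      dsimp only [f]
      positivity
    let G : (Fin (n j m) → Bool) × (Fin (n j m) → Bool) → (Fin (n j m) → Sym) := fun p =>
      S.LD J j p.1 p.2
    have hG : Function.Injective G := by
      intro p p' hp
      obtain ⟨a1, a2⟩ := h4 k n S J j (n j m) _ _ _ _ hp
      exact Prod.ext a1 a2
    calc ∑ γ ∈ Finset.univ.filter (fun γ : Fin (n j m) → Bool => C m γ), A m γ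
        ≤ ∑ γ ∈ Finset.univ.filter (fun γ : Fin (n j m) → Bool => C m γ),
            ∑ u : Fin (n j m) → Bool, f (G (γ, u)) := by
          refine Finset.sum_le_sum fun γ hγ => Finset.sum_le_sum fun u _ => ?_
          have e1 := h3 k n S J j (n j m) γ u hN hlen (Finset.mem_filter.1 hγ).2
          have e2 : (1 : ℝ) ≤ 2 ^ (2 * n j m + 2) * (S.mu J).real (cyl (S.LD J j γ u)) := by
            have := mul_le_mul_of_nonneg_left e1 (by positivity : (0 : ℝ) ≤ 2 ^ (2 * n j m + 2))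
            rwa [← mul_pow, mul_inv_cancel₀ two_ne_zero, one_pow] at this
          calc (und X φ (S.LD J j γ u) : ℝ) = (und X φ (S.LD J j γ u) : ℝ) * 1 := (mul_one _).symm
            _ ≤ (und X φ (S.LD J j γ u) : ℝ) *
                (2 ^ (2 * n j m + 2) * (S.mu J).real (cyl (S.LD J j γ u))) :=
              mul_le_mul_of_nonneg_left e2 (Nat.cast_nonneg _)
            _ = f (G (γ, u)) := by dsimp only [f, G]; ring
      _ ≤ ∑ γ : Fin (n j m) → Bool, ∑ u : Fin (n j m) → Bool, f (G (γ, u)) :=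
          Finset.sum_le_sum_of_subset_of_nonneg (Finset.filter_subset _ _)
            fun γ _ _ => Finset.sum_nonneg fun u _ => hf0 _
      _ = ∑ p : (Fin (n j m) → Bool) × (Fin (n j m) → Bool), f (G p) := by
          rw [Fintype.sum_prod_type]
      _ = ∑ w ∈ Finset.univ.image G, f w := by
          rw [Finset.sum_image fun a _ b _ h => hG h]
      _ ≤ ∑ w, f w :=
          Finset.sum_le_sum_of_subset_of_nonneg (Finset.subset_univ _) fun w _ _ => hf0 w
      _ = 2 ^ (2 * n j m + 2) * Q m := by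
          dsimp only [f, Q]
          rw [Finset.mul_sum]
  -- group by zones
  have step4 : ∑ t ∈ Finset.range (S.T j), 2 ^ (S.s j - n j (S.z j t)) *
        A (S.z j t) (word (S.z j t) t) ≤
      ∑ m ∈ Finset.range (k j), (2 : ℝ) ^ S.s j * S.e j * (1 / 32) * (1 / 2) ^ m := by
    let D : ℕ → ℕ → ℝ := fun m t => 2 ^ (S.s j - n j m) * A m (word m t)
    have hmaps : ∀ t ∈ Finset.range (S.T j), S.z j t ∈ Finset.range (k j) := fun t ht =>
      Finset.mem_range.2 (S.zone_lt j t (Finset.mem_range.1 ht))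
    have e0 : ∑ t ∈ Finset.range (S.T j), 2 ^ (S.s j - n j (S.z j t)) *
        A (S.z j t) (word (S.z j t) t) = ∑ t ∈ Finset.range (S.T j), D (S.z j t) t := rfl
    rw [e0, ← Finset.sum_fiberwise_of_maps_to hmaps]
    refine Finset.sum_le_sum fun m hmk' => ?_
    have hmk : m < k j := Finset.mem_range.1 hmk'
    have hNs : n j m ≤ S.s j := by
      obtain ⟨t, ht, hz, -⟩ := S.q_piece j m 0 hmk (by have := S.e_ge j; omega)
      have := S.piece_right j t ht
      rw [hz] at this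
      omega
    have e1 : ∑ t ∈ (Finset.range (S.T j)).filter (fun t => S.z j t = m), D (S.z j t) t =
        2 ^ (S.s j - n j m) *
          ∑ t ∈ (Finset.range (S.T j)).filter (fun t => S.z j t = m), A m (word m t) := by
      rw [Finset.mul_sum]
      refine Finset.sum_congr rfl fun t ht => ?_
      rw [(Finset.mem_filter.1 ht).2]
    rw [e1]
    refine le_trans ?_ (Nec_num (S.s j) (n j m) m (S.b j m) (S.e j) hNs (S.b_le j m hmk))
    refine mul_le_mul_of_nonneg_left ?_ (by positivity)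
    refine (step2 m hmk).trans (mul_le_mul_of_nonneg_left ?_ (Nat.cast_nonneg _))
    exact (step3 m hmk).trans (mul_le_mul_of_nonneg_left (hm m hmk) (by positivity))
  have step5 : (2 : ℝ) ^ (S.s j) * (3 * (S.e j : ℝ) / 8 - 1 / 2) ≤
      2 ^ S.s j * (S.e j * (1 / 16)) := by
    refine (step1.trans step4).trans ?_
    rw [← Finset.mul_sum]
    have e1 := sum_geometric_two_le (k j)
    calc (2 : ℝ) ^ S.s j * S.e j * (1 / 32) * ∑ i ∈ Finset.range (k j), (1 / 2 : ℝ) ^ i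
        ≤ (2 : ℝ) ^ S.s j * S.e j * (1 / 32) * 2 := by gcongr
      _ = 2 ^ S.s j * (S.e j * (1 / 16)) := by ring
  have step6 := le_of_mul_le_mul_left step5 (by positivity)
  have he : (2 : ℝ) ≤ S.e j := by exact_mod_cast S.e_ge j
  linarith

end Pool.Agent.Lib.MP_8d5788_an
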