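import Pool.Agent.Lib.MP_8d5788_an.Stmts

set_option autoImplicit false
open MeasureTheory

namespace Pool.Agent.Lib.MP_8d5788_an

/-- see the docstring of `S_nest` for the proof -/
theorem pf_nest  : S_nest := by
  intro k n S g i j a a' hij hi hj h1 h2
  have hle := S.len_eq j
  have hlt := S.h_lt j
  have hle' := S.len_eq i
  have hlt' := S.h_lt i
  have hmono := S.h_mono i j hij
  have gi : ∀ u : ℕ, u < S.len i → g (a' + u) = S.V i u := hi.2
  have gj : ∀ u : ℕ, u < S.len j → g (a + u) = S.V j u := hj.2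
  rcases lt_trichotomy a' a with hlt3 | heq | hgt
  · exfalso
    obtain ⟨o, ho⟩ : ∃ o : ℕ, a = a' + o := ⟨(a - a').toNat, by omega⟩
    have ho1 : 1 ≤ o := by omega
    obtain ⟨w, hw⟩ : ∃ w : ℕ, (w : ℤ) = a' + S.len i - 1 - a := ⟨(a' + S.len i - 1 - a).toNat, by omega⟩
    have hwh : S.h j < w := by
      by_contra hcon
      have e1 := gj w (by omega)
      have e2 := gi (S.len i - 1) (by omega)
      have e3 : a + (w : ℤ) = a' + ((S.len i - 1 : ℕ) : ℤ) := by omega
      rw [S.start_ones j w (by omega)] at e1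
      rw [S.last i, ← e3, e1] at e2
      exact absurd e2 (by decide)
    obtain ⟨u, hu, hV⟩ := S.norun i o ho1 (by omega)
    have e1 := gj u (by omega)
    have e2 := gi (o + u) (by omega)
    have e3 : a + (u : ℤ) = a' + ((o + u : ℕ) : ℤ) := by push_cast; omega
    rw [S.start_ones j u (by omega)] at e1
    rw [hV, ← e3, e1] at e2
    exact absurd e2 (by decide)
  · exfalso
    have e1 := gj (S.h i + 1) (by omega)
    have e2 := gi (S.h i + 1) (by omega)
    rw [S.start_ones j (S.h i + 1) (by omega)] at e1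
    rw [S.start_zero i, heq, e1] at e2
    exact absurd e2 (by decide)
  · obtain ⟨p, hp⟩ : ∃ p : ℕ, a' = a + p := ⟨(a' - a).toNat, by omega⟩
    have hp1 : 1 ≤ p := by omega
    have e0 : S.V j (p - 1) = false := by
      rw [← gj (p - 1) (by omega)]
      have : a + ((p - 1 : ℕ) : ℤ) = a' - 1 := by omega
      rw [this]
      exact hi.1
    obtain ⟨t, ht, hc1, hc2⟩ := S.nest i j p hij hp1 (by omega) e0 (fun u hu hpu => by
      rw [← gj (p + u) hpu, ← gi u hu]
      congr 1
      push_cast
      omega)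
    refine ⟨t, ht, ?_, ?_⟩
    · omega
    · omega

end Pool.Agent.Lib.MP_8d5788_an
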