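import Pool.Agent.Lib.MP_8d5788_an.Stmts

set_option autoImplicit false
open MeasureTheory

namespace Pool.Agent.Lib.MP_8d5788_an

private theorem phicont_q_lt {k : ℕ → ℕ} {n : ℕ → ℕ → ℕ} (S : Sys k n) {j m x : ℕ} (hm : m < k j)
    (hx : x < 2 * S.e j) : S.q j m x < S.len j := by
  obtain ⟨t, ht, hz, h1, h2⟩ := S.q_piece j m x hm hx
  have h3 := S.piece_right j t ht
  rw [hz] at h3
  have := S.len_eq j
  omega

/-- see the docstring of `S_phicont` for the proof -/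
theorem pf_phicont (h1 : S_tloc) (h2 : S_sloc) (h3 : S_tp) (h4 : S_ep) (h5 : S_loccont) : S_phicont := by
  intro k n S J M f hM ω hω
  apply h5
  intro y
  obtain ⟨W1, hW1⟩ := h1 k n S J M f hM _ hω y
  obtain ⟨W2, hW2⟩ := h2 k n S J _ hω y
  refine ⟨max W1 W2, ?_⟩
  intro ω' hω'
  set g : ℤ → Bool := fun v => (ω v).1 with hg
  set t : ℤ → Bool := fun v => (ω v).2 with ht
  set g' : ℤ → Bool := fun v => (ω' v).1 with hg'
  set t' : ℤ → Bool := fun v => (ω' v).2 with ht'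
  have hmax1 : ((W1 : ℕ) : ℤ) ≤ ((max W1 W2 : ℕ) : ℤ) := by exact_mod_cast le_max_left _ _
  have hmax2 : ((W2 : ℕ) : ℤ) ≤ ((max W1 W2 : ℕ) : ℤ) := by exact_mod_cast le_max_right _ _
  have hgg : ∀ v : ℤ, |v - y| ≤ (max W1 W2 : ℕ) → g' v = g v := fun v hv => by
    rw [hg, hg']; simp only [hω' v hv]
  have htt : ∀ v : ℤ, |v - y| ≤ (max W1 W2 : ℕ) → t' v = t v := fun v hv => by
    rw [ht, ht']; simp only [hω' v hv]
  have hy0 : |y - y| ≤ ((max W1 W2 : ℕ) : ℤ) := by rw [sub_self, abs_zero]; positivity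
  have hT := hW1 g' (fun v hv => hgg v (hv.trans hmax1))
  have hS := hW2 g' (fun v hv => hgg v (hv.trans hmax2))
  have hocc : ∀ γ : ℤ → Bool, ∀ o ∈ S.occs J γ, S.Occ γ o.1 o.2 ∧ M o.1 < k o.1 :=
    fun γ o ho => ⟨ho.2, (hM o.1 ho.1).1⟩
  have htp : S.tp M (S.occs J g') t' y = S.tp M (S.occs J g) t y := by
    by_cases hp : ∃ p, S.Tgt M (S.occs J g) y p
    · obtain ⟨p, hp⟩ := hp
      have hp' : S.Tgt M (S.occs J g') y p := ((hT p).1).2 hp
      rw [h3 k n S g M (S.occs J g) t y p (hocc g) hp,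
        h3 k n S g' M (S.occs J g') t' y p (hocc g') hp']
      unfold Sys.grp
      refine Finset.sum_congr rfl fun m hm => ?_
      have hmk : m < k p.1 := Finset.mem_range.1 (Finset.mem_of_mem_erase hm)
      apply htt
      have := (hT p).2 hp' (S.q p.1 m p.2.2) (phicont_q_lt S hmk hp.2.1)
      exact this.trans hmax1
    · have hp' : ¬ ∃ p, S.Tgt M (S.occs J g') y p := fun ⟨p, h⟩ => hp ⟨p, ((hT p).1).1 h⟩
      unfold Sys.tp
      rw [dif_neg hp, dif_neg hp']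
      exact htt y hy0
  have hep : S.ep M (S.occs J g') t' y = S.ep M (S.occs J g) t y := by
    by_cases hp : ∃ p, S.Slt (S.occs J g) y p
    · obtain ⟨p, hp⟩ := hp
      have hp' : S.Slt (S.occs J g') y p := ((hS p).1).2 hp
      rw [h4 k n S g M (S.occs J g) t y p (fun o ho => (hocc g o ho).1) hp,
        h4 k n S g' M (S.occs J g') t' y p (fun o ho => (hocc g' o ho).1) hp']
      have hMk : M p.1 < k p.1 := (hocc g _ hp.1).2
      have hu : p.2.2 < S.e p.1 := hp.2.1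
      have e1 := (hS p).2 hp' (S.q p.1 (M p.1) (2 * p.2.2))
        (phicont_q_lt S hMk (by omega))
      have e2 := (hS p).2 hp' (S.q p.1 (M p.1) (2 * p.2.2 + 1))
        (phicont_q_lt S hMk (by omega))
      rw [htt _ (e1.trans hmax2), htt _ (e2.trans hmax2)]
    · have hp' : ¬ ∃ p, S.Slt (S.occs J g') y p := fun ⟨p, h⟩ => hp ⟨p, ((hS p).1).1 h⟩
      unfold Sys.ep
      rw [dif_neg hp, dif_neg hp']
  have hgy : g' y = g y := hgg y hy0
  show (g' y, S.tp M (S.occs J g') t' y, S.ep M (S.occs J g') t' y) =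
    (g y, S.tp M (S.occs J g) t y, S.ep M (S.occs J g) t y)
  rw [hgy, htp, hep]

end Pool.Agent.Lib.MP_8d5788_an
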