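import Pool.Agent.Lib.MP_8d5788_an.Stmts

set_option autoImplicit false
open MeasureTheory

namespace Pool.Agent.Lib.MP_8d5788_an

private theorem phish_occW (w : ℕ → Bool) (l : ℕ) (g : ℤ → Bool) (a : ℤ) :
    OccW w l (sh g) a ↔ OccW w l g (a + 1) := by
  unfold OccW sh
  have h1 : a - 1 + 1 = a + 1 - 1 := by ring
  have h2 : ∀ u : ℕ, a + (u : ℤ) + 1 = a + 1 + (u : ℤ) := fun u => by ring
  rw [h1]
  simp only [h2]

private theorem phish_occs {k : ℕ → ℕ} {n : ℕ → ℕ → ℕ} (S : Sys k n) (J : Set ℕ) (g : ℤ → Bool)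
    (j : ℕ) (a : ℤ) : (j, a) ∈ S.occs J (sh g) ↔ (j, a + 1) ∈ S.occs J g := by
  unfold Sys.occs Sys.Occ
  exact and_congr Iff.rfl (phish_occW _ _ _ _)

private theorem phish_tgt {k : ℕ → ℕ} {n : ℕ → ℕ → ℕ} (S : Sys k n) (J : Set ℕ) (M : ℕ → ℕ)
    (g : ℤ → Bool) (y : ℤ) (j : ℕ) (a : ℤ) (x : ℕ) :
    S.Tgt M (S.occs J (sh g)) y (j, a, x) ↔ S.Tgt M (S.occs J g) (y + 1) (j, a + 1, x) := by
  unfold Sys.Tgt
  simp only
  rw [phish_occs]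
  constructor
  · rintro ⟨h1, h2, h3⟩
    exact ⟨h1, h2, by omega⟩
  · rintro ⟨h1, h2, h3⟩
    exact ⟨h1, h2, by omega⟩

private theorem phish_slt {k : ℕ → ℕ} {n : ℕ → ℕ → ℕ} (S : Sys k n) (J : Set ℕ)
    (g : ℤ → Bool) (y : ℤ) (j : ℕ) (a : ℤ) (x : ℕ) :
    S.Slt (S.occs J (sh g)) y (j, a, x) ↔ S.Slt (S.occs J g) (y + 1) (j, a + 1, x) := by
  unfold Sys.Slt
  simp only
  rw [phish_occs]
  constructor
  · rintro ⟨h1, h2, h3⟩
    exact ⟨h1, h2, by omega⟩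
  · rintro ⟨h1, h2, h3⟩
    exact ⟨h1, h2, by omega⟩

private theorem phish_tp (h1 : S_tp) {k : ℕ → ℕ} {n : ℕ → ℕ → ℕ} (S : Sys k n) (J : Set ℕ)
    (M : ℕ → ℕ) (hM : ∀ j ∈ J, M j < k j) (g t : ℤ → Bool) (y : ℤ) :
    S.tp M (S.occs J (sh g)) (sh t) y = S.tp M (S.occs J g) t (y + 1) := by
  have hO : ∀ g' : ℤ → Bool, ∀ o ∈ S.occs J g', S.Occ g' o.1 o.2 ∧ M o.1 < k o.1 :=
    fun g' o ho => ⟨ho.2, hM _ ho.1⟩
  by_cases hp : ∃ p, S.Tgt M (S.occs J (sh g)) y p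
  · obtain ⟨⟨j, a, x⟩, hp⟩ := hp
    have hp' := (phish_tgt S J M g y j a x).1 hp
    rw [h1 k n S (sh g) M _ (sh t) y _ (hO _) hp, h1 k n S g M _ t (y + 1) _ (hO _) hp']
    unfold Sys.grp
    simp only
    apply Finset.sum_congr rfl
    intro m _
    unfold sh
    congr 1
    ring
  · have hp' : ¬ ∃ p, S.Tgt M (S.occs J g) (y + 1) p := by
      rintro ⟨⟨j, a, x⟩, hq⟩
      apply hp
      refine ⟨(j, a - 1, x), ?_⟩
      rw [phish_tgt]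
      rwa [sub_add_cancel]
    unfold Sys.tp
    rw [dif_neg hp, dif_neg hp']
    rfl

private theorem phish_ep (h2 : S_ep) {k : ℕ → ℕ} {n : ℕ → ℕ → ℕ} (S : Sys k n) (J : Set ℕ)
    (M : ℕ → ℕ) (g t : ℤ → Bool) (y : ℤ) :
    S.ep M (S.occs J (sh g)) (sh t) y = S.ep M (S.occs J g) t (y + 1) := by
  have hO : ∀ g' : ℤ → Bool, ∀ o ∈ S.occs J g', S.Occ g' o.1 o.2 :=
    fun g' o ho => ho.2
  by_cases hp : ∃ p, S.Slt (S.occs J (sh g)) y p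
  · obtain ⟨⟨j, a, x⟩, hp⟩ := hp
    have hp' := (phish_slt S J g y j a x).1 hp
    rw [h2 k n S (sh g) M _ (sh t) y _ (hO _) hp, h2 k n S g M _ t (y + 1) _ (hO _) hp']
    have e1 : ∀ z : ℤ, a + z + 1 = a + 1 + z := fun z => by ring
    unfold sh
    simp only [e1]
  · have hp' : ¬ ∃ p, S.Slt (S.occs J g) (y + 1) p := by
      rintro ⟨⟨j, a, x⟩, hq⟩
      apply hp
      refine ⟨(j, a - 1, x), ?_⟩
      rw [phish_slt]
      rwa [sub_add_cancel]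
    unfold Sys.ep
    rw [dif_neg hp, dif_neg hp']

/-- see the docstring of `S_phish` for the proof -/
theorem pf_phish (h1 : S_tp) (h2 : S_ep) : S_phish := by
  intro k n S J M hM g t
  funext y
  change (sh g y, S.tp M (S.occs J (sh g)) (sh t) y, S.ep M (S.occs J (sh g)) (sh t) y) =
    (g (y + 1), S.tp M (S.occs J g) t (y + 1), S.ep M (S.occs J g) t (y + 1))
  rw [phish_tp h1 S J M hM, phish_ep h2]
  rfl

end Pool.Agent.Lib.MP_8d5788_an
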