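import Pool.Agent.Lib.MP_8d5788_an.Stmts

set_option autoImplicit false
open MeasureTheory

namespace Pool.Agent.Lib.MP_8d5788_an

/-- see the docstring of `S_qfree` for the proof -/
theorem pf_qfree (h1 : S_nest) : S_qfree := by
  intro k n S g i j m x a a' hij hi hj hm hx hq
  obtain ⟨hq1, hq2⟩ := hq
  obtain ⟨t0, ht0, hz0, hc0, hc0'⟩ := S.q_piece j m x hm hx
  have hpr0 := S.piece_right j t0 ht0
  rw [hz0] at hpr0
  have hlen : S.len j = S.s j + S.e j := S.len_eq j
  have hqlen : S.q j m x < S.len j := by omega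
  obtain ⟨t, ht, h2, h3⟩ := h1 k n S g i j a a' hij hi hj (by omega) (by omega)
  have hpl := S.piece_left j t ht
  have hpr := S.piece_right j t ht
  obtain ⟨p, hp⟩ : ∃ p : ℕ, a' = a + p := ⟨(a' - a).toNat, by omega⟩
  have hp1 : 1 ≤ p := by omega
  have hplen : p + S.len i ≤ S.len j := by omega
  obtain ⟨hi0, hiu⟩ := hi
  obtain ⟨_, hju⟩ := hj
  have hlast : S.V j (p - 1) = false := by
    rw [← hju (p - 1) (by omega), ← hi0]
    congr 1
    push_cast [Nat.cast_sub hp1]
    omega
  have hV : ∀ u, u < S.len i → S.V j (p + u) = S.V i u := by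
    intro u hu
    rw [← hju (p + u) (by omega), ← hiu u hu]
    congr 1
    push_cast
    omega
  exact S.q_free j m x i p hm hx hij hp1 hlast hplen hV ⟨by omega, by omega⟩

end Pool.Agent.Lib.MP_8d5788_an
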