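import Pool.Agent.Lib.MP_8d5788_an.Build

set_option autoImplicit false
open MeasureTheory

namespace Pool.Agent.Lib.MP_8d5788_an

private theorem Qsel_ext {n : ℕ} (γ : Fin n → Bool) (u : ℕ) (hu : u < n) :
    ext γ (u : ℤ) = γ ⟨u, hu⟩ := by
  unfold ext
  rw [dif_pos ⟨by omega, by omega⟩]
  congr

private theorem Qsel_one (T e N0 b0 m : ℕ) (z : ℕ → ℕ) (w : ℕ → ℕ → Bool)
    (CL0 : Finset (Fin N0 → Bool)) (av0 : (Fin N0 → Bool) → Finset (Fin N0))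
    (h1 : ∀ t < T, z t = m → ∃ γ ∈ CL0, ∀ u : ℕ, w t u = ext γ (u : ℤ))
    (h2 : ∀ γ ∈ CL0, ((Finset.range T).filter (fun t => z t = m ∧
      ∀ u : Fin N0, w t u = γ u)).card = b0)
    (h3 : 2 * e ≤ b0 * ∑ γ ∈ CL0, (av0 γ).card) :
    ∃ tx yx : ℕ → ℕ,
    (∀ x < 2 * e, tx x < T ∧ z (tx x) = m ∧ ∃ γ ∈ CL0, (∀ u : ℕ, w (tx x) u = ext γ (u : ℤ)) ∧
      ∃ hy : yx x < N0, (⟨yx x, hy⟩ : Fin N0) ∈ av0 γ) ∧
    (∀ x x', x < 2 * e → x' < 2 * e → tx x = tx x' → yx x = yx x' → x = x') := by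
  classical
  set S : Finset ((_ : Fin N0 → Bool) × (ℕ × Fin N0)) := CL0.sigma (fun γ =>
    ((Finset.range T).filter (fun t => z t = m ∧ ∀ u : Fin N0, w t u = γ u)) ×ˢ av0 γ) with hS
  have hcard : S.card = b0 * ∑ γ ∈ CL0, (av0 γ).card := by
    rw [hS, Finset.card_sigma, Finset.mul_sum]
    apply Finset.sum_congr rfl
    intro γ hγ
    rw [Finset.card_product, h2 γ hγ]
  have hle : 2 * e ≤ S.card := by rw [hcard]; exact h3
  by_cases he : e = 0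
  · subst he
    exact ⟨fun _ => 0, fun _ => 0, fun x hx => by omega, fun x x' hx => by omega⟩
  let E := S.equivFin
  let g : ℕ → S := fun x => if hx : x < 2 * e then E.symm ⟨x, lt_of_lt_of_le hx hle⟩
    else E.symm ⟨0, by omega⟩
  have hginj : ∀ x x', x < 2 * e → x' < 2 * e → g x = g x' → x = x' := by
    intro x x' hx hx' hxx
    simp only [g, dif_pos hx, dif_pos hx'] at hxx
    have := E.symm.injective hxx
    simpa using this
  have hmem : ∀ x, (g x).1.1 ∈ CL0 ∧ ((g x).1.2.1 < T ∧ z (g x).1.2.1 = m ∧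
      ∀ u : Fin N0, w (g x).1.2.1 u = (g x).1.1 u) ∧ (g x).1.2.2 ∈ av0 (g x).1.1 := by
    intro x
    have h7 : ∀ p ∈ S, p.1 ∈ CL0 ∧ (p.2.1 < T ∧ z p.2.1 = m ∧
        ∀ u : Fin N0, w p.2.1 u = p.1 u) ∧ p.2.2 ∈ av0 p.1 := by
      intro p hp
      rw [hS, Finset.mem_sigma, Finset.mem_product, Finset.mem_filter, Finset.mem_range] at hp
      exact ⟨hp.1, hp.2.1, hp.2.2⟩
    exact h7 _ (g x).2
  refine ⟨fun x => (g x).1.2.1, fun x => ((g x).1.2.2 : ℕ), ?_, ?_⟩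
  · intro x hx
    obtain ⟨m1, ⟨m2, m3, m4⟩, m5⟩ := hmem x
    refine ⟨m2, m3, (g x).1.1, m1, ?_, (g x).1.2.2.2, m5⟩
    obtain ⟨γ, hγ, hγu⟩ := h1 _ m2 m3
    have : γ = (g x).1.1 := by
      funext u
      rw [← m4 u, hγu u, Qsel_ext γ u u.2]
    rw [← this]
    exact hγu
  · intro x x' hx hx' ht hy
    apply hginj x x' hx hx'
    obtain ⟨m1, ⟨m2, m3, m4⟩, m5⟩ := hmem x
    obtain ⟨n1, ⟨n2, n3, n4⟩, n5⟩ := hmem x'
    simp only [] at ht hy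
    have hγ : (g x).1.1 = (g x').1.1 := by
      funext u
      rw [← m4 u, ← n4 u, ht]
    apply Subtype.ext
    apply Sigma.ext hγ
    apply heq_of_eq
    exact Prod.ext ht (Fin.ext hy)

/-- see the docstring of `S_qsel` for the proof -/
theorem pf_qsel  : S_qsel := by
  classical
  intro K T e N b z w CL av h1 h2 h3
  have key : ∀ m, ∃ tx yx : ℕ → ℕ, m < K →
    (∀ x < 2 * e, tx x < T ∧ z (tx x) = m ∧ ∃ γ ∈ CL m, (∀ u : ℕ, w (tx x) u = ext γ (u : ℤ)) ∧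
      ∃ hy : yx x < N m, (⟨yx x, hy⟩ : Fin (N m)) ∈ av m γ) ∧
    (∀ x x', x < 2 * e → x' < 2 * e → tx x = tx x' → yx x = yx x' → x = x') := by
    intro m
    by_cases hm : m < K
    · obtain ⟨tx, yx, hh⟩ := Qsel_one T e (N m) (b m) m z w (CL m) (av m)
        (fun t ht hzt => by
          obtain ⟨γ, hγ, hγu⟩ := h1 t ht
          subst hzt
          exact ⟨γ, hγ, hγu⟩) (h2 m hm) (h3 m hm)
      exact ⟨tx, yx, fun _ => hh⟩
    · exact ⟨fun _ => 0, fun _ => 0, fun hm' => absurd hm' hm⟩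
  choose tx yx hh using key
  exact ⟨tx, yx, hh⟩

end Pool.Agent.Lib.MP_8d5788_an
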