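import Pool.Agent.Lib.MP_8d5788_an.Stmts

set_option autoImplicit false
open MeasureTheory

namespace Pool.Agent.Lib.MP_8d5788_an

theorem quniq_lt {k : ℕ → ℕ} {n : ℕ → ℕ → ℕ} (S : Sys k n) {j m x : ℕ} (hm : m < k j)
    (hx : x < 2 * S.e j) : S.q j m x < S.len j := by
  obtain ⟨t, ht, hz, h1, h2⟩ := S.q_piece j m x hm hx
  have h3 := S.piece_right j t ht
  rw [hz] at h3
  have h4 := S.len_eq j
  omega

theorem quniq_q {k : ℕ → ℕ} {n : ℕ → ℕ → ℕ} (S : Sys k n) {j m m' x x' : ℕ} (hm : m < k j)
    (hm' : m' < k j) (hx : x < 2 * S.e j) (hx' : x' < 2 * S.e j)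
    (h : S.q j m x = S.q j m' x') : m' = m ∧ x' = x := by
  obtain ⟨t, ht, hz, h1, h2⟩ := S.q_piece j m x hm hx
  obtain ⟨t', ht', hz', h1', h2'⟩ := S.q_piece j m' x' hm' hx'
  have htt : t = t' := by
    rcases lt_trichotomy t t' with hl | hl | hl
    · exfalso
      have h3 := S.piece_disj j t t' hl ht'
      rw [hz] at h3
      omega
    · exact hl
    · exfalso
      have h3 := S.piece_disj j t' t hl ht
      rw [hz'] at h3
      omega
  subst htt
  have hmm : m' = m := by rw [← hz, ← hz']
  subst hmm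
  exact ⟨rfl, (S.q_inj j m' x x' hm hx hx' h).symm⟩

/-- see the docstring of `S_quniq` for the proof -/
theorem pf_quniq (h1 : S_same) (h2 : S_qfree) : S_quniq := by
  intro k n S g i j m m' x x' a a' ho ho' hm hm' hx hx' h
  have hl := quniq_lt S hm hx
  have hl' := quniq_lt S hm' hx'
  rcases lt_trichotomy i j with hij | hij | hij
  · exact absurd (by omega) (h2 k n S g i j m x a a' hij ho' ho hm hx)
  · subst hij
    have haa : a' = a := by
      rcases le_total a a' with hle | hle
      · exact (h1 k n S g i a a' ho ho' hle (by omega)).symm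
      · exact h1 k n S g i a' a ho' ho hle (by omega)
    subst haa
    have hq : S.q i m x = S.q i m' x' := by omega
    obtain ⟨h3, h4⟩ := quniq_q S hm hm' hx hx' hq
    exact ⟨rfl, rfl, h3, h4⟩
  · exact absurd (by omega) (h2 k n S g j i m' x' a' a hij ho ho' hm' hx')

end Pool.Agent.Lib.MP_8d5788_an
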