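import Pool.Agent.Lib.MP_8d5788_an.Build

set_option autoImplicit false
open MeasureTheory

namespace Pool.Agent.Lib.MP_8d5788_an

/-- see the docstring of `S_rec` for the proof -/
theorem pf_rec  : S_rec := by
  classical
  intro α _ P hcongr hex
  -- one step, from a partial function
  let step : ∀ j : ℕ, (∀ i, i < j → α) → α := fun j prev =>
    if h : ∃ x, P j (fun i => if hi : i < j then prev i hi else Classical.arbitrary α) x then h.choose
    else Classical.arbitrary α
  let f : ℕ → α := fun j => Nat.strongRec (motive := fun _ => α) (fun j prev => step j prev) j
  have hf : ∀ j, f j = step j (fun i _ => f i) := by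
    intro j
    show Nat.strongRec (motive := fun _ => α) (fun j prev => step j prev) j = _
    rw [Nat.strongRec]
  refine ⟨f, ?_⟩
  intro j
  induction j using Nat.strong_induction_on with
  | _ j ih =>
    obtain ⟨x, hx⟩ := hex j f ih
    have h1 : ∃ x, P j (fun i => if hi : i < j then f i else Classical.arbitrary α) x :=
      ⟨x, hcongr j f _ x (fun i hi => by simp [hi]) hx⟩
    have h2 : f j = h1.choose := by
      rw [hf j]
      show (if h : ∃ x, P j (fun i => if hi : i < j then f i else Classical.arbitrary α) x then h.choose
        else Classical.arbitrary α) = _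
      rw [dif_pos h1]
    rw [h2]
    exact hcongr j _ f _ (fun i hi => by simp [hi]) h1.choose_spec

end Pool.Agent.Lib.MP_8d5788_an
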