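import Pool.Agent.Lib.MP_8d5788_an.Build

set_option autoImplicit false
open MeasureTheory

namespace Pool.Agent.Lib.MP_8d5788_an

theorem Rulsum_val (T : ℕ) : ∑ t ∈ Finset.range T, padicValNat 2 (t + 1) = padicValNat 2 T.factorial := by
  induction T with
  | zero => simp
  | succ T ih =>
    rw [Finset.sum_range_succ, ih, Nat.factorial_succ,
      padicValNat.mul (Nat.succ_ne_zero T) (Nat.factorial_ne_zero T), add_comm]

theorem Rulsum_le (T : ℕ) : ∑ t ∈ Finset.range T, padicValNat 2 (t + 1) ≤ T := by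
  rw [Rulsum_val]
  have := sub_one_mul_padicValNat_factorial (p := 2) T
  omega

/-- see the docstring of `S_rulsum` for the proof -/
theorem pf_rulsum  : S_rulsum := by
  intro h T N
  have h1 : lpos h N (rul h N) T ≤ h + 2 + ∑ t ∈ Finset.range T,
      (N t + (4 * Nat.clog 2 (N t) + 1) + 4 * padicValNat 2 (t + 1)) := by
    unfold lpos
    refine Nat.add_le_add_left (Finset.sum_le_sum fun t _ => ?_) _
    have : rul h N t ≤ 4 * (Nat.clog 2 (N t) + padicValNat 2 (t + 1)) := min_le_right _ _
    omega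
  have h2 := Rulsum_le T
  have h3 : ∑ t ∈ Finset.range T, (4 * Nat.clog 2 (N t) + 5) =
      ∑ t ∈ Finset.range T, (4 * Nat.clog 2 (N t) + 1) + 4 * T := by
    rw [show ∀ f : ℕ → ℕ, ∑ t ∈ Finset.range T, (f t + 5) = ∑ t ∈ Finset.range T, (f t + 1) + 4 * T from ?_]
    intro f
    simp only [Finset.sum_add_distrib, Finset.sum_const, Finset.card_range, smul_eq_mul]
    omega
  rw [h3]
  rw [Finset.sum_add_distrib, Finset.sum_add_distrib, ← Finset.mul_sum] at h1
  omega

end Pool.Agent.Lib.MP_8d5788_an
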