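import Pool.Agent.Lib.MP_8d5788_an.Stmts

set_option autoImplicit false
open MeasureTheory

namespace Pool.Agent.Lib.MP_8d5788_an

/-- see the docstring of `S_same` for the proof -/
theorem pf_same  : S_same := by
  intro k n S g j a a' h1 h2 hle hlt
  by_contra hne
  obtain ⟨p, hp⟩ : ∃ p : ℕ, a' = a + p := ⟨(a' - a).toNat, by omega⟩
  have hp1 : 1 ≤ p := by omega
  have hp2 : p < S.len j := by omega
  by_cases hc : p + S.h j < S.len j
  · obtain ⟨u, hu, hV⟩ := S.norun j p hp1 hc
    have e1 := h2.2 u (by omega)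
    rw [S.start_ones j u hu] at e1
    have e2 := h1.2 (p + u) (by omega)
    rw [hV] at e2
    have e3 : a' + (u : ℤ) = a + ((p + u : ℕ) : ℤ) := by
      push_cast
      omega
    rw [e3, e2] at e1
    exact absurd e1 (by decide)
  · have e1 := h2.2 (S.len j - 1 - p) (by omega)
    rw [S.start_ones j _ (by omega)] at e1
    have e2 := h1.2 (S.len j - 1) (by omega)
    rw [S.last] at e2
    have e3 : a' + ((S.len j - 1 - p : ℕ) : ℤ) = a + ((S.len j - 1 : ℕ) : ℤ) := by omega
    rw [e3, e2] at e1
    exact absurd e1 (by decide)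

end Pool.Agent.Lib.MP_8d5788_an
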