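import Pool.Agent.Lib.MP_8d5788_an.Build

set_option autoImplicit false
open MeasureTheory

namespace Pool.Agent.Lib.MP_8d5788_an

private theorem Sepb_part (A b cl z F : ℕ → ℕ) (K : ℕ) (h0 : A 0 = 0)
    (hA : ∀ m, A (m + 1) = A m + b m * cl m)
    (hz : ∀ m < K, ∀ t, A m ≤ t → t < A (m + 1) → z t = m) :
    ∀ M ≤ K, ∑ t ∈ Finset.range (A M), F (z t) = ∑ m ∈ Finset.range M, b m * cl m * F m := by
  intro M
  induction M with
  | zero => intro _; simp [h0]
  | succ M ih =>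
    intro hM
    rw [hA M, Finset.sum_range_add, ih (by omega), Finset.sum_range_succ]
    congr 1
    rw [Finset.sum_congr rfl (g := fun _ => F M), Finset.sum_const, Finset.card_range, smul_eq_mul]
    intro x hx
    rw [Finset.mem_range] at hx
    rw [hz M (by omega) (A M + x) (by omega) (by rw [hA M]; omega)]

private theorem Sepb_geo (e : ℕ) (x : ℕ → ℕ) (K : ℕ) (hx : ∀ m < K, 2 ^ (m + 6) * x m ≤ e) :
    ∀ M ≤ K, 32 * 2 ^ M * ∑ m ∈ Finset.range M, x m + e ≤ 2 ^ M * e := by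
  intro M
  induction M with
  | zero => intro _; simp
  | succ M ih =>
    intro hM
    have h1 := ih (by omega)
    have h2 := hx M (by omega)
    rw [Finset.sum_range_succ]
    have e1 : 32 * 2 ^ (M + 1) * (∑ m ∈ Finset.range M, x m + x M)
        = 2 * (32 * 2 ^ M * ∑ m ∈ Finset.range M, x m) + 2 ^ (M + 6) * x M := by
      ring
    have e2 : 2 ^ (M + 1) * e = 2 * (2 ^ M * e) := by ring
    rw [e1, e2]
    omega

/-- see the docstring of `S_sepb` for the proof -/
theorem pf_sepb (h1 : S_rulsum) : S_sepb := by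
  intro h K T e N b A z cl hA0 hAK hA hz1 hz2 hm he
  have hr := h1 h T (fun t => N (z t))
  have hs : ∑ t ∈ Finset.range T, (4 * Nat.clog 2 (N (z t)) + 5)
      = ∑ m ∈ Finset.range K, b m * cl m * (4 * Nat.clog 2 (N m) + 5) := by
    rw [← hAK]
    exact Sepb_part A b cl z (fun m => 4 * Nat.clog 2 (N m) + 5) K hA0 hA
      (fun m hm t h1 h2 => (hz2 m hm t h1 h2).2) K le_rfl
  have hx : ∀ m < K, 2 ^ (m + 6) * (b m * cl m * (4 * Nat.clog 2 (N m) + 5)) ≤ e := by
    intro m hmK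
    obtain ⟨c1, c2, c3⟩ := hm m hmK
    have h5 : 2 ^ (m + 6) * (2 ^ (m + 6) * (b m * cl m * (4 * Nat.clog 2 (N m) + 5)))
        ≤ 2 ^ (m + 6) * e := by
      calc 2 ^ (m + 6) * (2 ^ (m + 6) * (b m * cl m * (4 * Nat.clog 2 (N m) + 5)))
          = b m * (2 ^ (2 * m + 12) * (4 * Nat.clog 2 (N m) + 5) * cl m) := by ring
        _ ≤ b m * (N m * 2 ^ N m) := by
            apply Nat.mul_le_mul_left
            exact Nat.mul_le_mul c3 c1
        _ ≤ 2 ^ (m + 6) * e := c2
    exact Nat.le_of_mul_le_mul_left h5 (by positivity)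
  have hg := Sepb_geo e _ K hx K le_rfl
  have hg2 : 32 * ∑ m ∈ Finset.range K, b m * cl m * (4 * Nat.clog 2 (N m) + 5) ≤ e := by
    have h6 : 2 ^ K * (32 * ∑ m ∈ Finset.range K, b m * cl m * (4 * Nat.clog 2 (N m) + 5))
        ≤ 2 ^ K * e := by
      calc 2 ^ K * (32 * ∑ m ∈ Finset.range K, b m * cl m * (4 * Nat.clog 2 (N m) + 5))
          = 32 * 2 ^ K * ∑ m ∈ Finset.range K, b m * cl m * (4 * Nat.clog 2 (N m) + 5) := by ring
        _ ≤ 2 ^ K * e := by omega
    exact Nat.le_of_mul_le_mul_left h6 (by positivity)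
  rw [hs] at hr
  omega

end Pool.Agent.Lib.MP_8d5788_an
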