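import Pool.Agent.Lib.MP_8d5788_an.Stmts

set_option autoImplicit false
open MeasureTheory

namespace Pool.Agent.Lib.MP_8d5788_an

/-- see the docstring of `S_sfree` for the proof -/
theorem pf_sfree (h1 : S_nest) : S_sfree := by
  intro k n S g i j u a a' hij hi hj hu hh
  obtain ⟨h2, h3⟩ := hh
  have hlen := S.len_eq j
  obtain ⟨t, ht, h4, h5⟩ := h1 k n S g i j a a' hij hi hj (by omega) (by omega)
  have h6 := S.piece_right j t ht
  omega

end Pool.Agent.Lib.MP_8d5788_an
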