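import Pool.Agent.Lib.MP_8d5788_an.Stmts

set_option autoImplicit false
open MeasureTheory

namespace Pool.Agent.Lib.MP_8d5788_an

private theorem Sloc_aux {k : ℕ → ℕ} {n : ℕ → ℕ → ℕ} (S : Sys k n) (J : Set ℕ) (G G' : ℤ → Bool)
    (y z₁ z₂ : ℤ) (R W : ℕ) (h1 : y - R ≤ z₁) (h2 : z₁ < y) (h3 : y ≤ z₂) (h4 : z₂ ≤ y + R)
    (hz1 : G z₁ = false) (hz2 : G z₂ = false) (hW : ∑ i ∈ Finset.range (2 * R + 1), S.len i ≤ W)
    (agree : ∀ v : ℤ, |v - y| ≤ W → G' v = G v) (p : ℕ × ℤ × ℕ)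
    (hp : S.Slt (S.occs J G) y p) :
    S.Slt (S.occs J G') y p ∧ ∀ x : ℕ, x < S.len p.1 → |p.2.1 + x - y| ≤ W := by
  obtain ⟨j, a, u⟩ := p
  obtain ⟨⟨hJ, hocc0, hocc⟩, hu, hy⟩ := hp
  simp only at hJ hocc0 hocc hu hy
  obtain ⟨y₀, hy1, hy2, hy3, hy4⟩ := S.slot j u hu
  -- the block of ones
  have hblock : ∀ v : ℕ, v < S.h j → G (a + y₀ + v) = true := by
    intro v hv
    have h := hocc (y₀ + v) (by omega)
    rw [hy4 v hv] at h
    rw [← h]
    congr 1
    push_cast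
    ring
  have hleft : z₁ < a + y₀ := by
    by_contra hc
    have hlt : (z₁ - (a + y₀)).toNat < S.h j := by omega
    have h := hblock _ hlt
    have e : a + y₀ + ((z₁ - (a + y₀)).toNat : ℤ) = z₁ := by omega
    rw [e, hz1] at h
    exact absurd h (by decide)
  have hright : a + y₀ + S.h j ≤ z₂ := by
    by_contra hc
    have hlt : (z₂ - (a + y₀)).toNat < S.h j := by omega
    have h := hblock _ hlt
    have e : a + y₀ + ((z₂ - (a + y₀)).toNat : ℤ) = z₂ := by omega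
    rw [e, hz2] at h
    exact absurd h (by decide)
  have hh := S.h_ge j
  have hj : j ≤ 2 * R := by omega
  have hlen : S.len j ≤ W := by
    refine le_trans ?_ hW
    exact Finset.single_le_sum (f := fun i => S.len i) (fun i _ => Nat.zero_le _)
      (Finset.mem_range.2 (by omega))
  have hle := S.len_eq j
  have hbound : ∀ x : ℕ, x < S.len j → |a + x - y| ≤ W := by
    intro x hx
    rw [abs_le]
    constructor <;> omega
  refine ⟨⟨⟨hJ, ?_, ?_⟩, hu, hy⟩, hbound⟩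
  · rw [agree (a - 1) (by rw [abs_le]; constructor <;> omega)]
    exact hocc0
  · intro v hv
    rw [agree (a + v) (hbound v hv)]
    exact hocc v hv

/-- see the docstring of `S_sloc` for the proof -/
theorem pf_sloc : S_sloc := by
  intro k n S J g hg y
  obtain ⟨z₁, hz1, hgz1⟩ := hg.1 y
  obtain ⟨w, hw1, hw⟩ := hg.2 (y - 1) 1
  obtain ⟨u, hu, hgu⟩ := hw y (by omega) (by
    have h1 : (1 : ℤ) ≤ 2 ^ w * (4 * w + 1) := by
      have h2 : (1 : ℤ) ≤ 2 ^ w := one_le_pow₀ (by norm_num)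
      have h3 : (0 : ℤ) ≤ w := Int.natCast_nonneg w
      nlinarith
    linarith)
  set R : ℕ := (y - z₁).toNat + u with hR
  refine ⟨R + ∑ i ∈ Finset.range (2 * R + 1), S.len i, fun g' hg' p => ?_⟩
  have hR1 : y - R ≤ z₁ := by omega
  have hR2 : y + u ≤ y + R := by omega
  have e1 : g' z₁ = g z₁ := hg' z₁ (by
    rw [abs_le]
    push_cast
    constructor
    · have : (0 : ℤ) ≤ ∑ i ∈ Finset.range (2 * R + 1), (S.len i : ℤ) :=
        Finset.sum_nonneg fun i _ => Int.natCast_nonneg _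
      omega
    · have : (0 : ℤ) ≤ ∑ i ∈ Finset.range (2 * R + 1), (S.len i : ℤ) :=
        Finset.sum_nonneg fun i _ => Int.natCast_nonneg _
      omega)
  have e2 : g' (y + u) = g (y + u) := hg' (y + u) (by
    rw [abs_le]
    push_cast
    constructor
    · have : (0 : ℤ) ≤ ∑ i ∈ Finset.range (2 * R + 1), (S.len i : ℤ) :=
        Finset.sum_nonneg fun i _ => Int.natCast_nonneg _
      omega
    · have : (0 : ℤ) ≤ ∑ i ∈ Finset.range (2 * R + 1), (S.len i : ℤ) :=
        Finset.sum_nonneg fun i _ => Int.natCast_nonneg _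
      omega)
  have A := Sloc_aux S J g' g y z₁ (y + u) R (R + ∑ i ∈ Finset.range (2 * R + 1), S.len i) hR1 hz1
    (by omega) hR2 (e1.trans hgz1) (e2.trans hgu) (by omega) (fun v hv => (hg' v hv).symm) p
  have B := Sloc_aux S J g g' y z₁ (y + u) R (R + ∑ i ∈ Finset.range (2 * R + 1), S.len i) hR1 hz1
    (by omega) hR2 hgz1 hgu (by omega) hg' p
  exact ⟨⟨fun h => (A h).1, fun h => (B h).1⟩, fun h => (A h).2⟩

end Pool.Agent.Lib.MP_8d5788_an
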