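import Pool.Agent.Lib.MP_8d5788_an.Stmts

set_option autoImplicit false
open MeasureTheory

namespace Pool.Agent.Lib.MP_8d5788_an

private theorem suff_zip_meas :
    Measurable (fun (p : (ℤ → Bool) × (ℤ → Bool)) (z : ℤ) => (p.1 z, p.2 z)) := by
  apply measurable_pi_lambda
  intro z
  exact ((measurable_pi_apply z).comp measurable_fst).prodMk
    ((measurable_pi_apply z).comp measurable_snd)

private theorem suff_unzip_meas :
    Measurable (fun (ω : ℤ → Bool × Bool) => ((fun v => (ω v).1), (fun v => (ω v).2))) := by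
  apply Measurable.prodMk
  · apply measurable_pi_lambda
    intro z
    exact measurable_fst.comp (measurable_pi_apply z)
  · apply measurable_pi_lambda
    intro z
    exact measurable_snd.comp (measurable_pi_apply z)

/-- see the docstring of `S_suff` for the proof -/
theorem pf_suff (h1 : S_law) (h2 : S_zip) (h3 : S_meas) (h4 : S_inv) (h5 : S_good) (h6 : S_phicont) (h7 : S_tinvcont) (h8 : S_phish) (h9 : S_tinvsh) : S_suff := by
  intro k n S J M f hMf
  have hM : ∀ j ∈ J, M j < k j := fun j hj => (hMf j hj).1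
  obtain ⟨hPhi, htinv⟩ := h3 k n S J M hM
  obtain ⟨hGm, hG0, -⟩ := h5
  set ψ : (ℤ → Bool × Bool) → (ℤ → Sym) :=
    fun ω => S.Phi J M (fun v => (ω v).1) (fun v => (ω v).2) with hψ
  set φ : (ℤ → Sym) → (ℤ → Bool × Bool) := fun x v => ((x v).1, S.tinv J M x v) with hφ
  have hφψ : ∀ ω, φ (ψ ω) = ω := by
    intro ω
    funext v
    have e1 : S.tinv J M (ψ ω) v = (ω v).2 := by
      rw [hψ]
      simp only
      rw [h4 k n S J M hM]
    have e2 : (ψ ω v).1 = (ω v).1 := rfl
    change ((ψ ω v).1, S.tinv J M (ψ ω) v) = ω v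
    rw [e1, e2]
  have hψm : Measurable ψ := by
    have := hPhi.comp suff_unzip_meas
    exact this
  have htr : Measurable (fun (x : ℤ → Sym) (v : ℤ) => (x v).1) := by
    apply measurable_pi_lambda
    intro z
    exact measurable_fst.comp (measurable_pi_apply z)
  have hφm : Measurable φ := by
    apply measurable_pi_lambda
    intro z
    exact (measurable_fst.comp (measurable_pi_apply z)).prodMk ((measurable_pi_apply z).comp htinv)
  have hmapψ : Measure.map ψ lam2 = S.mu J := by
    have hz : Measure.map (fun (p : (ℤ → Bool) × (ℤ → Bool)) (z : ℤ) => (p.1 z, p.2 z))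
      (lam.prod lam) = lam2 := h2
    rw [← hz, Measure.map_map hψm suff_zip_meas]
    exact h1 k n S J M hM
  have hmapφ : Measure.map φ (S.mu J) = lam2 := by
    rw [← hmapψ, Measure.map_map hφm hψm]
    have : φ ∘ ψ = id := funext hφψ
    rw [this, Measure.map_id]
  have hY0 : lam2 {ω : ℤ → Bool × Bool | (fun v => (ω v).1) ∈ Good}ᶜ = 0 := by
    have hz : Measure.map (fun (p : (ℤ → Bool) × (ℤ → Bool)) (z : ℤ) => (p.1 z, p.2 z))
      (lam.prod lam) = lam2 := h2
    have hms : MeasurableSet {ω : ℤ → Bool × Bool | (fun v => (ω v).1) ∈ Good} := by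
      have : Measurable (fun (x : ℤ → Bool × Bool) (v : ℤ) => (x v).1) :=
        measurable_fst.comp suff_unzip_meas
      exact this hGm
    rw [← hz, Measure.map_apply suff_zip_meas hms.compl]
    have e1 : (fun (p : (ℤ → Bool) × (ℤ → Bool)) (z : ℤ) => (p.1 z, p.2 z)) ⁻¹'
        {ω : ℤ → Bool × Bool | (fun v => (ω v).1) ∈ Good}ᶜ = Goodᶜ ×ˢ Set.univ := by
      ext p
      simp
    rw [e1, Measure.prod_prod, hG0, zero_mul]
  have hmaps : Set.MapsTo ψ {ω : ℤ → Bool × Bool | (fun v => (ω v).1) ∈ Good}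
      {x : ℤ → Sym | (fun v => (x v).1) ∈ Good ∧ ψ (φ x) = x} := by
    intro ω hω
    refine ⟨hω, ?_⟩
    rw [hφψ]
  have hX0m : MeasurableSet {x : ℤ → Sym | (fun v => (x v).1) ∈ Good ∧ ψ (φ x) = x} := by
    have e1 : {x : ℤ → Sym | (fun v => (x v).1) ∈ Good ∧ ψ (φ x) = x} =
        (fun (x : ℤ → Sym) (v : ℤ) => (x v).1) ⁻¹' Good ∩
          ⋂ z : ℤ, {x : ℤ → Sym | ψ (φ x) z = x z} := by
      ext x
      constructor
      · rintro ⟨ha, hb⟩
        refine ⟨ha, Set.mem_iInter.2 (fun z => ?_)⟩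
        exact congrFun hb z
      · rintro ⟨ha, hb⟩
        refine ⟨ha, funext (fun z => ?_)⟩
        exact Set.mem_iInter.1 hb z
    rw [e1]
    apply MeasurableSet.inter (htr hGm)
    apply MeasurableSet.iInter
    intro z
    exact measurableSet_eq_fun
      ((measurable_pi_apply z).comp (hψm.comp hφm)) (measurable_pi_apply z)
  refine ⟨{x : ℤ → Sym | (fun v => (x v).1) ∈ Good ∧ ψ (φ x) = x},
    {ω : ℤ → Bool × Bool | (fun v => (ω v).1) ∈ Good}, φ, ψ, ?_, hY0, ?_, hmaps, ?_, ?_, ?_, ?_,
    ?_, ?_, hmapφ, hmapψ⟩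
  · rw [← hmapψ, Measure.map_apply hψm hX0m.compl]
    refine measure_mono_null ?_ hY0
    intro ω hω hω'
    exact hω (hmaps hω')
  · intro x hx
    exact hx.1
  · intro x hx
    exact hx.2
  · intro ω _
    exact hφψ ω
  · intro x hx
    apply ContinuousAt.continuousWithinAt
    rw [continuousAt_pi]
    intro v
    have hc := h7 k n S J M f hMf x hx.1
    exact (continuous_fst.comp (continuous_apply v)).continuousAt.prodMk
      ((continuous_apply v).continuousAt.comp hc)
  · intro ω hω
    apply ContinuousAt.continuousWithinAt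
    exact h6 k n S J M f hMf ω hω
  · intro x _
    funext z
    have e1 := congrFun (h9 k n S J M hM x) z
    change ((x (z + 1)).1, S.tinv J M (sh x) z) = ((x (z + 1)).1, S.tinv J M x (z + 1))
    rw [e1]
    rfl
  · intro ω _
    exact h8 k n S J M hM (fun v => (ω v).1) (fun v => (ω v).2)

end Pool.Agent.Lib.MP_8d5788_an
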