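import Pool.Agent.Lib.MP_8d5788_an.Stmts

set_option autoImplicit false
open MeasureTheory

namespace Pool.Agent.Lib.MP_8d5788_an

/-- see the docstring of `S_suniq` for the proof -/
theorem pf_suniq (h1 : S_same) (h2 : S_sfree) : S_suniq := by
  intro k n S g i j u u' a a' hj hi hu hu' heq
  have lj := S.len_eq j
  have li := S.len_eq i
  rcases lt_trichotomy i j with hij | hij | hij
  · exfalso
    refine h2 k n S g i j u a a' hij hi hj hu ⟨?_, ?_⟩
    · rw [heq]; omega
    · rw [heq]; omega
  · subst hij
    have key : a = a' := by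
      rcases le_total a a' with h | h
      · exact h1 k n S g i a a' hj hi h (by omega)
      · exact (h1 k n S g i a' a hi hj h (by omega)).symm
    subst key
    refine ⟨rfl, rfl, ?_⟩
    omega
  · exfalso
    refine h2 k n S g j i u' a' a hij hj hi hu' ⟨?_, ?_⟩
    · rw [← heq]; omega
    · rw [← heq]; omega

end Pool.Agent.Lib.MP_8d5788_an
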