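import Pool.Agent.Lib.MP_8d5788_an.Stmts
import Pool.Agent.Lib.MP_8d5788_an.Build

set_option autoImplicit false
open MeasureTheory

namespace Pool.Agent.Lib.MP_8d5788_an

theorem Sys_congr (k : ℕ → ℕ) (n : ℕ → ℕ → ℕ) (j : ℕ) (f g : ℕ → Lvl) (L : Lvl)
    (h : ∀ i < j, f i = g i) (hL : GoodLvl k n j f L) : GoodLvl k n j g L := by
  refine { hL with
    h_mono := ?_
    piece_clean := ?_
    nest := ?_
    q_free := ?_ }
  · intro i hi; rw [← h i hi]; exact hL.h_mono i hi
  · intro t ht
    have h1 := hL.piece_clean t ht
    refine ⟨h1.1, ?_⟩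
    intro i hi b hb hb0 hlen
    simp only [← h i hi] at hlen ⊢
    exact h1.2 i hi b hb hb0 hlen
  · intro i p hi hp1 hp2 hp3 hm
    simp only [← h i hi] at hm ⊢
    exact hL.nest i p hi hp1 hp2 hp3 hm
  · intro m x i p hm hx hi hp1 hp2 hp3 hm'
    simp only [← h i hi] at hp3 hm' ⊢
    exact hL.q_free m x i p hm hx hi hp1 hp2 hp3 hm'

/-- B10. Existence of the word system from one level and strong recursion (`P j f L = GoodLvl k n j f L`, which
depends only on `f i`, `i < j`). -/
theorem pf_sys (h1 : S_level) (h2 : S_rec) : S_sys := by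
  obtain ⟨N₀, hN₀⟩ := h1
  refine ⟨fun m => max (N₀ m) 1, ?_⟩
  intro k n hk hn
  obtain ⟨f, hf⟩ := h2 Lvl (fun j f L => GoodLvl k n j f L) (fun j f g x h hx => Sys_congr k n j f g x h hx)
    (fun j f hf => hN₀ k n hk (fun j m hm => le_trans (le_max_left _ _) (hn j m hm)) j f hf)
  refine ⟨{
    h := fun j => (f j).h
    len := fun j => (f j).len
    s := fun j => (f j).s
    e := fun j => (f j).e
    V := fun j => (f j).V
    q := fun j => (f j).q
    T := fun j => (f j).T
    c := fun j => (f j).c
    z := fun j => (f j).z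
    b := fun j => (f j).b
    k_ge := hk
    n_pos := fun j m hm => le_trans (le_max_right _ _) (hn j m hm)
    len_eq := fun j => (hf j).len_eq
    e_ge := fun j => (hf j).e_ge
    start_ones := fun j => (hf j).start_ones
    start_zero := fun j => (hf j).start_zero
    h_lt := fun j => (hf j).h_lt
    last := fun j => (hf j).last
    norun := fun j => (hf j).norun
    h_mono := fun i j hij => (hf j).h_mono i hij
    h_ge := fun j => (hf j).h_ge
    len_ge := fun j' j m hj hm => (hf j).len_ge j' m hj hm
    zone_lt := fun j => (hf j).zone_lt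
    piece_left := fun j => (hf j).piece_left
    piece_right := fun j => (hf j).piece_right
    piece_prev := fun j => (hf j).piece_prev
    piece_disj := fun j => (hf j).piece_disj
    piece_clean := fun j => (hf j).piece_clean
    nest := fun i j p hij => (hf j).nest i p hij
    q_piece := fun j => (hf j).q_piece
    q_inj := fun j => (hf j).q_inj
    q_free := fun j m x i p => (hf j).q_free m x i p
    q_ones := fun j => (hf j).q_ones
    gap := fun j => (hf j).gap
    slot := fun j => (hf j).slot
    sep := fun j => (hf j).sep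
    mult := fun j => (hf j).mult
    b_le := fun j => (hf j).b_le }⟩

end Pool.Agent.Lib.MP_8d5788_an
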