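import Pool.Agent.Lib.MP_8d5788_an.Stmts

set_option autoImplicit false
open MeasureTheory

namespace Pool.Agent.Lib.MP_8d5788_an

/-- the value of `tinv` in terms of any target -/
theorem Tinvcont_val (h2 : S_quniq) (k : ℕ → ℕ) (n : ℕ → ℕ → ℕ) (S : Sys k n) (J : Set ℕ)
    (M : ℕ → ℕ) (hM : ∀ j ∈ J, M j < k j) (x : ℤ → Sym) (y : ℤ) (p : ℕ × ℤ × ℕ)
    (hp : S.Tgt M (S.occs J (fun z => (x z).1)) y p) :
    S.tinv J M x y = if p.2.2 % 2 = 0 then (x (p.2.1 + S.s p.1 + (p.2.2 / 2 : ℕ))).2.2.2.1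
      else (x (p.2.1 + S.s p.1 + (p.2.2 / 2 : ℕ))).2.2.2.2 := by
  have hex : ∃ p, S.Tgt M (S.occs J (fun z => (x z).1)) y p := ⟨p, hp⟩
  have hc := hex.choose_spec
  obtain ⟨⟨a1, a2⟩, a3, a4⟩ := hp
  obtain ⟨⟨b1, b2⟩, b3, b4⟩ := hc
  obtain ⟨c1, c2, _, c4⟩ := h2 k n S (fun z => (x z).1) hex.choose.1 p.1 (M p.1) (M hex.choose.1)
    p.2.2 hex.choose.2.2 p.2.1 hex.choose.2.1 a2 b2 (hM _ a1) (hM _ b1) a3 b3 (a4.symm.trans b4)
  have hpe : hex.choose = p := Prod.ext c1 (Prod.ext c2 c4)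
  unfold Sys.tinv
  rw [dif_pos hex, hpe]

/-- see the docstring of `S_tinvcont` for the proof -/
theorem pf_tinvcont (h1 : S_tloc) (h2 : S_quniq) (h3 : S_loccont) : S_tinvcont := by
  intro k n S J M f hJ x hx
  refine h3 _ _ _ _ fun y => ?_
  obtain ⟨W, hW⟩ := h1 k n S J M f hJ (fun v => (x v).1) hx y
  refine ⟨W, fun x' hx' => ?_⟩
  have hg : ∀ v : ℤ, |v - y| ≤ W → (fun v => (x' v).1) v = (fun v => (x v).1) v := by
    intro v hv
    simp only [hx' v hv]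
  have hW' := hW (fun v => (x' v).1) hg
  have hM : ∀ j ∈ J, M j < k j := fun j hj => (hJ j hj).1
  by_cases hex : ∃ p, S.Tgt M (S.occs J (fun z => (x z).1)) y p
  · obtain ⟨p, hp⟩ := hex
    have hp' := (hW' p).1.2 hp
    have hr := (hW' p).2 hp'
    rw [Tinvcont_val h2 k n S J M hM x y p hp, Tinvcont_val h2 k n S J M hM x' y p hp']
    have hlt : S.s p.1 + p.2.2 / 2 < S.len p.1 := by
      have h5 := S.len_eq p.1
      have h6 := hp.2.1
      omega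
    have h7 := hr (S.s p.1 + p.2.2 / 2) hlt
    have h8 : p.2.1 + ((S.s p.1 + p.2.2 / 2 : ℕ) : ℤ) = p.2.1 + S.s p.1 + (p.2.2 / 2 : ℕ) := by
      push_cast
      ring
    rw [h8] at h7
    rw [hx' _ h7]
  · have hex' : ¬ ∃ p, S.Tgt M (S.occs J (fun z => (x' z).1)) y p := by
      rintro ⟨p, hp⟩
      exact hex ⟨p, (hW' p).1.1 hp⟩
    unfold Sys.tinv
    rw [dif_neg hex, dif_neg hex', hx' y (by simp)]

end Pool.Agent.Lib.MP_8d5788_an
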