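import Pool.Agent.Lib.MP_8d5788_an.Stmts

set_option autoImplicit false
open MeasureTheory

namespace Pool.Agent.Lib.MP_8d5788_an

theorem Tinvsh_occ {k : ℕ → ℕ} {n : ℕ → ℕ → ℕ} (S : Sys k n) (g : ℤ → Bool) (j : ℕ) (a : ℤ) :
    S.Occ (sh g) j a ↔ S.Occ g j (a + 1) := by
  unfold Sys.Occ OccW sh
  have h1 : a - 1 + 1 = a := by ring
  have h2 : a + 1 - 1 = a := by ring
  have h3 : ∀ u : ℕ, a + (u : ℤ) + 1 = a + 1 + u := fun u => by ring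
  rw [h1, h2]
  simp only [h3]

theorem Tinvsh_tgt {k : ℕ → ℕ} {n : ℕ → ℕ → ℕ} (S : Sys k n) (J : Set ℕ) (M : ℕ → ℕ) (g : ℤ → Bool)
    (y : ℤ) (p : ℕ × ℤ × ℕ) :
    S.Tgt M (S.occs J (sh g)) y p ↔ S.Tgt M (S.occs J g) (y + 1) (p.1, p.2.1 + 1, p.2.2) := by
  unfold Sys.Tgt Sys.occs
  simp only [Set.mem_setOf_eq, Tinvsh_occ]
  constructor
  · rintro ⟨h1, h2, h3⟩
    exact ⟨h1, h2, by rw [h3]; ring⟩
  · rintro ⟨h1, h2, h3⟩
    exact ⟨h1, h2, by linarith⟩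

/-- see the docstring of `S_tinvsh` for the proof -/
theorem pf_tinvsh (h1 : S_quniq) : S_tinvsh := by
  intro k n S J M hM x
  funext y
  have hg : (fun z => (sh x z).1) = sh (fun z => (x z).1) := rfl
  have hR : sh (S.tinv J M x) y = S.tinv J M x (y + 1) := rfl
  rw [hR]
  unfold Sys.tinv
  rw [hg]
  by_cases hp : ∃ p, S.Tgt M (S.occs J (sh fun z => (x z).1)) y p
  · have hp' : ∃ p, S.Tgt M (S.occs J fun z => (x z).1) (y + 1) p := by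
      obtain ⟨p, hp⟩ := hp
      exact ⟨_, (Tinvsh_tgt S J M _ y p).mp hp⟩
    rw [dif_pos hp, dif_pos hp']
    have hs := (Tinvsh_tgt S J M _ y _).mp hp.choose_spec
    have hs' := hp'.choose_spec
    generalize hp.choose = p at hs ⊢
    generalize hp'.choose = p' at hs' ⊢
    obtain ⟨j, a, i⟩ := p
    obtain ⟨j', a', i'⟩ := p'
    obtain ⟨⟨hJ, hO⟩, hi, hy⟩ := hs
    obtain ⟨⟨hJ', hO'⟩, hi', hy'⟩ := hs'
    simp only at hJ hO hi hy hJ' hO' hi' hy'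
    obtain ⟨e1, e2, e3, e4⟩ := h1 k n S (fun z => (x z).1) j' j (M j) (M j') i i' (a + 1) a'
      hO hO' (hM j hJ) (hM j' hJ') hi hi' (by rw [← hy, ← hy'])
    subst e1 e4
    subst e2
    simp only [sh]
    have e : a + (S.s j' : ℤ) + ((i' / 2 : ℕ) : ℤ) + 1 = a + 1 + (S.s j' : ℤ) + ((i' / 2 : ℕ) : ℤ) := by
      ring
    rw [e]
  · have hp' : ¬ ∃ p, S.Tgt M (S.occs J fun z => (x z).1) (y + 1) p := by
      rintro ⟨p, hp2⟩
      refine hp ⟨(p.1, p.2.1 - 1, p.2.2), (Tinvsh_tgt S J M _ y _).mpr ?_⟩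
      simpa using hp2
    rw [dif_neg hp, dif_neg hp']
    rfl

end Pool.Agent.Lib.MP_8d5788_an
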