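import Pool.Agent.Lib.MP_8d5788_an.Stmts

set_option autoImplicit false
open MeasureTheory

namespace Pool.Agent.Lib.MP_8d5788_an

private lemma Tloc_core (k : ℕ → ℕ) (n : ℕ → ℕ → ℕ) (S : Sys k n) (J : Set ℕ) (M f : ℕ → ℕ)
    (hJ : ∀ j ∈ J, M j < k j ∧ n j (M j) ≤ f (M j)) (y : ℤ) (κ w : ℕ)
    (hF : ∀ m ≤ κ, f m ≤ 2 ^ w) (G : ℤ → Bool) (hG : G (y - 1 - κ) = false) (hR : NoRun G y w)
    (p : ℕ × ℤ × ℕ) (hp : S.Tgt M (S.occs J G) y p) :
    p.1 < 4 * w + 3 ∧ p.2.1 ≤ y ∧ y < p.2.1 + S.len p.1 := by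
  obtain ⟨j, a, x⟩ := p
  obtain ⟨⟨hj, hocc⟩, hx, hy⟩ := hp
  simp only at hj hocc hx hy ⊢
  obtain ⟨hm, hn⟩ := hJ j hj
  obtain ⟨hocc1, hocc2⟩ := hocc
  obtain ⟨t, ht, hz, hc1, hc2⟩ := S.q_piece j (M j) x hm hx
  have hpr := S.piece_right j t ht
  rw [hz] at hpr
  have hlen := S.len_eq j
  have hqlen : S.q j (M j) x < S.len j := by omega
  have hmκ : M j ≤ κ := by
    by_contra hcon
    rw [not_le] at hcon
    obtain ⟨h1, h2⟩ := S.q_ones j (M j) x κ hm hx hcon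
    have h3 := hocc2 (S.q j (M j) x - 1 - κ) (by omega)
    have h4 : a + ((S.q j (M j) x - 1 - κ : ℕ) : ℤ) = y - 1 - κ := by omega
    rw [h4, hG, h2] at h3
    exact absurd h3 (by decide)
  have hn2 : n j (M j) ≤ 2 ^ w := hn.trans (hF _ hmκ)
  have hh : S.h j < 4 * w + 2 := by
    by_contra hcon
    rw [not_lt] at hcon
    obtain ⟨Y, hY1, hY2, hY3, hY4⟩ := S.gap j (M j) x w hm hx hn2 hcon
    obtain ⟨u, hu1, hu2⟩ := hR (a + Y) (by omega) (by
      have : (Y : ℤ) ≤ ((S.q j (M j) x + 2 ^ w * (4 * w + 1) : ℕ) : ℤ) := by exact_mod_cast hY2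
      push_cast at this
      rw [hy]
      linarith)
    have h3 := hocc2 (Y + u) (by omega)
    have h4 : a + ((Y + u : ℕ) : ℤ) = a + Y + u := by push_cast; ring
    rw [h4, hu2, hY4 u hu1] at h3
    exact absurd h3 (by decide)
  have hge := S.h_ge j
  refine ⟨by omega, by omega, by omega⟩

/-- see the docstring of `S_tloc` for the proof -/
theorem pf_tloc : S_tloc := by
  intro k n S J M f hJ g hg y
  obtain ⟨hg1, hg2⟩ := hg
  obtain ⟨v, hv, hgv⟩ := hg1 y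
  obtain ⟨κ, hκ⟩ : ∃ κ : ℕ, y - 1 - κ = v := ⟨(y - 1 - v).toNat, by omega⟩
  set F : ℕ := ∑ i ∈ Finset.range (κ + 1), f i with hFdef
  obtain ⟨w, hw, hrun⟩ := hg2 y F
  have hF : ∀ m ≤ κ, f m ≤ 2 ^ w := by
    intro m hm
    have h1 : f m ≤ F := Finset.single_le_sum (f := f) (fun i _ => Nat.zero_le _)
      (Finset.mem_range.2 (by omega))
    have h2 : F < 2 ^ F := Nat.lt_two_pow_self
    have h3 : 2 ^ F ≤ 2 ^ w := Nat.pow_le_pow_right (by norm_num) hw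
    omega
  set L : ℕ := ∑ j ∈ Finset.range (4 * w + 3), S.len j with hL
  have hlenL : ∀ j < 4 * w + 3, S.len j ≤ L := fun j hj =>
    Finset.single_le_sum (f := S.len) (fun i _ => Nat.zero_le _) (Finset.mem_range.2 hj)
  refine ⟨κ + 1 + 2 ^ w * (4 * w + 1) + 4 * w + L + 1, ?_⟩
  intro g' hg' p
  have hGk : g' (y - 1 - κ) = false := by
    rw [hg', hκ, hgv]
    rw [abs_le]
    constructor
    · push_cast
      have : (0 : ℤ) ≤ 2 ^ w * (4 * w + 1) := by positivity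
      omega
    · push_cast
      have : (0 : ℤ) ≤ 2 ^ w * (4 * w + 1) := by positivity
      omega
  have hR' : NoRun g' y w := by
    intro v' hv1 hv2
    obtain ⟨u, hu1, hu2⟩ := hrun v' hv1 hv2
    refine ⟨u, hu1, ?_⟩
    rw [hg', hu2]
    rw [abs_le]
    constructor
    · push_cast
      have : (0 : ℤ) ≤ 2 ^ w * (4 * w + 1) := by positivity
      omega
    · push_cast
      have : (0 : ℤ) ≤ 2 ^ w * (4 * w + 1) := by positivity
      omega
  have hin : ∀ G : ℤ → Bool, G (y - 1 - κ) = false → NoRun G y w → S.Tgt M (S.occs J G) y p →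
      ∀ x : ℤ, -1 ≤ x → x < S.len p.1 →
        |p.2.1 + x - y| ≤ ((κ + 1 + 2 ^ w * (4 * w + 1) + 4 * w + L + 1 : ℕ) : ℤ) := by
    intro G h1 h2 h3 x hx1 hx2
    obtain ⟨c1, c2, c3⟩ := Tloc_core k n S J M f hJ y κ w hF G h1 h2 p h3
    have c4 := hlenL _ c1
    rw [abs_le]
    push_cast
    have : (0 : ℤ) ≤ 2 ^ w * (4 * w + 1) := by positivity
    constructor
    · omega
    · omega
  have htr : ∀ G G' : ℤ → Bool, G (y - 1 - κ) = false → NoRun G y w →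
      (∀ v : ℤ, |v - y| ≤ ((κ + 1 + 2 ^ w * (4 * w + 1) + 4 * w + L + 1 : ℕ) : ℤ) → G' v = G v) →
      S.Tgt M (S.occs J G) y p → S.Tgt M (S.occs J G') y p := by
    intro G G' h1 h2 h3 h4
    have h5 := hin G h1 h2 h4
    obtain ⟨⟨hj, ho1, ho2⟩, hx, hy⟩ := h4
    refine ⟨⟨hj, ?_, ?_⟩, hx, hy⟩
    · have h6 := h5 (-1) le_rfl (by have := Int.natCast_nonneg (S.len p.1); omega)
      show G' (p.2.1 - 1) = false
      rw [h3 _ (by rw [← sub_eq_add_neg] at h6; exact h6)]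
      exact ho1
    · intro u hu
      have h6 := h5 u (by omega) (by exact_mod_cast hu)
      show G' (p.2.1 + u) = _
      rw [h3 _ h6]
      exact ho2 u hu
  refine ⟨⟨htr g' g hGk hR' (fun v hv => (hg' v hv).symm), htr g g' (by rw [hκ]; exact hgv) hrun hg'⟩, ?_⟩
  intro hT x hx
  exact hin g' hGk hR' hT x (by omega) (by exact_mod_cast hx)

end Pool.Agent.Lib.MP_8d5788_an
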