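import Pool.Agent.Lib.MP_8d5788_an.Stmts

set_option autoImplicit false
open MeasureTheory

namespace Pool.Agent.Lib.MP_8d5788_an

/-- see the docstring of `S_tp` for the proof -/
theorem pf_tp (h1 : S_quniq) : S_tp := by
  intro k n S g M O t y p hO hp
  have hex : ∃ p, S.Tgt M O y p := ⟨p, hp⟩
  have huniq : ∀ p', S.Tgt M O y p' → p' = p := by
    rintro ⟨i, a', x'⟩ ⟨h5, h6, h7⟩
    obtain ⟨j, a, x⟩ := p
    obtain ⟨h2, h3, h4⟩ := hp
    obtain ⟨h8, h9⟩ := hO _ h2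
    obtain ⟨h10, h11⟩ := hO _ h5
    obtain ⟨e1, e2, -, e3⟩ := h1 k n S g i j (M j) (M i) x x' a a' h8 h10 h9 h11 h3 h6
      (h4.symm.trans h7)
    rw [e1, e2, e3]
  unfold Sys.tp
  rw [dif_pos hex, huniq _ hex.choose_spec]

end Pool.Agent.Lib.MP_8d5788_an
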