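import Pool.Agent.Lib.MP_8d5788_an.Stmts

set_option autoImplicit false
open MeasureTheory

namespace Pool.Agent.Lib.MP_8d5788_an

private theorem transp_meas {α α' : Type} [MeasurableSpace α] [MeasurableSingletonClass α] [Fintype α]
    [MeasurableSpace α'] (e : α → α') : Measurable (fun (x : ℤ → α) z => e (x z)) :=
  measurable_pi_lambda _ fun z => (measurable_of_finite e).comp (measurable_pi_apply z)

private theorem transp_cont {α α' : Type} [TopologicalSpace α] [DiscreteTopology α]
    [TopologicalSpace α'] (e : α → α') : Continuous (fun (x : ℤ → α) z => e (x z)) :=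
  continuous_pi fun z => continuous_of_discreteTopology.comp (continuous_apply z)

private theorem transp_null {α α' : Type} [MeasurableSpace α] [MeasurableSingletonClass α] [Fintype α]
    [MeasurableSpace α'] [MeasurableSingletonClass α'] [Fintype α'] (e : α ≃ α')
    (μ : Measure (ℤ → α)) (X : Set (ℤ → α)) (h : μ Xᶜ = 0) :
    Measure.map (fun x z => e (x z)) μ ((fun (x : ℤ → α') z => e.symm (x z)) ⁻¹' X)ᶜ = 0 := by
  let eM : (ℤ → α) ≃ᵐ (ℤ → α') :=
    { toFun := fun x z => e (x z)
      invFun := fun x z => e.symm (x z)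
      left_inv := fun x => by
        funext z
        exact e.symm_apply_apply _
      right_inv := fun x => by
        funext z
        exact e.apply_symm_apply _
      measurable_toFun := transp_meas e
      measurable_invFun := transp_meas e.symm }
  have h1 : Measure.map (fun x z => e (x z)) μ = Measure.map eM μ := rfl
  rw [h1, MeasurableEquiv.map_apply]
  have h2 : (eM ⁻¹' ((fun (x : ℤ → α') z => e.symm (x z)) ⁻¹' X)ᶜ) = Xᶜ := by
    ext x
    have h3 : (fun z => e.symm (eM x z)) = x := by
      funext z
      exact e.symm_apply_apply _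
    simp only [Set.mem_preimage, Set.mem_compl_iff]
    rw [h3]
  rw [h2, h]

private theorem transp_aem {X Y : Type} [MeasurableSpace X] [MeasurableSpace Y] {μ : Measure X}
    {ν : Measure Y} {φ : X → Y} {ψ : Y → X} (h1 : Measure.map φ μ = ν) (h2 : Measure.map ψ ν = μ) :
    AEMeasurable φ μ := by
  by_contra hcon
  have h3 := Measure.map_of_not_aemeasurable hcon
  rw [h1] at h3
  rw [h3, Measure.map_zero] at h2
  apply hcon
  rw [← h2]
  exact aemeasurable_zero_measure

private theorem transp_map {α β α' β' : Type} [MeasurableSpace α] [MeasurableSingletonClass α]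
    [Fintype α] [MeasurableSpace β] [MeasurableSingletonClass β] [Fintype β] [MeasurableSpace α']
    [MeasurableSingletonClass α'] [Fintype α'] [MeasurableSpace β'] (e : α ≃ α') (e' : β ≃ β')
    {μ : Measure (ℤ → α)} {ν : Measure (ℤ → β)} {φ : (ℤ → α) → (ℤ → β)} (hφ : AEMeasurable φ μ)
    (h1 : Measure.map φ μ = ν) :
    Measure.map (fun (x : ℤ → α') z => e' (φ (fun z => e.symm (x z)) z))
      (Measure.map (fun x z => e (x z)) μ) = Measure.map (fun x z => e' (x z)) ν := by
  have hid : (fun (x : ℤ → α) => (fun z => e.symm (e (x z)))) = id := by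
    funext x z
    exact e.symm_apply_apply _
  have h2 : Measure.map (fun (x : ℤ → α') z => e.symm (x z))
      (Measure.map (fun x z => e (x z)) μ) = μ := by
    rw [Measure.map_map (transp_meas e.symm) (transp_meas e)]
    have : ((fun (x : ℤ → α') z => e.symm (x z)) ∘ fun (x : ℤ → α) z => e (x z)) = id := hid
    rw [this, Measure.map_id]
  have h3 : AEMeasurable (fun (x : ℤ → α') => φ (fun z => e.symm (x z)))
      (Measure.map (fun x z => e (x z)) μ) := by
    refine AEMeasurable.comp_measurable (g := φ) (f := fun (x : ℤ → α') z => e.symm (x z)) ?_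
      (transp_meas e.symm)
    rw [h2]
    exact hφ
  have h4 : AEMeasurable (fun (x : ℤ → α') z => e' (φ (fun z => e.symm (x z)) z))
      (Measure.map (fun x z => e (x z)) μ) := (transp_meas e').comp_aemeasurable h3
  rw [AEMeasurable.map_map_of_aemeasurable h4 (transp_meas e).aemeasurable, ← h1,
    AEMeasurable.map_map_of_aemeasurable (transp_meas e').aemeasurable hφ]
  congr 1
  funext x
  have := congrFun hid x
  simp only [id] at this
  simp only [Function.comp]
  rw [this]

private theorem transp_one {α β α' β' : Type} [TopologicalSpace α] [MeasurableSpace α]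
    [DiscreteTopology α] [MeasurableSingletonClass α] [Fintype α] [TopologicalSpace β]
    [MeasurableSpace β] [DiscreteTopology β] [MeasurableSingletonClass β] [Fintype β]
    [TopologicalSpace α'] [MeasurableSpace α'] [DiscreteTopology α'] [MeasurableSingletonClass α']
    [Fintype α'] [TopologicalSpace β'] [MeasurableSpace β'] [DiscreteTopology β']
    [MeasurableSingletonClass β'] [Fintype β'] (e : α ≃ α') (e' : β ≃ β') (μ : Measure (ℤ → α))
    (ν : Measure (ℤ → β)) (h : FinIso μ ν) :
    FinIso (Measure.map (fun x z => e (x z)) μ) (Measure.map (fun x z => e' (x z)) ν) := by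
  obtain ⟨X, Y, φ, ψ, hX, hY, mφ, mψ, lφ, lψ, cφ, cψ, sφ, sψ, eφ, eψ⟩ := h
  have e1 : ∀ x : ℤ → β, (fun z => e'.symm (e' (x z))) = x := fun x => by
    funext z
    exact e'.symm_apply_apply _
  have e2 : ∀ x : ℤ → α, (fun z => e.symm (e (x z))) = x := fun x => by
    funext z
    exact e.symm_apply_apply _
  have e3 : ∀ x : ℤ → α', (fun z => e (e.symm (x z))) = x := fun x => by
    funext z
    exact e.apply_symm_apply _
  have e4 : ∀ x : ℤ → β', (fun z => e' (e'.symm (x z))) = x := fun x => by
    funext z
    exact e'.apply_symm_apply _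
  refine ⟨(fun (x : ℤ → α') z => e.symm (x z)) ⁻¹' X, (fun (x : ℤ → β') z => e'.symm (x z)) ⁻¹' Y,
    fun x z => e' (φ (fun z => e.symm (x z)) z), fun y z => e (ψ (fun z => e'.symm (y z)) z),
    transp_null e μ X hX, transp_null e' ν Y hY, ?_, ?_, ?_, ?_, ?_, ?_, ?_, ?_, ?_, ?_⟩
  · intro x hx
    change (fun z => e'.symm (e' (φ (fun z => e.symm (x z)) z))) ∈ Y
    rw [e1]
    exact mφ hx
  · intro y hy
    change (fun z => e.symm (e (ψ (fun z => e'.symm (y z)) z))) ∈ X
    rw [e2]
    exact mψ hy
  · intro x hx
    change (fun z => e (ψ (fun z => e'.symm (e' (φ (fun z => e.symm (x z)) z))) z)) = x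
    rw [e1, lφ hx]
    exact e3 x
  · intro y hy
    change (fun z => e' (φ (fun z => e.symm (e (ψ (fun z => e'.symm (y z)) z))) z)) = y
    rw [e2, lψ hy]
    exact e4 y
  · exact (transp_cont e').comp_continuousOn
      (cφ.comp (transp_cont e.symm).continuousOn (fun x hx => hx))
  · exact (transp_cont e).comp_continuousOn
      (cψ.comp (transp_cont e'.symm).continuousOn (fun x hx => hx))
  · intro x hx
    funext n
    exact congrArg e' (congrFun (sφ _ hx) n)
  · intro y hy
    funext n
    exact congrArg e (congrFun (sψ _ hy) n)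
  · exact transp_map e e' (transp_aem eφ eψ) eφ
  · exact transp_map e' e (transp_aem eψ eφ) eψ

private theorem transp_back {α α' : Type} [MeasurableSpace α] [MeasurableSingletonClass α] [Fintype α]
    [MeasurableSpace α'] [MeasurableSingletonClass α'] [Fintype α'] (e : α ≃ α')
    (μ : Measure (ℤ → α)) :
    Measure.map (fun (x : ℤ → α') z => e.symm (x z)) (Measure.map (fun x z => e (x z)) μ) = μ := by
  rw [Measure.map_map (transp_meas e.symm) (transp_meas e)]
  have : ((fun (x : ℤ → α') z => e.symm (x z)) ∘ fun (x : ℤ → α) z => e (x z)) = id := by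
    funext x z
    exact e.symm_apply_apply _
  rw [this, Measure.map_id]

/-- see the docstring of `S_transp` for the proof -/
theorem pf_transp  : S_transp := by
  intro α β α' β' _ _ _ _ _ _ _ _ _ _ _ _ _ _ _ _ _ _ _ _ e e' μ ν
  constructor
  · exact transp_one e e' μ ν
  · intro h
    have := transp_one e.symm e'.symm _ _ h
    rwa [transp_back e μ, transp_back e' ν] at this

end Pool.Agent.Lib.MP_8d5788_an
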