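import Pool.Agent.Lib.MP_8d5788_an.Stmts

set_option autoImplicit false
open MeasureTheory

namespace Pool.Agent.Lib.MP_8d5788_an

/-- `l` is an initial segment of `x` -/
def treePre (l : List ℕ) (x : ℕ → ℕ) : Prop := ∀ i (h : i < l.length), l[i] = x i

/-- decoding of the constraints -/
def treeD (n : ℕ) : Option (List ℕ × List ℕ) :=
  if n = 0 then none else Encodable.decode (n - 1)

theorem treeD_zero : treeD 0 = none := by simp [treeD]

theorem treeD_succ (q : List ℕ × List ℕ) : treeD (Encodable.encode q + 1) = some q := by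
  rw [treeD, if_neg (Nat.succ_ne_zero _), Nat.add_sub_cancel]
  exact Encodable.encodek q

/-- the tree attached to `x` -/
def treeT (x : ℕ → ℕ) : Set (List ℕ) :=
  {τ | ∀ m < τ.length, ∀ q, treeD (x m) = some q → ¬ (treePre q.1 x ∧ q.2 <+: τ)}

theorem tree_clopen_pre (l : List ℕ) : IsClopen {x | treePre l x} := by
  have : {x | treePre l x} = ⋂ i : Fin l.length, (fun x : ℕ → ℕ => x i) ⁻¹' {l[i]} := by
    ext x
    simp only [treePre, Set.mem_ofPred_eq, Set.mem_iInter, Set.mem_preimage, Set.mem_singleton_iff]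
    exact ⟨fun h i => (h i i.2).symm, fun h i hi => (h ⟨i, hi⟩).symm⟩
  rw [this]
  exact isClopen_iInter_of_finite fun i => (isClopen_discrete _).preimage (continuous_apply _)

theorem tree_clopen_step (τ : List ℕ) (m : ℕ) :
    IsClopen {x : ℕ → ℕ | ∀ q, treeD (x m) = some q → ¬ (treePre q.1 x ∧ q.2 <+: τ)} := by
  have key : ∀ c : ℕ, IsClopen {x : ℕ → ℕ | ∀ q, treeD c = some q → ¬ (treePre q.1 x ∧ q.2 <+: τ)} := by
    intro c
    rcases hD : treeD c with _ | q
    · simp [isClopen_univ]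
    · have : {x : ℕ → ℕ | ∀ q', some q = some q' → ¬ (treePre q'.1 x ∧ q'.2 <+: τ)} =
          {x | treePre q.1 x ∧ q.2 <+: τ}ᶜ := by
        ext x; simp
      rw [this]
      refine IsClopen.compl ?_
      by_cases h : q.2 <+: τ
      · simpa [h] using tree_clopen_pre q.1
      · simp [h, isClopen_empty]
  have hm : ∀ c : ℕ, IsClopen {x : ℕ → ℕ | x m = c} := fun c =>
    (isClopen_discrete {c}).preimage (continuous_apply m)
  constructor
  · rw [← isOpen_compl_iff]
    have : {x : ℕ → ℕ | ∀ q, treeD (x m) = some q → ¬ (treePre q.1 x ∧ q.2 <+: τ)}ᶜ =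
        ⋃ c : ℕ, {x : ℕ → ℕ | x m = c} ∩
          {x : ℕ → ℕ | ∀ q, treeD c = some q → ¬ (treePre q.1 x ∧ q.2 <+: τ)}ᶜ := by
      ext x
      simp only [Set.mem_compl_iff, Set.mem_iUnion, Set.mem_inter_iff, Set.mem_ofPred_eq]
      constructor
      · exact fun h => ⟨x m, rfl, h⟩
      · rintro ⟨c, rfl, h⟩; exact h
    rw [this]
    exact isOpen_iUnion fun c => (hm c).isOpen.inter (key c).compl.isOpen
  · have : {x : ℕ → ℕ | ∀ q, treeD (x m) = some q → ¬ (treePre q.1 x ∧ q.2 <+: τ)} =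
        ⋃ c : ℕ, {x : ℕ → ℕ | x m = c} ∩
          {x : ℕ → ℕ | ∀ q, treeD c = some q → ¬ (treePre q.1 x ∧ q.2 <+: τ)} := by
      ext x
      simp only [Set.mem_iUnion, Set.mem_inter_iff, Set.mem_ofPred_eq]
      constructor
      · exact fun h => ⟨x m, rfl, h⟩
      · rintro ⟨c, rfl, h⟩; exact h
    rw [this]
    exact isOpen_iUnion fun c => (hm c).isOpen.inter (key c).isOpen

theorem tree_clopen (τ : List ℕ) : IsClopen {x | τ ∈ treeT x} := by
  have : {x | τ ∈ treeT x} = ⋂ m : Fin τ.length,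
      {x : ℕ → ℕ | ∀ q, treeD (x m) = some q → ¬ (treePre q.1 x ∧ q.2 <+: τ)} := by
    ext x
    simp only [treeT, Set.mem_ofPred_eq, Set.mem_iInter]
    exact ⟨fun h m => h m m.2, fun h m hm => h ⟨m, hm⟩⟩
  rw [this]
  exact isClopen_iInter_of_finite fun m => tree_clopen_step τ m

theorem tree_pre_of (q : List ℕ) (z : ℕ → ℕ) (N : ℕ)
    (h : q <+: List.ofFn (fun i : Fin N => z i)) : treePre q z := by
  intro i hi
  rw [List.prefix_iff_getElem] at h
  obtain ⟨hl, h⟩ := h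
  rw [h i hi]
  simp

theorem tree_pre_to (q : List ℕ) (z : ℕ → ℕ) (N : ℕ) (hN : q.length ≤ N) (h : treePre q z) :
    q <+: List.ofFn (fun i : Fin N => z i) := by
  rw [List.prefix_iff_getElem]
  refine ⟨by simpa using hN, fun i hi => ?_⟩
  rw [h i hi]
  simp

theorem tree_branch (x z : ℕ → ℕ) : (∀ N : ℕ, List.ofFn (fun i : Fin N => z i) ∈ treeT x) ↔
    ∀ m q, treeD (x m) = some q → ¬ (treePre q.1 x ∧ treePre q.2 z) := by
  constructor
  · rintro h m q hq ⟨h1, h2⟩
    refine h (max (m + 1) q.2.length) m ?_ q hq ⟨h1, tree_pre_to _ _ _ (le_max_right _ _) h2⟩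
    rw [List.length_ofFn]
    exact lt_of_lt_of_le (Nat.lt_succ_self m) (le_max_left _ _)
  · rintro h N m _ q hq ⟨h1, h2⟩
    exact h m q hq ⟨h1, tree_pre_of _ _ _ h2⟩

theorem tree_box (U : Set (ℕ → ℕ)) (hU : IsOpen U) (x : ℕ → ℕ) (hx : x ∈ U) :
    ∃ l : List ℕ, treePre l x ∧ ∀ y, treePre l y → y ∈ U := by
  obtain ⟨v, ⟨x', N, rfl⟩, hv, hvU⟩ :=
    (PiNat.isTopologicalBasis_cylinders (fun _ : ℕ => ℕ)).exists_subset_of_mem_open hx hU
  refine ⟨List.ofFn (fun i : Fin N => x i), ?_, ?_⟩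
  · intro i hi; simp
  · intro y hy
    refine hvU ?_
    rw [← PiNat.mem_cylinder_iff_eq.1 hv]
    intro i hi
    have := hy i (by simpa using hi)
    simpa using this.symm

/-- a closed set does not project onto the complement of the branch set -/
theorem tree_closed (C : Set ((ℕ → ℕ) × (ℕ → ℕ))) (hC : IsClosed C)
    (hB : {x : ℕ → ℕ | ∃ z : ℕ → ℕ, ∀ N : ℕ, List.ofFn (fun i : Fin N => z i) ∈ treeT x}ᶜ =
      {x | ∃ z, (x, z) ∈ C}) : False := by
  classical
  set Q : Set (List ℕ × List ℕ) := {q | ∀ x z, treePre q.1 x → treePre q.2 z → (x, z) ∉ C} with hQ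
  set x₀ : ℕ → ℕ := fun m => if ∃ q ∈ Q, treeD m = some q then m else 0 with hx₀
  have h1 : ∀ m q, treeD (x₀ m) = some q → q ∈ Q := by
    intro m q h
    by_cases hm : ∃ q ∈ Q, treeD m = some q
    · simp only [hx₀, hm, if_true] at h
      obtain ⟨q', hq', hD⟩ := hm
      rw [hD] at h
      exact (Option.some.inj h) ▸ hq'
    · simp only [hx₀, hm, if_false, treeD_zero] at h
      exact absurd h (by simp)
  have h2 : ∀ q ∈ Q, ∃ m, treeD (x₀ m) = some q := by
    intro q hq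
    refine ⟨Encodable.encode q + 1, ?_⟩
    have hm : ∃ q' ∈ Q, treeD (Encodable.encode q + 1) = some q' := ⟨q, hq, treeD_succ q⟩
    have : x₀ (Encodable.encode q + 1) = Encodable.encode q + 1 := if_pos hm
    rw [this, treeD_succ]
  have h3 : (∃ z : ℕ → ℕ, ∀ N : ℕ, List.ofFn (fun i : Fin N => z i) ∈ treeT x₀) ↔
      ∃ z, (x₀, z) ∈ C := by
    refine exists_congr fun z => ?_
    rw [tree_branch]
    constructor
    · intro h
      by_contra hn
      obtain ⟨u, v, hu, hv, hxu, hzv, huv⟩ := isOpen_prod_iff.1 hC.isOpen_compl x₀ z hn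
      obtain ⟨l, hl, hlu⟩ := tree_box u hu x₀ hxu
      obtain ⟨l', hl', hlv⟩ := tree_box v hv z hzv
      have hq : (l, l') ∈ Q := fun x z' hx hz' => huv ⟨hlu x hx, hlv z' hz'⟩
      obtain ⟨m, hm⟩ := h2 _ hq
      exact h m _ hm ⟨hl, hl'⟩
    · rintro h m q hq ⟨ha, hb⟩
      exact h1 m q hq x₀ z ha hb h
  have h4 : (x₀ ∈ {x : ℕ → ℕ | ∃ z : ℕ → ℕ, ∀ N : ℕ, List.ofFn (fun i : Fin N => z i) ∈ treeT x}ᶜ) ↔
      x₀ ∈ {x | ∃ z, (x, z) ∈ C} := by rw [hB]
  simp only [Set.mem_compl_iff, Set.mem_ofPred_eq] at h4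
  rw [h3] at h4
  exact (not_iff_self h4)

/-- see the docstring of `S_tree` for the proof -/
theorem pf_tree  : S_tree := by
  refine ⟨treeT, tree_clopen, ?_, ?_⟩
  · intro x τ τ' hp hτ m hm q hq h
    exact hτ m (lt_of_lt_of_le hm hp.length_le) q hq ⟨h.1, h.2.trans hp⟩
  · intro hB
    have hA := hB.compl.analyticSet
    rw [AnalyticSet] at hA
    rcases hA with hA | ⟨f, hf, hA⟩
    · refine tree_closed ∅ isClosed_empty ?_
      rw [hA]; ext x; simp
    · refine tree_closed {p | f p.2 = p.1} (isClosed_eq (hf.comp continuous_snd) continuous_fst) ?_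
      rw [← hA]; ext x; simp

end Pool.Agent.Lib.MP_8d5788_an
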