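import Pool.Agent.Lib.MP_8d5788_an.Stmts

set_option autoImplicit false
open MeasureTheory

namespace Pool.Agent.Lib.MP_8d5788_an

theorem Vsmall_meas {α : Type} [MeasurableSpace α] (c : ℤ) :
    Measurable (fun x : ℤ → α => fun n => x (n + c)) :=
  measurable_pi_lambda _ fun n => measurable_pi_apply (n + c)

theorem Vsmall_map {α : Type} [MeasurableSpace α] (μ : Measure (ℤ → α))
    (h : Measure.map (fun x : ℤ → α => fun n => x (n + 1)) μ = μ) (c : ℤ) :
    Measure.map (fun x : ℤ → α => fun n => x (n + c)) μ = μ := by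
  induction c using Int.induction_on with
  | zero =>
    have : (fun x : ℤ → α => fun n => x (n + 0)) = id := by
      funext x n
      simp
    rw [this, Measure.map_id]
  | succ i ih =>
    have : (fun x : ℤ → α => fun n => x (n + ((i : ℤ) + 1))) =
        (fun x : ℤ → α => fun n => x (n + 1)) ∘ (fun x : ℤ → α => fun n => x (n + (i : ℤ))) := by
      funext x n
      simp only [Function.comp_apply]
      congr 1
      ring
    rw [this, ← Measure.map_map (Vsmall_meas 1) (Vsmall_meas _), ih, h]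
  | pred i ih =>
    have : (fun x : ℤ → α => fun n => x (n + (-(i : ℤ)))) =
        (fun x : ℤ → α => fun n => x (n + (-(i : ℤ) - 1))) ∘
        (fun x : ℤ → α => fun n => x (n + 1)) := by
      funext x n
      simp only [Function.comp_apply]
      congr 1
      ring
    rw [this, ← Measure.map_map (Vsmall_meas _) (Vsmall_meas 1), h] at ih
    exact ih

/-- the set of points where the output at `0` is determined by the coordinates in `[-K, K]` -/
def Vsmall_G {α β : Type} (X : Set (ℤ → α)) (φ : (ℤ → α) → (ℤ → β)) (K : ℕ) : Set (ℤ → α) :=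
  {x | ∀ x' ∈ X, ∀ x'' ∈ X, (∀ v : ℤ, |v| ≤ K → x' v = x v) → (∀ v : ℤ, |v| ≤ K → x'' v = x v) →
    φ x' 0 = φ x'' 0}

theorem Vsmall_G_meas {α β : Type} [Fintype α] [MeasurableSpace α] [MeasurableSingletonClass α]
    (X : Set (ℤ → α)) (φ : (ℤ → α) → (ℤ → β)) (K : ℕ) : MeasurableSet (Vsmall_G X φ K) := by
  classical
  let r : (ℤ → α) → (Finset.Icc (-(K : ℤ)) K → α) := fun x v => x v
  have hr : Measurable r := measurable_pi_lambda _ fun v => measurable_pi_apply _
  have hmem : ∀ v : ℤ, |v| ≤ K → v ∈ Finset.Icc (-(K : ℤ)) K := fun v hv =>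
    Finset.mem_Icc.2 (abs_le.1 hv)
  have e : Vsmall_G X φ K = r ⁻¹' (r '' (Vsmall_G X φ K)) := by
    apply Set.Subset.antisymm (Set.subset_preimage_image _ _)
    rintro x ⟨y, hy, hyx⟩
    have h : ∀ v : ℤ, |v| ≤ K → y v = x v := fun v hv => congrFun hyx ⟨v, hmem v hv⟩
    intro x' hx' x'' hx'' h1 h2
    exact hy x' hx' x'' hx'' (fun v hv => (h1 v hv).trans (h v hv).symm)
      (fun v hv => (h2 v hv).trans (h v hv).symm)
  rw [e]
  exact hr (Set.toFinite _).measurableSet

theorem Vsmall_G_mono {α β : Type} (X : Set (ℤ → α)) (φ : (ℤ → α) → (ℤ → β)) :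
    Monotone (Vsmall_G X φ) := by
  intro K L hKL x hx x' hx' x'' hx'' h1 h2
  have : (K : ℤ) ≤ L := by exact_mod_cast hKL
  exact hx x' hx' x'' hx'' (fun v hv => h1 v (hv.trans this)) (fun v hv => h2 v (hv.trans this))

theorem Vsmall_G_union {α β : Type} [TopologicalSpace α] [DiscreteTopology α] [TopologicalSpace β]
    [DiscreteTopology β] (X₀ X : Set (ℤ → α)) (φ : (ℤ → α) → (ℤ → β)) (hX : X ⊆ X₀)
    (hc : ContinuousOn φ X₀) : X ⊆ ⋃ K, Vsmall_G X φ K := by
  intro x hx
  have h1 : ContinuousWithinAt (fun y => φ y 0) X₀ x :=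
    (continuous_apply (0 : ℤ)).continuousAt.comp_continuousWithinAt (hc x (hX hx))
  have h2 : {y | φ y 0 = φ x 0} ∈ nhdsWithin x X₀ :=
    h1 (isOpen_discrete ({φ x 0} : Set β) |>.mem_nhds rfl)
  rw [mem_nhdsWithin_iff_exists_mem_nhds_inter] at h2
  obtain ⟨u, hu, hu2⟩ := h2
  rw [nhds_pi, Filter.mem_pi] at hu
  obtain ⟨I, hI, t, ht, htu⟩ := hu
  obtain ⟨K, hK⟩ : ∃ K : ℕ, ∀ v ∈ I, |v| ≤ (K : ℤ) := by
    obtain ⟨B, hB⟩ := (hI.image (fun v : ℤ => v.natAbs)).bddAbove
    refine ⟨B, fun v hv => ?_⟩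
    have := hB ⟨v, hv, rfl⟩
    simp only at this
    rw [Int.abs_eq_natAbs]
    exact_mod_cast this
  rw [Set.mem_iUnion]
  refine ⟨K, ?_⟩
  have key : ∀ x' ∈ X, (∀ v : ℤ, |v| ≤ K → x' v = x v) → φ x' 0 = φ x 0 := by
    intro x' hx' h
    refine hu2 ⟨htu ?_, hX hx'⟩
    intro v hv
    rw [h v (hK v hv)]
    exact mem_of_mem_nhds (ht v)
  intro x' hx' x'' hx'' h3 h4
  rw [key x' hx' h3, key x'' hx'' h4]

theorem Vsmall_und {α β : Type} (X : Set (ℤ → α)) (φ : (ℤ → α) → (ℤ → β))
    (hX : ∀ x ∈ X, ∀ c : ℤ, (fun n => x (n + c)) ∈ X ∧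
      φ (fun n => x (n + c)) = fun n => φ x (n + c)) (K N : ℕ) (x : ℤ → α) :
    (und X φ (fun y : Fin N => x (y : ℤ)) : ℝ) ≤ 2 * K + ∑ y : Fin N,
      Set.indicator ((fun x : ℤ → α => fun n => x (n + ((y : ℕ) : ℤ))) ⁻¹' (Vsmall_G X φ K)ᶜ)
        (fun _ => (1 : ℝ)) x := by
  classical
  have h1 : und X φ (fun y : Fin N => x (y : ℤ)) ≤
      (Finset.univ.filter (fun y : Fin N => (y : ℕ) < K)).card +
      (Finset.univ.filter (fun y : Fin N => N ≤ (y : ℕ) + K)).card +
      (Finset.univ.filter (fun y : Fin N =>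
        x ∈ (fun x : ℤ → α => fun n => x (n + ((y : ℕ) : ℤ))) ⁻¹' (Vsmall_G X φ K)ᶜ)).card := by
    unfold und
    refine le_trans (Finset.card_le_card ?_) ((Finset.card_union_le _ _).trans
      (Nat.add_le_add_right (Finset.card_union_le _ _) _))
    intro y hy
    have hy' := (Finset.mem_filter.1 hy).2
    by_contra hcon
    simp only [Finset.mem_union, Finset.mem_filter, Finset.mem_univ, true_and, not_or,
      Set.mem_preimage, Set.mem_compl_iff, not_not, not_lt, not_le] at hcon
    obtain ⟨⟨h2, h3⟩, h4⟩ := hcon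
    apply hy'
    intro x' hx' x'' hx'' hc' hc''
    have e1 := congrFun (hX x' hx' ((y : ℕ) : ℤ)).2 0
    have e2 := congrFun (hX x'' hx'' ((y : ℕ) : ℤ)).2 0
    simp only [zero_add] at e1 e2
    rw [← e1, ← e2]
    have hag : ∀ z : ℤ → α, z ∈ cyl (fun y : Fin N => x (y : ℤ)) → ∀ v : ℤ, |v| ≤ K →
        (fun n => z (n + ((y : ℕ) : ℤ))) v = (fun n => x (n + ((y : ℕ) : ℤ))) v := by
      intro z hz v hv
      rw [abs_le] at hv
      have hlt : (v + ((y : ℕ) : ℤ)).toNat < N := by omega
      have := hz ⟨(v + ((y : ℕ) : ℤ)).toNat, hlt⟩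
      simp only at this
      rw [Int.toNat_of_nonneg (by omega)] at this
      exact this
    exact h4 _ (hX x' hx' _).1 _ (hX x'' hx'' _).1 (hag x' hc') (hag x'' hc'')
  have h2 : (Finset.univ.filter (fun y : Fin N => (y : ℕ) < K)).card ≤ K := by
    have := Finset.card_le_card_of_injOn (s := Finset.univ.filter (fun y : Fin N => (y : ℕ) < K))
      (t := Finset.range K) (fun y => (y : ℕ))
      (fun y hy => by simpa using hy) (fun a _ b _ h => Fin.ext h)
    simpa using this
  have h3 : (Finset.univ.filter (fun y : Fin N => N ≤ (y : ℕ) + K)).card ≤ K := by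
    have := Finset.card_le_card_of_injOn (s := Finset.univ.filter (fun y : Fin N => N ≤ (y : ℕ) + K))
      (t := Finset.range K) (fun y => N - 1 - (y : ℕ))
      (fun y hy => by
        have h := y.2
        have h' : N ≤ (y : ℕ) + K := by simpa using hy
        simp only [Finset.coe_range, Set.mem_Iio]
        omega)
      (fun a _ b _ h => by
        have ha := a.2
        have hb := b.2
        simp only at h
        apply Fin.ext
        omega)
    simpa using this
  have h4 : (((Finset.univ.filter (fun y : Fin N =>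
        x ∈ (fun x : ℤ → α => fun n => x (n + ((y : ℕ) : ℤ))) ⁻¹' (Vsmall_G X φ K)ᶜ)).card : ℕ) : ℝ) =
      ∑ y : Fin N,
      Set.indicator ((fun x : ℤ → α => fun n => x (n + ((y : ℕ) : ℤ))) ⁻¹' (Vsmall_G X φ K)ᶜ)
        (fun _ => (1 : ℝ)) x := by
    rw [Finset.card_filter]
    push_cast
    refine Finset.sum_congr rfl fun y _ => ?_
    rw [Set.indicator_apply]
  rw [← h4]
  have h5 : und X φ (fun y : Fin N => x (y : ℤ)) ≤ 2 * K + (Finset.univ.filter (fun y : Fin N =>
        x ∈ (fun x : ℤ → α => fun n => x (n + ((y : ℕ) : ℤ))) ⁻¹' (Vsmall_G X φ K)ᶜ)).card := by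
    omega
  exact_mod_cast h5

/-- see the docstring of `S_vsmall` for the proof -/
theorem pf_vsmall  : S_vsmall := by
  classical
  intro α β _ _ _ _ _ _ _ μ _ hμ X₀ φ hX₀ hc heq
  have hmp : ∀ c : ℤ, MeasurePreserving (fun x : ℤ → α => fun n => x (n + c)) μ μ := fun c =>
    ⟨Vsmall_meas c, Vsmall_map μ hμ c⟩
  let X : Set (ℤ → α) := {x | ∀ c : ℤ, (fun n => x (n + c)) ∈ X₀}
  have hXX₀ : X ⊆ X₀ := by
    intro x hx
    have := hx 0
    simpa using this
  have hXnull : μ Xᶜ = 0 := by
    have : Xᶜ = ⋃ c : ℤ, (fun x : ℤ → α => fun n => x (n + c)) ⁻¹' X₀ᶜ := by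
      ext x
      simp only [X, Set.mem_compl_iff, Set.mem_ofPred_eq, not_forall, Set.mem_iUnion,
        Set.mem_preimage]
    rw [this, measure_iUnion_null_iff]
    intro c
    exact (hmp c).quasiMeasurePreserving.preimage_null hX₀
  have hsh : ∀ x ∈ X, ∀ c : ℤ, (fun n => x (n + c)) ∈ X := by
    intro x hx c c'
    have h1 := hx (c' + c)
    have e : (fun n : ℤ => (fun n => x (n + c)) (n + c')) = fun n => x (n + (c' + c)) := by
      funext n
      simp only [add_assoc]
    rw [e]
    exact h1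
  have hnat : ∀ x ∈ X, ∀ c : ℕ, φ (fun n => x (n + (c : ℤ))) = fun n => φ x (n + (c : ℤ)) := by
    intro x hx c
    induction c with
    | zero => simp
    | succ c ih =>
      have h1 := heq _ (hx (c : ℤ))
      have e1 : (fun n : ℤ => x (n + ((c + 1 : ℕ) : ℤ))) =
          fun n => (fun n => x (n + (c : ℤ))) (n + 1) := by
        funext n
        simp only
        congr 1
        push_cast
        ring
      rw [e1, h1, ih]
      funext n
      simp only
      congr 1
      push_cast
      ring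
  have hXe : ∀ x ∈ X, ∀ c : ℤ, (fun n => x (n + c)) ∈ X ∧
      φ (fun n => x (n + c)) = fun n => φ x (n + c) := by
    intro x hx c
    refine ⟨hsh x hx c, ?_⟩
    rcases Int.eq_nat_or_neg c with ⟨m, rfl | rfl⟩
    · exact hnat x hx m
    · have h1 := hnat _ (hsh x hx (-(m : ℤ))) m
      have e1 : (fun n : ℤ => (fun n => x (n + (-(m : ℤ)))) (n + (m : ℤ))) = x := by
        funext n
        simp
      rw [e1] at h1
      rw [h1]
      funext n
      simp
  refine ⟨X, hXnull, hXe, ?_⟩
  intro ε hε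
  -- choose `K`
  have htend : Filter.Tendsto (μ ∘ fun K => (Vsmall_G X φ K)ᶜ) Filter.atTop
      (nhds (μ (⋂ K, (Vsmall_G X φ K)ᶜ))) := by
    refine tendsto_measure_iInter_atTop (fun K => (Vsmall_G_meas X φ K).compl.nullMeasurableSet)
      ?_ ⟨0, measure_ne_top _ _⟩
    intro K L hKL
    exact Set.compl_subset_compl.2 (Vsmall_G_mono X φ hKL)
  have hzero : μ (⋂ K, (Vsmall_G X φ K)ᶜ) = 0 := by
    refine measure_mono_null ?_ hXnull
    rw [← Set.compl_iUnion]
    exact Set.compl_subset_compl.2 (Vsmall_G_union X₀ X φ hXX₀ hc)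
  rw [hzero] at htend
  obtain ⟨K, hK⟩ := (htend.eventually (gt_mem_nhds (show (0 : ENNReal) < ENNReal.ofReal (ε / 2) by
    rw [ENNReal.ofReal_pos]; linarith))).exists
  have hK' : μ.real (Vsmall_G X φ K)ᶜ ≤ ε / 2 :=
    ENNReal.toReal_le_of_le_ofReal (by linarith) (le_of_lt hK)
  refine ⟨⌈4 * K / ε⌉₊, fun N hN => ?_⟩
  have hN' : 4 * (K : ℝ) ≤ ε * N := by
    have h1 : 4 * (K : ℝ) / ε ≤ N := (Nat.le_ceil _).trans (by exact_mod_cast hN)
    rw [div_le_iff₀ hε] at h1
    linarith
  -- the window map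
  let W : (ℤ → α) → (Fin N → α) := fun x y => x (y : ℤ)
  have hW : Measurable W := measurable_pi_lambda _ fun y => measurable_pi_apply _
  have hWcyl : ∀ w : Fin N → α, W ⁻¹' {w} = cyl w := by
    intro w
    ext x
    simp only [Set.mem_preimage, Set.mem_singleton_iff, cyl, Set.mem_ofPred_eq]
    exact funext_iff
  have hint : ∑ w : Fin N → α, (und X φ w : ℝ) * μ.real (cyl w) = ∫ x, (und X φ (W x) : ℝ) ∂μ := by
    have h1 : ∫ x, (und X φ (W x) : ℝ) ∂μ = ∫ w, (und X φ w : ℝ) ∂(Measure.map W μ) := by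
      rw [integral_map hW.aemeasurable]
      exact (measurable_of_finite _).aestronglyMeasurable
    have : IsProbabilityMeasure (Measure.map W μ) := Measure.isProbabilityMeasure_map hW.aemeasurable
    rw [h1, integral_fintype Integrable.of_finite]
    refine Finset.sum_congr rfl fun w _ => ?_
    rw [smul_eq_mul, mul_comm, measureReal_def, measureReal_def,
      Measure.map_apply hW (MeasurableSet.singleton w), hWcyl]
  have hmeasy : ∀ y : Fin N, MeasurableSet
      ((fun x : ℤ → α => fun n => x (n + ((y : ℕ) : ℤ))) ⁻¹' (Vsmall_G X φ K)ᶜ) := fun y =>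
    Vsmall_meas _ (Vsmall_G_meas X φ K).compl
  have hinty : ∀ y : Fin N, Integrable
      (Set.indicator ((fun x : ℤ → α => fun n => x (n + ((y : ℕ) : ℤ))) ⁻¹' (Vsmall_G X φ K)ᶜ)
        (fun _ => (1 : ℝ))) μ := fun y => (integrable_const (1 : ℝ)).indicator (hmeasy y)
  rw [hint]
  calc ∫ x, (und X φ (W x) : ℝ) ∂μ ≤ ∫ x, (2 * (K : ℝ) + ∑ y : Fin N,
      Set.indicator ((fun x : ℤ → α => fun n => x (n + ((y : ℕ) : ℤ))) ⁻¹' (Vsmall_G X φ K)ᶜ)
        (fun _ => (1 : ℝ)) x) ∂μ := by
        refine integral_mono ?_ ?_ (fun x => Vsmall_und X φ hXe K N x)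
        · have : Integrable (fun w : Fin N → α => (und X φ w : ℝ)) (Measure.map W μ) := by
            have : IsProbabilityMeasure (Measure.map W μ) :=
              Measure.isProbabilityMeasure_map hW.aemeasurable
            exact Integrable.of_finite
          exact this.comp_measurable hW
        · exact (integrable_const _).add (integrable_finsetSum _ fun y _ => hinty y)
    _ = 2 * (K : ℝ) + ∑ _y : Fin N, μ.real (Vsmall_G X φ K)ᶜ := by
        rw [integral_add (integrable_const _) (integrable_finsetSum _ fun y _ => hinty y),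
          integral_finsetSum _ fun y _ => hinty y]
        congr 1
        · simp
        · refine Finset.sum_congr rfl fun y _ => ?_
          rw [integral_indicator_const _ (hmeasy y), smul_eq_mul, mul_one]
          exact (hmp _).measureReal_preimage (Vsmall_G_meas X φ K).compl.nullMeasurableSet
    _ ≤ ε * N := by
        rw [Finset.sum_const, Finset.card_univ, Fintype.card_fin, nsmul_eq_mul]
        have h0 : (0 : ℝ) ≤ N := Nat.cast_nonneg N
        nlinarith [mul_le_mul_of_nonneg_left hK' h0]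

end Pool.Agent.Lib.MP_8d5788_an
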