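import Pool.Agent.Lib.MP_8d5788_an.Stmts

set_option autoImplicit false
open MeasureTheory

namespace Pool.Agent.Lib.MP_8d5788_an

theorem Zip_coin (b : Bool) : coin {b} = (2⁻¹ : ENNReal) := by
  unfold coin
  rw [PMF.toMeasure_apply_singleton _ _ (measurableSet_singleton b), PMF.uniformOfFintype_apply]
  simp

theorem Zip_cyl (s : Finset ℤ) (c : s → Bool) :
    lam {g | ∀ z : s, g z = c z} = (2⁻¹ : ENNReal) ^ s.card := by
  classical
  have hset : {g : ℤ → Bool | ∀ z : s, g z = c z} =
      Set.pi (s : Set ℤ) (fun z => if h : z ∈ s then {c ⟨z, h⟩} else Set.univ) := by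
    ext g
    simp only [Set.mem_ofPred_eq, Set.mem_pi]
    constructor
    · intro h z hz
      have hz' : z ∈ s := hz
      rw [dif_pos hz']
      exact h ⟨z, hz'⟩
    · intro h z
      have h1 := h z z.2
      rw [dif_pos z.2] at h1
      exact h1
  rw [hset]
  unfold lam
  rw [Measure.infinitePi_pi _ (fun z hz => by rw [dif_pos hz]; exact measurableSet_singleton _)]
  rw [Finset.prod_congr rfl (g := fun _ => (2⁻¹ : ENNReal)) (fun z hz => by
    rw [dif_pos hz, Zip_coin]), Finset.prod_const]

/-- see the docstring of `S_zip` for the proof -/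
theorem pf_zip  : S_zip := by
  have hm : Measurable (fun (p : (ℤ → Bool) × (ℤ → Bool)) (z : ℤ) => (p.1 z, p.2 z)) := by
    rw [measurable_pi_iff]
    intro z
    exact ((measurable_pi_apply z).comp measurable_fst).prodMk
      ((measurable_pi_apply z).comp measurable_snd)
  have hlim : IsProjectiveLimit lam2
      (fun I : Finset ℤ => Measure.pi fun _ : I => coin.prod coin) := by
    unfold lam2
    exact Measure.isProjectiveLimit_infinitePi (fun _ : ℤ => coin.prod coin)
  refine IsProjectiveLimit.unique (P := fun I : Finset ℤ => Measure.pi fun _ : I => coin.prod coin)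
    ?_ hlim
  intro I
  have hr : Measurable (I.restrict (π := fun _ : ℤ => Bool × Bool)) := Finset.measurable_restrict I
  rw [Measure.ext_iff_singleton]
  intro c
  rw [Measure.map_apply hr (measurableSet_singleton c),
    Measure.map_apply hm (hr (measurableSet_singleton c))]
  have hset : (fun (p : (ℤ → Bool) × (ℤ → Bool)) (z : ℤ) => (p.1 z, p.2 z)) ⁻¹'
      (I.restrict ⁻¹' {c}) =
      {g : ℤ → Bool | ∀ z : I, g z = (c z).1} ×ˢ {g : ℤ → Bool | ∀ z : I, g z = (c z).2} := by
    ext p
    simp only [Set.mem_preimage, Set.mem_singleton_iff, Set.mem_prod, Set.mem_ofPred_eq]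
    constructor
    · intro h
      exact ⟨fun z => congrArg Prod.fst (congrFun h z), fun z => congrArg Prod.snd (congrFun h z)⟩
    · rintro ⟨h1, h2⟩
      funext z
      exact Prod.ext (h1 z) (h2 z)
  rw [hset, Measure.prod_prod, Zip_cyl, Zip_cyl, Measure.pi_singleton]
  have h4 : ∀ i : I, (coin.prod coin) {c i} = (4⁻¹ : ENNReal) := by
    intro i
    have h5 : ({c i} : Set (Bool × Bool)) = {(c i).1} ×ˢ {(c i).2} := by
      rw [Set.singleton_prod_singleton]
    rw [h5, Measure.prod_prod, Zip_coin, Zip_coin,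
      ← ENNReal.mul_inv (Or.inl (by norm_num)) (Or.inl (by norm_num))]
    norm_num
  rw [Finset.prod_congr rfl (fun i _ => h4 i), Finset.prod_const, ← mul_pow,
    ← ENNReal.mul_inv (Or.inl (by norm_num)) (Or.inl (by norm_num)), Finset.card_univ,
    Fintype.card_coe]
  norm_num

end Pool.Agent.Lib.MP_8d5788_an
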